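import Mathlib

open MeasureTheory Metric Set

noncomputable section

namespace Pool.Agent.Lib.MP_d3a69a_an

/-- The `k`-th Taylor coefficient at the origin. -/
def coeff (f : ℂ → ℂ) (k : ℕ) : ℂ := iteratedDeriv k f 0 / (k.factorial : ℂ)

/-- The vector space of analytic functions on the open unit disc, realised as the functions
`ℂ → ℂ` that are holomorphic on the disc and vanish outside it. -/
def discAnalytic : Submodule ℂ (ℂ → ℂ) where
  carrier := {f | DifferentiableOn ℂ f (ball 0 1) ∧ ∀ z, z ∉ ball (0 : ℂ) 1 → f z = 0}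
  add_mem' := by
    rintro f g ⟨hf, hf0⟩ ⟨hg, hg0⟩
    exact ⟨hf.add hg, fun z hz => by simp [hf0 z hz, hg0 z hz]⟩
  zero_mem' := ⟨differentiableOn_const 0, fun _ _ => rfl⟩
  smul_mem' := by
    rintro c f ⟨hf, hf0⟩
    exact ⟨hf.const_smul c, fun z hz => by simp [hf0 z hz]⟩

lemma differentiableOn_iteratedDeriv {f : ℂ → ℂ} (hf : DifferentiableOn ℂ f (ball 0 1)) (n : ℕ) :
    DifferentiableOn ℂ (iteratedDeriv n f) (ball 0 1) := by
  induction n with
  | zero => simpa using hf
  | succ n ih =>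
    rw [iteratedDeriv_succ]
    exact ih.deriv isOpen_ball

lemma contDiffAt_of_mem {f : ℂ → ℂ} (hf : DifferentiableOn ℂ f (ball 0 1)) {z : ℂ}
    (hz : z ∈ ball (0 : ℂ) 1) (n : ℕ) : ContDiffAt ℂ n f z :=
  (hf.contDiffOn isOpen_ball).contDiffAt (isOpen_ball.mem_nhds hz)

lemma iteratedDeriv_add_on {f g : ℂ → ℂ} (hf : DifferentiableOn ℂ f (ball 0 1))
    (hg : DifferentiableOn ℂ g (ball 0 1)) (n : ℕ) {z : ℂ} (hz : z ∈ ball (0 : ℂ) 1) :
    iteratedDeriv n (f + g) z = iteratedDeriv n f z + iteratedDeriv n g z :=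
  iteratedDeriv_add (contDiffAt_of_mem hf hz n) (contDiffAt_of_mem hg hz n)

lemma iteratedDeriv_smul_on {f : ℂ → ℂ} (hf : DifferentiableOn ℂ f (ball 0 1)) (c : ℂ)
    (n : ℕ) {z : ℂ} (hz : z ∈ ball (0 : ℂ) 1) :
    iteratedDeriv n (c • f) z = c * iteratedDeriv n f z := by
  have := iteratedDeriv_const_smul (n := n) (contDiffAt_of_mem hf hz n) c
  rw [this, smul_eq_mul]

/-- The integrand of the Besov seminorm, `|f^{(n)}(z)| (1 - |z|)^{n - α - 1}`. -/
def besovDensity (α : ℝ) (n : ℕ) (f : ℂ → ℂ) (z : ℂ) : ℝ :=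
  ‖iteratedDeriv n f z‖ * (1 - ‖z‖) ^ ((n : ℝ) - α - 1)

/-- The Besov space `B_1^α` as a vector space, described with the derivative of order `n`:
the functions `f` analytic in the disc such that
`∬_{|z|<1} |f^{(n)}(z)| (1 - |z|)^{n - α - 1} dx dy` is finite. -/
def besovSubmodule (α : ℝ) (n : ℕ) : Submodule ℂ (ℂ → ℂ) where
  carrier := {f | f ∈ discAnalytic ∧ IntegrableOn (besovDensity α n f) (ball 0 1) volume}
  add_mem' := by
    rintro f g ⟨hf, hfi⟩ ⟨hg, hgi⟩
    refine ⟨discAnalytic.add_mem hf hg, ?_⟩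
    have hm : AEStronglyMeasurable (besovDensity α n (f + g)) (volume.restrict (ball 0 1)) := by
      have h1 : ContinuousOn (iteratedDeriv n (f + g)) (ball 0 1) :=
        (differentiableOn_iteratedDeriv (hf.1.add hg.1) n).continuousOn
      have h2 : Measurable (fun z : ℂ => (1 - ‖z‖) ^ ((n : ℝ) - α - 1)) := by fun_prop
      exact (h1.norm.aestronglyMeasurable measurableSet_ball).mul h2.aestronglyMeasurable
    refine Integrable.mono (hfi.add hgi) hm ?_
    filter_upwards [ae_restrict_mem measurableSet_ball] with z hz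
    have hz1 : 0 ≤ 1 - ‖z‖ := by
      have := mem_ball_zero_iff.mp hz
      linarith
    have hw : 0 ≤ (1 - ‖z‖) ^ ((n : ℝ) - α - 1) := Real.rpow_nonneg hz1 _
    simp only [besovDensity, Pi.add_apply]
    rw [iteratedDeriv_add_on hf.1 hg.1 n hz, Real.norm_of_nonneg (by positivity),
      Real.norm_of_nonneg (by positivity), ← add_mul]
    exact mul_le_mul_of_nonneg_right (norm_add_le _ _) hw
  zero_mem' := by
    refine ⟨discAnalytic.zero_mem, ?_⟩
    have : besovDensity α n (0 : ℂ → ℂ) = fun _ => 0 := by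
      funext z
      have : iteratedDeriv n (0 : ℂ → ℂ) z = 0 := by
        have h := iteratedDeriv_const (n := n) (c := (0 : ℂ)) (x := z)
        have h0 : (0 : ℂ → ℂ) = fun _ => (0 : ℂ) := rfl
        rw [h0, h]
        split <;> rfl
      simp [besovDensity, this]
    rw [this]
    exact integrableOn_zero
  smul_mem' := by
    rintro c f ⟨hf, hfi⟩
    refine ⟨discAnalytic.smul_mem c hf, ?_⟩
    refine (hfi.const_mul ‖c‖).congr ?_
    filter_upwards [ae_restrict_mem measurableSet_ball] with z hz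
    simp only [besovDensity]
    rw [iteratedDeriv_smul_on hf.1 c n hz, norm_mul, mul_assoc]

/-- The Besov space `B_1^α`. -/
def Besov (α : ℝ) (n : ℕ) : Type := besovSubmodule α n

instance (α : ℝ) (n : ℕ) : AddCommGroup (Besov α n) :=
  inferInstanceAs (AddCommGroup (besovSubmodule α n))

instance (α : ℝ) (n : ℕ) : Module ℂ (Besov α n) :=
  inferInstanceAs (Module ℂ (besovSubmodule α n))

/-- The underlying function of an element of `B_1^α`. -/
def Besov.fn {α : ℝ} {n : ℕ} (f : Besov α n) : ℂ → ℂ :=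
  ((show besovSubmodule α n from f) : ℂ → ℂ)

/-- The norm of `B_1^α`:
`∬_{|z|<1} |f^{(n)}(z)| (1 - |z|)^{n - α - 1} dx dy + ∑_{j<n} |f^{(j)}(0)|`. -/
instance (α : ℝ) (n : ℕ) : Norm (Besov α n) :=
  ⟨fun f => (∫ z in ball (0 : ℂ) 1, besovDensity α n f.fn z)
    + ∑ j ∈ Finset.range n, ‖iteratedDeriv j f.fn 0‖⟩

lemma Besov.norm_def {α : ℝ} {n : ℕ} (f : Besov α n) :
    ‖f‖ = (∫ z in ball (0 : ℂ) 1, besovDensity α n f.fn z)
      + ∑ j ∈ Finset.range n, ‖iteratedDeriv j f.fn 0‖ := rfl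

lemma Besov.fn_add {α : ℝ} {n : ℕ} (f g : Besov α n) : (f + g).fn = f.fn + g.fn := rfl

lemma Besov.fn_smul {α : ℝ} {n : ℕ} (c : ℂ) (f : Besov α n) : (c • f).fn = c • f.fn := rfl

lemma Besov.fn_zero {α : ℝ} {n : ℕ} : (0 : Besov α n).fn = 0 := rfl

lemma Besov.fn_injective {α : ℝ} {n : ℕ} : Function.Injective (Besov.fn : Besov α n → ℂ → ℂ) :=
  fun _ _ h => Subtype.ext h

lemma Besov.diff {α : ℝ} {n : ℕ} (f : Besov α n) : DifferentiableOn ℂ f.fn (ball 0 1) := f.2.1.1

lemma Besov.zero_off {α : ℝ} {n : ℕ} (f : Besov α n) {z : ℂ} (hz : z ∉ ball (0 : ℂ) 1) :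
    f.fn z = 0 := f.2.1.2 z hz

lemma Besov.integrableOn {α : ℝ} {n : ℕ} (f : Besov α n) :
    IntegrableOn (besovDensity α n f.fn) (ball 0 1) volume := f.2.2

lemma besovDensity_nonneg {α : ℝ} {n : ℕ} (f : ℂ → ℂ) {z : ℂ} (hz : z ∈ ball (0 : ℂ) 1) :
    0 ≤ besovDensity α n f z := by
  have hz1 : 0 ≤ 1 - ‖z‖ := by
    have := mem_ball_zero_iff.mp hz
    linarith
  exact mul_nonneg (norm_nonneg _) (Real.rpow_nonneg hz1 _)

lemma hasSum_taylor {f : ℂ → ℂ} (hf : DifferentiableOn ℂ f (ball 0 1)) {z : ℂ}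
    (hz : z ∈ ball (0 : ℂ) 1) : HasSum (fun k : ℕ => coeff f k * z ^ k) (f z) := by
  have h := Complex.hasSum_taylorSeries_on_ball hf hz
  refine h.congr_fun fun k => ?_
  simp only [coeff, sub_zero, smul_eq_mul]
  ring

/-- An analytic function on the disc whose `n`-th derivative vanishes a.e. and whose
first `n` Taylor coefficients vanish is zero. -/
lemma eq_zero_of_seminorms {f : ℂ → ℂ} (hf : f ∈ discAnalytic) (n : ℕ) (α : ℝ)
    (h1 : ∫ z in ball (0 : ℂ) 1, besovDensity α n f z = 0)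
    (hi : IntegrableOn (besovDensity α n f) (ball 0 1) volume)
    (h2 : ∀ j < n, iteratedDeriv j f 0 = 0) : f = 0 := by
  have h3 : ∀ z ∈ ball (0 : ℂ) 1, iteratedDeriv n f z = 0 := by
    have hae : besovDensity α n f =ᵐ[volume.restrict (ball 0 1)] 0 := by
      rw [setIntegral_eq_zero_iff_of_nonneg_ae] at h1
      · exact h1
      · filter_upwards [ae_restrict_mem measurableSet_ball] with z hz
        exact besovDensity_nonneg f hz
      · exact hi
    have hae2 : iteratedDeriv n f =ᵐ[volume.restrict (ball 0 1)] fun _ => (0 : ℂ) := by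
      filter_upwards [hae, ae_restrict_mem measurableSet_ball] with z hz hzb
      have hz1 : 0 < 1 - ‖z‖ := by
        have := mem_ball_zero_iff.mp hzb
        linarith
      have hw : 0 < (1 - ‖z‖) ^ ((n : ℝ) - α - 1) := Real.rpow_pos_of_pos hz1 _
      simp only [besovDensity, Pi.zero_apply, mul_eq_zero, norm_eq_zero] at hz
      rcases hz with hz | hz
      · exact hz
      · exact absurd hz hw.ne'
    have hcont : ContinuousOn (iteratedDeriv n f) (ball 0 1) :=
      (differentiableOn_iteratedDeriv hf.1 n).continuousOn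
    have := Measure.eqOn_open_of_ae_eq hae2 isOpen_ball hcont continuousOn_const
    intro z hz
    exact this hz
  have h4 : ∀ k, iteratedDeriv k f 0 = 0 := by
    intro k
    rcases lt_or_ge k n with hk | hk
    · exact h2 k hk
    · obtain ⟨m, rfl⟩ := Nat.exists_eq_add_of_le hk
      have hz0 : (0 : ℂ) ∈ ball (0 : ℂ) 1 := by simp
      have : iteratedDeriv n f =ᶠ[nhds 0] fun _ => (0 : ℂ) := by
        filter_upwards [isOpen_ball.mem_nhds hz0] with z hz using h3 z hz
      have h5 : iteratedDeriv (n + m) f 0 = iteratedDeriv m (iteratedDeriv n f) 0 := by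
        rw [iteratedDeriv_eq_iterate, iteratedDeriv_eq_iterate, iteratedDeriv_eq_iterate,
          ← Function.iterate_add_apply, add_comm]
      rw [h5, (this.iteratedDeriv_eq m), iteratedDeriv_const]
      split <;> rfl
  funext z
  by_cases hz : z ∈ ball (0 : ℂ) 1
  · have h := hasSum_taylor hf.1 hz
    have h6 : (fun k : ℕ => coeff f k * z ^ k) = fun _ => 0 := by
      funext k
      simp [coeff, h4 k]
    rw [h6] at h
    exact h.unique hasSum_zero
  · exact hf.2 z hz

lemma Besov.core (α : ℝ) (n : ℕ) : NormedSpace.Core ℂ (Besov α n) where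
  norm_nonneg f := by
    rw [Besov.norm_def]
    refine add_nonneg ?_ (Finset.sum_nonneg fun _ _ => norm_nonneg _)
    exact setIntegral_nonneg measurableSet_ball fun z hz => besovDensity_nonneg _ hz
  norm_smul c f := by
    rw [Besov.norm_def, Besov.norm_def, mul_add, Finset.mul_sum, ← integral_const_mul]
    congr 1
    · refine setIntegral_congr_fun measurableSet_ball fun z hz => ?_
      simp only [besovDensity, Besov.fn_smul]
      rw [iteratedDeriv_smul_on f.diff c n hz, norm_mul, mul_assoc]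
    · refine Finset.sum_congr rfl fun j _ => ?_
      rw [Besov.fn_smul, iteratedDeriv_smul_on f.diff c j (by simp), norm_mul]
  norm_triangle f g := by
    rw [Besov.norm_def, Besov.norm_def, Besov.norm_def]
    have h1 : (∫ z in ball (0 : ℂ) 1, besovDensity α n (f + g).fn z)
        ≤ (∫ z in ball (0 : ℂ) 1, besovDensity α n f.fn z)
          + ∫ z in ball (0 : ℂ) 1, besovDensity α n g.fn z := by
      rw [← integral_add f.integrableOn g.integrableOn]
      refine setIntegral_mono_on (f + g).integrableOn (f.integrableOn.add g.integrableOn)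
        measurableSet_ball fun z hz => ?_
      have hz1 : 0 ≤ 1 - ‖z‖ := by
        have := mem_ball_zero_iff.mp hz
        linarith
      have hw : 0 ≤ (1 - ‖z‖) ^ ((n : ℝ) - α - 1) := Real.rpow_nonneg hz1 _
      simp only [besovDensity, Besov.fn_add]
      rw [iteratedDeriv_add_on f.diff g.diff n hz, ← add_mul]
      exact mul_le_mul_of_nonneg_right (norm_add_le _ _) hw
    have h2 : ∑ j ∈ Finset.range n, ‖iteratedDeriv j (f + g).fn 0‖
        ≤ (∑ j ∈ Finset.range n, ‖iteratedDeriv j f.fn 0‖)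
          + ∑ j ∈ Finset.range n, ‖iteratedDeriv j g.fn 0‖ := by
      rw [← Finset.sum_add_distrib]
      refine Finset.sum_le_sum fun j _ => ?_
      rw [Besov.fn_add, iteratedDeriv_add_on f.diff g.diff j (by simp)]
      exact norm_add_le _ _
    linarith
  norm_eq_zero_iff f := by
    constructor
    · intro h
      rw [Besov.norm_def] at h
      have h1 : 0 ≤ ∫ z in ball (0 : ℂ) 1, besovDensity α n f.fn z :=
        setIntegral_nonneg measurableSet_ball fun z hz => besovDensity_nonneg _ hz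
      have h2 : 0 ≤ ∑ j ∈ Finset.range n, ‖iteratedDeriv j f.fn 0‖ :=
        Finset.sum_nonneg fun _ _ => norm_nonneg _
      have h3 : ∫ z in ball (0 : ℂ) 1, besovDensity α n f.fn z = 0 := by linarith
      have h4 : ∑ j ∈ Finset.range n, ‖iteratedDeriv j f.fn 0‖ = 0 := by linarith
      rw [Finset.sum_eq_zero_iff_of_nonneg fun _ _ => norm_nonneg _] at h4
      apply Besov.fn_injective
      rw [Besov.fn_zero]
      exact eq_zero_of_seminorms f.2.1 n α h3 f.integrableOn
        fun j hj => by simpa using h4 j (Finset.mem_range.mpr hj)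
    · rintro rfl
      have hc : ∀ (j : ℕ) (z : ℂ), iteratedDeriv j (0 : ℂ → ℂ) z = 0 := by
        intro j z
        have h0 : (0 : ℂ → ℂ) = fun _ => (0 : ℂ) := rfl
        rw [h0, iteratedDeriv_const]
        split <;> rfl
      simp [Besov.norm_def, besovDensity, Besov.fn_zero, hc]

instance (α : ℝ) (n : ℕ) : NormedAddCommGroup (Besov α n) :=
  NormedAddCommGroup.ofCore (Besov.core α n)

instance (α : ℝ) (n : ℕ) : NormedSpace ℂ (Besov α n) :=
  NormedSpace.ofCore (Besov.core α n)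

/-- The space `B_∞^{-α}` as a vector space: the functions `f` analytic in the disc with
`|f(z)| ≤ C (1 - |z|)^{-α}` for all `|z| < 1` and some constant `C`. -/
def growthSubmodule (α : ℝ) : Submodule ℂ (ℂ → ℂ) where
  carrier := {f | f ∈ discAnalytic ∧
    ∃ C : ℝ, 0 ≤ C ∧ ∀ z ∈ ball (0 : ℂ) 1, ‖f z‖ ≤ C * (1 - ‖z‖) ^ (-α)}
  add_mem' := by
    rintro f g ⟨hf, C, hC0, hC⟩ ⟨hg, D, hD0, hD⟩
    refine ⟨discAnalytic.add_mem hf hg, C + D, add_nonneg hC0 hD0, fun z hz => ?_⟩
    rw [add_mul]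
    exact (norm_add_le _ _).trans (add_le_add (hC z hz) (hD z hz))
  zero_mem' := ⟨discAnalytic.zero_mem, 0, le_rfl, fun z _ => by simp⟩
  smul_mem' := by
    rintro c f ⟨hf, C, hC0, hC⟩
    refine ⟨discAnalytic.smul_mem c hf, ‖c‖ * C, by positivity, fun z hz => ?_⟩
    simp only [Pi.smul_apply, smul_eq_mul, norm_mul, mul_assoc]
    exact mul_le_mul_of_nonneg_left (hC z hz) (norm_nonneg c)

/-- The space `B_∞^{-α}`. -/
def Growth (α : ℝ) : Type := growthSubmodule α

instance (α : ℝ) : AddCommGroup (Growth α) := inferInstanceAs (AddCommGroup (growthSubmodule α))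

instance (α : ℝ) : Module ℂ (Growth α) := inferInstanceAs (Module ℂ (growthSubmodule α))

/-- The underlying function of an element of `B_∞^{-α}`. -/
def Growth.fn {α : ℝ} (f : Growth α) : ℂ → ℂ := ((show growthSubmodule α from f) : ℂ → ℂ)

/-- The admissible constants `C ≥ 0` with `|f(z)| ≤ C (1 - |z|)^{-α}` on the disc. -/
def growthConstants (α : ℝ) (f : ℂ → ℂ) : Set ℝ :=
  {C | 0 ≤ C ∧ ∀ z ∈ ball (0 : ℂ) 1, ‖f z‖ ≤ C * (1 - ‖z‖) ^ (-α)}

/-- The norm of `B_∞^{-α}` is the best constant `C` with `|f(z)| ≤ C (1 - |z|)^{-α}`. -/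
instance (α : ℝ) : Norm (Growth α) := ⟨fun f => sInf (growthConstants α f.fn)⟩

lemma Growth.norm_def {α : ℝ} (f : Growth α) : ‖f‖ = sInf (growthConstants α f.fn) := rfl

lemma Growth.fn_add {α : ℝ} (f g : Growth α) : (f + g).fn = f.fn + g.fn := rfl

lemma Growth.fn_smul {α : ℝ} (c : ℂ) (f : Growth α) : (c • f).fn = c • f.fn := rfl

lemma Growth.fn_zero {α : ℝ} : (0 : Growth α).fn = 0 := rfl

lemma Growth.fn_injective {α : ℝ} : Function.Injective (Growth.fn : Growth α → ℂ → ℂ) :=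
  fun _ _ h => Subtype.ext h

lemma Growth.diff {α : ℝ} (f : Growth α) : DifferentiableOn ℂ f.fn (ball 0 1) := f.2.1.1

lemma Growth.zero_off {α : ℝ} (f : Growth α) {z : ℂ} (hz : z ∉ ball (0 : ℂ) 1) :
    f.fn z = 0 := f.2.1.2 z hz

lemma growthConstants_bddBelow {α : ℝ} (f : ℂ → ℂ) : BddBelow (growthConstants α f) :=
  ⟨0, fun _ hC => hC.1⟩

lemma Growth.constants_nonempty {α : ℝ} (f : Growth α) : (growthConstants α f.fn).Nonempty := by
  obtain ⟨C, hC0, hC⟩ := f.2.2
  exact ⟨C, hC0, hC⟩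

lemma Growth.norm_nonneg' {α : ℝ} (f : Growth α) : 0 ≤ ‖f‖ :=
  le_csInf f.constants_nonempty fun _ hC => hC.1

lemma one_sub_norm_pos {z : ℂ} (hz : z ∈ ball (0 : ℂ) 1) : 0 < 1 - ‖z‖ := by
  have := mem_ball_zero_iff.mp hz
  linarith

lemma Growth.le_norm {α : ℝ} (f : Growth α) {z : ℂ} (hz : z ∈ ball (0 : ℂ) 1) :
    ‖f.fn z‖ ≤ ‖f‖ * (1 - ‖z‖) ^ (-α) := by
  have hw : 0 < (1 - ‖z‖) ^ (-α) := Real.rpow_pos_of_pos (one_sub_norm_pos hz) _
  rw [← div_le_iff₀ hw]
  refine le_csInf f.constants_nonempty fun C hC => ?_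
  rw [div_le_iff₀ hw]
  exact hC.2 z hz

lemma Growth.norm_le_of {α : ℝ} (f : Growth α) {C : ℝ} (hC0 : 0 ≤ C)
    (hC : ∀ z ∈ ball (0 : ℂ) 1, ‖f.fn z‖ ≤ C * (1 - ‖z‖) ^ (-α)) : ‖f‖ ≤ C :=
  csInf_le (growthConstants_bddBelow _) ⟨hC0, hC⟩

lemma Growth.core (α : ℝ) : NormedSpace.Core ℂ (Growth α) where
  norm_nonneg f := f.norm_nonneg'
  norm_smul c f := by
    apply le_antisymm
    · refine Growth.norm_le_of _ (mul_nonneg (norm_nonneg _) f.norm_nonneg') fun z hz => ?_
      rw [Growth.fn_smul, Pi.smul_apply, smul_eq_mul, norm_mul, mul_assoc]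
      exact mul_le_mul_of_nonneg_left (f.le_norm hz) (norm_nonneg c)
    · rcases eq_or_ne c 0 with rfl | hc
      · rw [norm_zero, zero_mul]
        exact Growth.norm_nonneg' _
      · have hc' : 0 < ‖c‖ := norm_pos_iff.mpr hc
        rw [← le_div_iff₀' hc']
        refine Growth.norm_le_of _ (div_nonneg (Growth.norm_nonneg' _) hc'.le) fun z hz => ?_
        have h := (c • f).le_norm hz
        rw [Growth.fn_smul, Pi.smul_apply, smul_eq_mul, norm_mul] at h
        rw [div_mul_eq_mul_div, le_div_iff₀' hc']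
        exact h
  norm_triangle f g := by
    refine Growth.norm_le_of _ (add_nonneg f.norm_nonneg' g.norm_nonneg') fun z hz => ?_
    rw [Growth.fn_add, Pi.add_apply, add_mul]
    exact (norm_add_le _ _).trans (add_le_add (f.le_norm hz) (g.le_norm hz))
  norm_eq_zero_iff f := by
    constructor
    · intro h
      apply Growth.fn_injective
      funext z
      by_cases hz : z ∈ ball (0 : ℂ) 1
      · have h1 := f.le_norm hz
        rw [h, zero_mul] at h1
        exact norm_le_zero_iff.mp h1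
      · exact f.zero_off hz
    · rintro rfl
      refine le_antisymm (Growth.norm_le_of _ le_rfl fun z _ => ?_) (Growth.norm_nonneg' _)
      simp [Growth.fn_zero]

instance (α : ℝ) : NormedAddCommGroup (Growth α) := NormedAddCommGroup.ofCore (Growth.core α)

instance (α : ℝ) : NormedSpace ℂ (Growth α) := NormedSpace.ofCore (Growth.core α)

/-- A bounded operator `u : X → Y` between normed spaces is 2-absolutely summing if for some
constant `C` all finite families `(x_i)` in `X` satisfy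
`∑ ‖u x_i‖^2 ≤ C^2 sup_{‖ξ‖ ≤ 1} ∑ |ξ(x_i)|^2`, the supremum being over the dual unit ball. -/
def IsTwoSumming {X Y : Type} [NormedAddCommGroup X] [NormedSpace ℂ X] [NormedAddCommGroup Y]
    [NormedSpace ℂ Y] (u : X →L[ℂ] Y) : Prop :=
  ∃ C : ℝ, ∀ (m : ℕ) (x : Fin m → X),
    ∑ i, ‖u (x i)‖ ^ 2 ≤ C ^ 2 * ⨆ ξ : {ξ : X →L[ℂ] ℂ // ‖ξ‖ ≤ 1}, ∑ i, ‖ξ.1 (x i)‖ ^ 2

/-- `H` is the Hankel-type operator with symbol `φ`: a bounded operator `B_1^α → B_∞^{-α}` which
on every polynomial `x` is given by the coefficient formula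
`(Hx)^(j) = ∑_k φ^(j+k) x^(k)`. -/
def IsHankel {α : ℝ} {n : ℕ} (φ : Growth α) (H : Besov α n →L[ℂ] Growth α) : Prop :=
  ∀ (p : Polynomial ℂ) (x : Besov α n), (∀ z ∈ ball (0 : ℂ) 1, x.fn z = p.eval z) →
    ∀ j : ℕ, coeff (H x).fn j = ∑ k ∈ p.support, coeff φ.fn (j + k) * p.coeff k

end Pool.Agent.Lib.MP_d3a69a_an
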