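import Mathlib

open MeasureTheory Metric Set Real
open scoped ENNReal

noncomputable section

namespace Pool.Agent.Lib.MP_d3a69a_an

lemma polar_symm_eq (p : ℝ × ℝ) :
    Complex.polarCoord.symm p = p.1 * Complex.exp (p.2 * Complex.I) := by
  rw [Complex.polarCoord_symm_apply, Complex.exp_mul_I]
  push_cast
  ring

lemma restrict_polar_target :
    (volume : Measure (ℝ × ℝ)).restrict polarCoord.target
      = (volume.restrict (Ioi (0 : ℝ))).prod (volume.restrict (Ioo (-π) π)) := by
  rw [polarCoord_target, Measure.volume_eq_prod, Measure.prod_restrict]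

lemma measurable_polar_comp {E : Type*} [MeasurableSpace E] {g : ℂ → E} (hg : Measurable g) :
    Measurable fun p : ℝ × ℝ => g (p.1 * Complex.exp (p.2 * Complex.I)) := by
  refine hg.comp ?_
  fun_prop

lemma lintegral_polar {g : ℂ → ℝ≥0∞} (hg : Measurable g) :
    ∫⁻ z, g z = ∫⁻ r in Ioi (0 : ℝ), ∫⁻ θ in Ioo (-π) π,
      ENNReal.ofReal r * g (r * Complex.exp (θ * Complex.I)) := by
  rw [← Complex.lintegral_comp_polarCoord_symm, restrict_polar_target, lintegral_prod]
  · simp only [polar_symm_eq, smul_eq_mul]
  · refine Measurable.aemeasurable ?_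
    simp only [polar_symm_eq, smul_eq_mul]
    exact (ENNReal.measurable_ofReal.comp measurable_fst).mul (measurable_polar_comp hg)

lemma integral_polar {g : ℂ → ℂ} (hg : Measurable g) (hi : Integrable g) :
    ∫ z, g z = ∫ r in Ioi (0 : ℝ), ∫ θ in Ioo (-π) π,
      (r : ℂ) * g (r * Complex.exp (θ * Complex.I)) := by
  rw [← Complex.integral_comp_polarCoord_symm, restrict_polar_target, integral_prod]
  · simp only [polar_symm_eq, Complex.real_smul]
  · simp only [polar_symm_eq, Complex.real_smul]
    rw [← restrict_polar_target]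
    refine ⟨?_, ?_⟩
    · exact ((Complex.measurable_ofReal.comp measurable_fst).mul
        (measurable_polar_comp hg)).aestronglyMeasurable
    · have h := Complex.lintegral_comp_polarCoord_symm (fun z => ‖g z‖ₑ)
      rw [hasFiniteIntegral_iff_enorm]
      calc ∫⁻ (p : ℝ × ℝ) in polarCoord.target,
            ‖(p.1 : ℂ) * g (p.1 * Complex.exp (p.2 * Complex.I))‖ₑ
          = ∫⁻ (p : ℝ × ℝ) in polarCoord.target,
            ENNReal.ofReal p.1 • ‖g (Complex.polarCoord.symm p)‖ₑ := by
            refine setLIntegral_congr_fun polarCoord.open_target.measurableSet fun p hp => ?_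
            have hp1 : 0 < p.1 := hp.1
            simp only [polar_symm_eq, smul_eq_mul, enorm_mul]
            congr 1
            rw [← ofReal_norm, Complex.norm_real, Real.norm_of_nonneg hp1.le]
        _ = ∫⁻ z, ‖g z‖ₑ := h
        _ < ⊤ := hi.hasFiniteIntegral

/-- Integration over the unit disc of a nonnegative function in polar coordinates. -/
lemma lintegral_ball_polar {g : ℂ → ℝ≥0∞} (hg : Measurable g) :
    ∫⁻ z in ball (0 : ℂ) 1, g z = ∫⁻ r in Ioo (0 : ℝ) 1, ∫⁻ θ in Ioo (-π) π,
      ENNReal.ofReal r * g (r * Complex.exp (θ * Complex.I)) := by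
  rw [← lintegral_indicator measurableSet_ball, lintegral_polar (hg.indicator measurableSet_ball)]
  have : (Ioo (0 : ℝ) 1) = Ioi 0 ∩ Iio 1 := rfl
  rw [this, inter_comm, ← Measure.restrict_restrict measurableSet_Iio,
    ← lintegral_indicator (s := Iio (1 : ℝ)) measurableSet_Iio]
  refine setLIntegral_congr_fun measurableSet_Ioi fun r hr => ?_
  have hr0 : 0 < r := hr
  have hn : ∀ θ : ℝ, ‖(r : ℂ) * Complex.exp (θ * Complex.I)‖ = r := by
    intro θ
    rw [norm_mul, Complex.norm_exp_ofReal_mul_I, mul_one, Complex.norm_real,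
      Real.norm_of_nonneg hr0.le]
  by_cases h1 : r < 1
  · rw [indicator_of_mem (by exact h1)]
    refine lintegral_congr fun θ => ?_
    rw [indicator_of_mem]
    rw [mem_ball_zero_iff, hn]
    exact h1
  · rw [indicator_of_notMem (by exact h1)]
    have : ∀ θ : ℝ, (ball (0 : ℂ) 1).indicator g (r * Complex.exp (θ * Complex.I)) = 0 := by
      intro θ
      rw [indicator_of_notMem]
      rw [mem_ball_zero_iff, hn]
      exact h1
    simp [this]

/-- Integration over the unit disc in polar coordinates. -/
lemma integral_ball_polar {g : ℂ → ℂ} (hg : ContinuousOn g (ball 0 1))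
    (hi : IntegrableOn g (ball 0 1)) :
    ∫ z in ball (0 : ℂ) 1, g z = ∫ r in Ioo (0 : ℝ) 1, ∫ θ in Ioo (-π) π,
      (r : ℂ) * g (r * Complex.exp (θ * Complex.I)) := by
  have hm : Measurable ((ball (0 : ℂ) 1).indicator g) := by
    classical
    have := hg.measurable_piecewise (continuousOn_const (c := (0 : ℂ))) (s := ball (0:ℂ) 1)
      measurableSet_ball
    have h2 : (ball (0 : ℂ) 1).piecewise g (fun _ => (0 : ℂ)) = (ball (0 : ℂ) 1).indicator g := by
      rw [← Set.piecewise_eq_indicator]; rfl
    rwa [h2] at this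
  have hint : Integrable ((ball (0 : ℂ) 1).indicator g) :=
    (integrable_indicator_iff measurableSet_ball).mpr hi
  rw [← integral_indicator measurableSet_ball, integral_polar hm hint]
  have : (Ioo (0 : ℝ) 1) = Ioi 0 ∩ Iio 1 := rfl
  rw [this, inter_comm, ← Measure.restrict_restrict measurableSet_Iio,
    ← integral_indicator (s := Iio (1 : ℝ)) measurableSet_Iio]
  refine setIntegral_congr_fun measurableSet_Ioi fun r hr => ?_
  have hr0 : 0 < r := hr
  have hn : ∀ θ : ℝ, ‖(r : ℂ) * Complex.exp (θ * Complex.I)‖ = r := by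
    intro θ
    rw [norm_mul, Complex.norm_exp_ofReal_mul_I, mul_one, Complex.norm_real,
      Real.norm_of_nonneg hr0.le]
  by_cases h1 : r < 1
  · rw [indicator_of_mem (by exact h1)]
    refine integral_congr_ae (Filter.Eventually.of_forall fun θ => ?_)
    simp only
    rw [indicator_of_mem]
    rw [mem_ball_zero_iff, hn]
    exact h1
  · rw [indicator_of_notMem (by exact h1)]
    have : ∀ θ : ℝ, (ball (0 : ℂ) 1).indicator g (r * Complex.exp (θ * Complex.I)) = 0 := by
      intro θ
      rw [indicator_of_notMem]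
      rw [mem_ball_zero_iff, hn]
      exact h1
    simp [this]

end Pool.Agent.Lib.MP_d3a69a_an
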