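import Mathlib
import Pool.Agent.Lib.MP_d3a69a_an.Defs
import Pool.Agent.Lib.MP_d3a69a_an.Polar

open MeasureTheory Metric Set Real
open scoped ENNReal

noncomputable section

namespace Pool.Agent.Lib.MP_d3a69a_an

lemma integral_exp_int (m : ℤ) :
    ∫ θ in Ioo (-π) π, Complex.exp ((m : ℂ) * θ * Complex.I)
      = if m = 0 then 2 * (π : ℂ) else 0 := by
  rw [← integral_Ioc_eq_integral_Ioo, ← intervalIntegral.integral_of_le (by linarith [pi_pos])]
  split_ifs with hm
  · subst hm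
    simp
    ring
  · have hc : (m : ℂ) * Complex.I ≠ 0 :=
      mul_ne_zero (by exact_mod_cast hm) Complex.I_ne_zero
    have h1 : ∀ θ : ℝ, Complex.exp ((m : ℂ) * θ * Complex.I)
        = Complex.exp ((m : ℂ) * Complex.I * θ) := by
      intro θ; congr 1; ring
    simp_rw [h1]
    rw [integral_exp_mul_complex hc]
    have h2 : Complex.exp ((m : ℂ) * Complex.I * (π : ℝ))
        = Complex.exp ((m : ℂ) * Complex.I * ((-π : ℝ) : ℂ)) := by
      rw [Complex.exp_eq_exp_iff_exists_int]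
      refine ⟨m, ?_⟩
      push_cast
      ring
    rw [h2, sub_self, zero_div]

lemma circle_coeff {a : ℕ → ℂ} {g : ℂ → ℂ} {r : ℝ} (hr0 : 0 ≤ r)
    (hs : Summable fun k => ‖a k‖ * r ^ k)
    (h : ∀ z : ℂ, ‖z‖ = r → HasSum (fun k => a k * z ^ k) (g z)) (j : ℕ) :
    ∫ θ in Ioo (-π) π, g (r * Complex.exp (θ * Complex.I)) * Complex.exp (-(j * θ * Complex.I))
      = 2 * π * a j * r ^ j := by
  have hn : ∀ θ : ℝ, ‖(r : ℂ) * Complex.exp (θ * Complex.I)‖ = r := by
    intro θ
    rw [norm_mul, Complex.norm_exp_ofReal_mul_I, mul_one, Complex.norm_real,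
      Real.norm_of_nonneg hr0]
  have hn2 : ∀ θ : ℝ, ‖Complex.exp (-(j * θ * Complex.I))‖ = 1 := by
    intro θ
    rw [Complex.norm_exp]
    simp
  have hsum := hasSum_integral_of_dominated_convergence
    (μ := volume.restrict (Ioo (-π) π))
    (F := fun (k : ℕ) (θ : ℝ) => a k * (r * Complex.exp (θ * Complex.I)) ^ k
      * Complex.exp (-(j * θ * Complex.I)))
    (f := fun θ : ℝ => g (r * Complex.exp (θ * Complex.I)) * Complex.exp (-(j * θ * Complex.I)))
    (fun k _ => ‖a k‖ * r ^ k)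
    (fun k => by
      refine Continuous.aestronglyMeasurable ?_
      fun_prop)
    (fun k => Filter.Eventually.of_forall fun θ => by
      rw [norm_mul, norm_mul, norm_pow, hn, hn2, mul_one])
    (Filter.Eventually.of_forall fun θ => hs)
    (integrable_const _)
    (Filter.Eventually.of_forall fun θ => (h _ (hn θ)).mul_right _)
  have hterm : ∀ k : ℕ, ∫ θ in Ioo (-π) π, a k * (r * Complex.exp (θ * Complex.I)) ^ k
      * Complex.exp (-(j * θ * Complex.I)) = if k = j then 2 * π * a j * r ^ j else 0 := by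
    intro k
    have h1 : ∀ θ : ℝ, a k * (r * Complex.exp (θ * Complex.I)) ^ k
      * Complex.exp (-(j * θ * Complex.I))
        = (a k * r ^ k) * Complex.exp ((((k : ℤ) - (j : ℤ) : ℤ) : ℂ) * θ * Complex.I) := by
      intro θ
      rw [mul_pow, ← Complex.exp_nat_mul, ← mul_assoc, mul_assoc (a k * r ^ k), ← Complex.exp_add]
      congr 2
      push_cast
      ring
    simp_rw [h1]
    rw [integral_const_mul, integral_exp_int]
    by_cases hkj : k = j
    · subst hkj
      simp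
      ring
    · have : (k : ℤ) - (j : ℤ) ≠ 0 := by omega
      simp [this, hkj]
  simp_rw [hterm] at hsum
  have h2 := hsum.unique (hasSum_ite_eq j (2 * π * a j * r ^ j : ℂ))
  exact h2

lemma summable_norm_coeff {f : ℂ → ℂ} (hf : DifferentiableOn ℂ f (ball 0 1)) {r : ℝ}
    (hr0 : 0 ≤ r) (hr1 : r < 1) : Summable fun k => ‖coeff f k‖ * r ^ k := by
  obtain ⟨s, hrs, hs1⟩ := exists_between hr1
  have hs0 : 0 < s := lt_of_le_of_lt hr0 hrs
  have h1 := (hasSum_taylor hf (z := (s : ℂ)) (by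
    rw [mem_ball_zero_iff, Complex.norm_real, Real.norm_of_nonneg hs0.le]; exact hs1)).summable
  obtain ⟨C, hC⟩ := h1.tendsto_atTop_zero.norm.bddAbove_range
  refine Summable.of_norm_bounded (g := fun k => C * (r / s) ^ k)
    ((summable_geometric_of_lt_one (by positivity) ((div_lt_one hs0).mpr hrs)).mul_left C) ?_
  intro k
  have h2 : ‖coeff f k * (s : ℂ) ^ k‖ ≤ C := hC ⟨k, rfl⟩
  rw [norm_mul, norm_pow, Complex.norm_real, Real.norm_of_nonneg hs0.le] at h2
  rw [Real.norm_of_nonneg (by positivity)]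
  calc ‖coeff f k‖ * r ^ k = (‖coeff f k‖ * s ^ k) * (r / s) ^ k := by
        rw [div_pow]; field_simp
    _ ≤ C * (r / s) ^ k := by gcongr

lemma circle_coeff_of_diff {f : ℂ → ℂ} (hf : DifferentiableOn ℂ f (ball 0 1)) {r : ℝ}
    (hr0 : 0 ≤ r) (hr1 : r < 1) (j : ℕ) :
    ∫ θ in Ioo (-π) π, f (r * Complex.exp (θ * Complex.I)) * Complex.exp (-(j * θ * Complex.I))
      = 2 * π * coeff f j * r ^ j := by
  refine circle_coeff hr0 (summable_norm_coeff hf hr0 hr1) (fun z hz => ?_) j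
  exact hasSum_taylor hf (by rw [mem_ball_zero_iff, hz]; exact hr1)

/-- Uniqueness of Taylor coefficients. -/
lemma coeff_eq_of_hasSum {f : ℂ → ℂ} (hf : DifferentiableOn ℂ f (ball 0 1)) {a : ℕ → ℂ}
    (hs : Summable fun k => ‖a k‖ * (1 / 2 : ℝ) ^ k)
    (h : ∀ z : ℂ, ‖z‖ = 1 / 2 → HasSum (fun k => a k * z ^ k) (f z)) (j : ℕ) :
    coeff f j = a j := by
  have h1 := circle_coeff (r := 1 / 2) (by norm_num) hs h j
  have h2 := circle_coeff_of_diff hf (r := 1 / 2) (by norm_num) (by norm_num) j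
  rw [h1] at h2
  have hpi : (π : ℂ) ≠ 0 := by exact_mod_cast pi_ne_zero
  have h3 : ((1 / 2 : ℝ) : ℂ) ^ j ≠ 0 := pow_ne_zero _ (by norm_num)
  have h4 := mul_right_cancel₀ h3 h2
  have h5 : (2 * (π : ℂ)) ≠ 0 := mul_ne_zero two_ne_zero hpi
  exact (mul_left_cancel₀ h5 h4).symm

/-- The function on the disc with prescribed Taylor coefficients, extended by zero. -/
def ofCoeff (a : ℕ → ℂ) (z : ℂ) : ℂ := (ball (0 : ℂ) 1).indicator (fun z => ∑' k, a k * z ^ k) z

lemma ofCoeff_hasSum {a : ℕ → ℂ} (hs : ∀ r : ℝ, 0 ≤ r → r < 1 → Summable fun k => ‖a k‖ * r ^ k)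
    {z : ℂ} (hz : z ∈ ball (0 : ℂ) 1) : HasSum (fun k => a k * z ^ k) (ofCoeff a z) := by
  have h1 : Summable fun k => a k * z ^ k := by
    refine Summable.of_norm ?_
    simp only [norm_mul, norm_pow]
    exact hs ‖z‖ (norm_nonneg _) (mem_ball_zero_iff.mp hz)
  rw [ofCoeff, indicator_of_mem hz]
  exact h1.hasSum

lemma ofCoeff_mem {a : ℕ → ℂ} (hs : ∀ r : ℝ, 0 ≤ r → r < 1 → Summable fun k => ‖a k‖ * r ^ k) :
    ofCoeff a ∈ discAnalytic := by
  refine ⟨?_, fun z hz => indicator_of_notMem hz _⟩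
  have h1 : DifferentiableOn ℂ (fun z => ∑' k, a k * z ^ k) (ball 0 1) := by
    intro z hz
    have hz1 : ‖z‖ < 1 := mem_ball_zero_iff.mp hz
    obtain ⟨r, hzr, hr1⟩ := exists_between hz1
    have hr0 : 0 ≤ r := (norm_nonneg z).trans hzr.le
    have h2 : DifferentiableOn ℂ (fun z => ∑' k, a k * z ^ k) (ball 0 r) := by
      refine Complex.differentiableOn_tsum_of_summable_norm (hs r hr0 hr1) (fun k => ?_)
        isOpen_ball (fun k w hw => ?_)
      · exact ((differentiable_id.pow k).const_mul (a k)).differentiableOn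
      · rw [norm_mul, norm_pow]
        have : ‖w‖ < r := mem_ball_zero_iff.mp hw
        gcongr
    exact (h2.differentiableAt (isOpen_ball.mem_nhds
      (mem_ball_zero_iff.mpr hzr))).differentiableWithinAt
  exact h1.congr fun z hz => indicator_of_mem hz _

lemma coeff_ofCoeff {a : ℕ → ℂ}
    (hs : ∀ r : ℝ, 0 ≤ r → r < 1 → Summable fun k => ‖a k‖ * r ^ k) (j : ℕ) :
    coeff (ofCoeff a) j = a j := by
  refine coeff_eq_of_hasSum (ofCoeff_mem hs).1 (hs (1 / 2) (by norm_num) (by norm_num))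
    (fun z hz => ofCoeff_hasSum hs ?_) j
  rw [mem_ball_zero_iff, hz]
  norm_num

/-- Two disc functions with the same Taylor coefficients are equal. -/
lemma eq_of_coeff_eq {f g : ℂ → ℂ} (hf : f ∈ discAnalytic) (hg : g ∈ discAnalytic)
    (h : ∀ k, coeff f k = coeff g k) : f = g := by
  funext z
  by_cases hz : z ∈ ball (0 : ℂ) 1
  · have h1 := hasSum_taylor hf.1 hz
    have h2 := hasSum_taylor hg.1 hz
    simp_rw [h] at h1
    exact h1.unique h2
  · rw [hf.2 z hz, hg.2 z hz]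

lemma coeff_iteratedDeriv (f : ℂ → ℂ) (n m : ℕ) :
    coeff (iteratedDeriv n f) m
      = ((m + n).factorial : ℂ) / (m.factorial : ℂ) * coeff f (m + n) := by
  have h5 : iteratedDeriv m (iteratedDeriv n f) 0 = iteratedDeriv (m + n) f 0 := by
    rw [iteratedDeriv_eq_iterate, iteratedDeriv_eq_iterate, iteratedDeriv_eq_iterate,
      ← Function.iterate_add_apply]
  rw [coeff, coeff, h5]
  have h1 : ((m + n).factorial : ℂ) ≠ 0 := by exact_mod_cast (Nat.factorial_ne_zero _)
  have h2 : (m.factorial : ℂ) ≠ 0 := by exact_mod_cast (Nat.factorial_ne_zero _)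
  field_simp

end Pool.Agent.Lib.MP_d3a69a_an
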