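import Mathlib
import Pool.Agent.Lib.MP_d3a69a_an.Circle

open MeasureTheory Metric Set Real
open scoped ENNReal ComplexConjugate

noncomputable section

namespace Pool.Agent.Lib.MP_d3a69a_an

lemma radial_beta (j N : ℕ) :
    ∫ r in Ioo (0 : ℝ) 1, r ^ (2 * j + 1) * (1 - r ^ 2) ^ N
      = (j.factorial : ℝ) * N.factorial / (2 * (j + N + 1).factorial) := by
  have hI : ∀ j N : ℕ, IntegrableOn (fun r : ℝ => r ^ (2 * j + 1) * (1 - r ^ 2) ^ N)
      (Ioo (0 : ℝ) 1) := by
    intro j N
    have : ContinuousOn (fun r : ℝ => r ^ (2 * j + 1) * (1 - r ^ 2) ^ N) (Icc 0 1) := by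
      fun_prop
    exact this.integrableOn_Icc.mono_set Ioo_subset_Icc_self
  induction N generalizing j with
  | zero =>
    rw [← integral_Ioc_eq_integral_Ioo, ← intervalIntegral.integral_of_le zero_le_one]
    simp only [pow_zero, mul_one, integral_pow, Nat.factorial_zero, Nat.cast_one, add_zero,
      one_pow, Nat.factorial_succ]
    have : (j.factorial : ℝ) ≠ 0 := by exact_mod_cast (Nat.factorial_ne_zero _)
    push_cast
    field_simp
    ring
  | succ N ih =>
    have h1 : ∀ r : ℝ, r ^ (2 * j + 1) * (1 - r ^ 2) ^ (N + 1)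
        = r ^ (2 * j + 1) * (1 - r ^ 2) ^ N - r ^ (2 * (j + 1) + 1) * (1 - r ^ 2) ^ N := by
      intro r; ring
    simp_rw [h1]
    rw [integral_sub (hI j N) (hI (j + 1) N), ih j, ih (j + 1)]
    have h2 : (j + 1 + N + 1).factorial = (j + N + 2) * (j + N + 1).factorial := by
      rw [show j + 1 + N + 1 = (j + N + 1) + 1 by ring, Nat.factorial_succ]
    have h3 : (j + (N + 1) + 1).factorial = (j + N + 2) * (j + N + 1).factorial := by
      rw [show j + (N + 1) + 1 = (j + N + 1) + 1 by ring, Nat.factorial_succ]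
    rw [h2, h3, Nat.factorial_succ j, Nat.factorial_succ N]
    have h4 : ((j + N + 1).factorial : ℝ) ≠ 0 := by exact_mod_cast (Nat.factorial_ne_zero _)
    have h5 : (j : ℝ) + N + 2 ≠ 0 := by positivity
    push_cast
    field_simp
    ring

lemma integral_pairing {ψ : ℂ → ℂ} (hψ : DifferentiableOn ℂ ψ (ball 0 1)) (j N : ℕ)
    (hi : IntegrableOn (fun z => ψ z * (conj z) ^ j * (((1 - ‖z‖ ^ 2) ^ N : ℝ) : ℂ))
      (ball 0 1)) :
    ∫ z in ball (0 : ℂ) 1, ψ z * (conj z) ^ j * (((1 - ‖z‖ ^ 2) ^ N : ℝ) : ℂ)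
      = π * coeff ψ j * ((j.factorial : ℂ) * N.factorial / (j + N + 1).factorial) := by
  have hc : ContinuousOn (fun z => ψ z * (conj z) ^ j * (((1 - ‖z‖ ^ 2) ^ N : ℝ) : ℂ))
      (ball 0 1) := by
    refine (hψ.continuousOn.mul ?_).mul ?_
    · exact (Complex.continuous_conj.pow j).continuousOn
    · refine Continuous.continuousOn ?_
      fun_prop
  rw [integral_ball_polar hc hi]
  have hinner : ∀ r ∈ Ioo (0 : ℝ) 1, (∫ θ in Ioo (-π) π,
      (r : ℂ) * (ψ (r * Complex.exp (θ * Complex.I))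
        * (conj (r * Complex.exp (θ * Complex.I))) ^ j
        * (((1 - ‖(r : ℂ) * Complex.exp (θ * Complex.I)‖ ^ 2) ^ N : ℝ) : ℂ)))
      = (2 * π * coeff ψ j) * ((r ^ (2 * j + 1) * (1 - r ^ 2) ^ N : ℝ) : ℂ) := by
    intro r hr
    have h1 : ∀ θ : ℝ, (r : ℂ) * (ψ (r * Complex.exp (θ * Complex.I))
        * (conj (r * Complex.exp (θ * Complex.I))) ^ j
        * (((1 - ‖(r : ℂ) * Complex.exp (θ * Complex.I)‖ ^ 2) ^ N : ℝ) : ℂ))
        = ((r : ℂ) * r ^ j * ((1 - r ^ 2) ^ N : ℝ))
          * (ψ (r * Complex.exp (θ * Complex.I)) * Complex.exp (-(j * θ * Complex.I))) := by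
      intro θ
      have hn : ‖(r : ℂ) * Complex.exp (θ * Complex.I)‖ = r := by
        rw [norm_mul, Complex.norm_exp_ofReal_mul_I, mul_one, Complex.norm_real,
          Real.norm_of_nonneg hr.1.le]
      have hcj : (conj ((r : ℂ) * Complex.exp (θ * Complex.I))) ^ j
          = (r : ℂ) ^ j * Complex.exp (-(j * θ * Complex.I)) := by
        rw [map_mul, Complex.conj_ofReal, ← Complex.exp_conj, map_mul, Complex.conj_ofReal,
          Complex.conj_I, mul_pow, ← Complex.exp_nat_mul]
        congr 2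
        ring
      rw [hn, hcj]
      ring
    simp_rw [h1]
    rw [integral_const_mul, circle_coeff_of_diff hψ hr.1.le hr.2]
    push_cast
    ring
  rw [setIntegral_congr_fun measurableSet_Ioo hinner, integral_const_mul, integral_complex_ofReal,
    radial_beta]
  have h4 : ((j + N + 1).factorial : ℂ) ≠ 0 := by exact_mod_cast (Nat.factorial_ne_zero _)
  push_cast
  field_simp

end Pool.Agent.Lib.MP_d3a69a_an
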