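import Mathlib
import Pool.Agent.Lib.MP_d3a69a_an.Pairing

open MeasureTheory Metric Set Real
open scoped ENNReal ComplexConjugate

noncomputable section

namespace Pool.Agent.Lib.MP_d3a69a_an

lemma one_sub_ne_zero_of_norm {w : ℂ} (hw : ‖w‖ < 1) : 1 - w ≠ 0 := by
  intro h
  have : w = 1 := (sub_eq_zero.mp h).symm
  rw [this] at hw
  simp at hw

lemma integral_inv_sq {c : ℂ} (hc : ‖c‖ < 1) :
    ∫ θ in Ioo (-π) π, 1 / ‖1 - c * Complex.exp (θ * Complex.I)‖ ^ 2
      = 2 * π / (1 - ‖c‖ ^ 2) := by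
  set a : ℕ → ℂ := fun k => 2 * c ^ k - (if k = 0 then 1 else 0) with ha
  set g : ℂ → ℂ := fun z => 2 * (1 - c * z)⁻¹ - 1 with hg
  have hs : Summable fun k => ‖a k‖ * (1 : ℝ) ^ k := by
    have h1 : Summable fun k : ℕ => 2 * ‖c‖ ^ k + (if k = 0 then (1 : ℝ) else 0) :=
      ((summable_geometric_of_lt_one (norm_nonneg _) hc).mul_left 2).add
        (hasSum_ite_eq 0 (1 : ℝ)).summable
    refine Summable.of_norm_bounded h1 fun k => ?_
    rw [one_pow, mul_one, norm_norm]
    refine (norm_sub_le _ _).trans ?_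
    rw [norm_mul, norm_pow]
    split_ifs <;> simp
  have hsum : ∀ z : ℂ, ‖z‖ = 1 → HasSum (fun k => a k * z ^ k) (g z) := by
    intro z hz
    have hcz : ‖c * z‖ < 1 := by rw [norm_mul, hz, mul_one]; exact hc
    have h1 : HasSum (fun k : ℕ => (2 : ℂ) * (c * z) ^ k) ((2 : ℂ) * (1 - c * z)⁻¹) :=
      HasSum.mul_left (2 : ℂ) (hasSum_geometric_of_norm_lt_one hcz)
    have h2 : HasSum (fun k : ℕ => if k = 0 then (1 : ℂ) else 0) 1 := hasSum_ite_eq 0 1
    refine (h1.sub h2).congr_fun fun k => ?_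
    simp only [ha]
    split_ifs with hk
    · subst hk; simp
    · rw [mul_pow]; ring
  have h := circle_coeff (r := 1) zero_le_one hs hsum 0
  have hre : ∀ θ : ℝ, (g (((1 : ℝ) : ℂ) * Complex.exp (θ * Complex.I))
      * Complex.exp (-(((0 : ℕ) : ℂ) * θ * Complex.I))).re
      = (1 - ‖c‖ ^ 2) * (1 / ‖1 - c * Complex.exp (θ * Complex.I)‖ ^ 2) := by
    intro θ
    have hw : ‖c * Complex.exp (θ * Complex.I)‖ = ‖c‖ := by
      rw [norm_mul, Complex.norm_exp_ofReal_mul_I, mul_one]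
    set w := c * Complex.exp (θ * Complex.I) with hwdef
    have hne : 1 - w ≠ 0 := one_sub_ne_zero_of_norm (by rw [hw]; exact hc)
    have e1 : g (((1 : ℝ) : ℂ) * Complex.exp (θ * Complex.I))
      * Complex.exp (-(((0 : ℕ) : ℂ) * θ * Complex.I)) = 2 * (1 - w)⁻¹ - 1 := by
      simp [hg, hwdef]
    rw [e1, ← hw]
    have hns : ‖1 - w‖ ^ 2 ≠ 0 := by
      have := norm_ne_zero_iff.mpr hne
      positivity
    have h3 : ((1 - w)⁻¹).re = (1 - w.re) / ‖1 - w‖ ^ 2 := by
      rw [Complex.inv_re, Complex.normSq_eq_norm_sq]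
      simp
    have h4 : ‖1 - w‖ ^ 2 = 1 - 2 * w.re + ‖w‖ ^ 2 := by
      rw [← Complex.normSq_eq_norm_sq, ← Complex.normSq_eq_norm_sq, Complex.normSq_apply,
        Complex.normSq_apply]
      simp
      ring
    have h5 : (2 * (1 - w)⁻¹ - 1).re = 2 * ((1 - w)⁻¹).re - 1 := by
      simp
    rw [h5, h3]
    field_simp
    rw [h4]
    ring
  have hint : Integrable (fun θ : ℝ => g (((1 : ℝ) : ℂ) * Complex.exp (θ * Complex.I))
      * Complex.exp (-(((0 : ℕ) : ℂ) * θ * Complex.I))) (volume.restrict (Ioo (-π) π)) := by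
    have hcont : Continuous (fun θ : ℝ => g (((1 : ℝ) : ℂ) * Complex.exp (θ * Complex.I))
      * Complex.exp (-(((0 : ℕ) : ℂ) * θ * Complex.I))) := by
      have hne : ∀ θ : ℝ, 1 - c * (((1 : ℝ) : ℂ) * Complex.exp (θ * Complex.I)) ≠ 0 := by
        intro θ
        apply one_sub_ne_zero_of_norm
        rw [Complex.ofReal_one, one_mul, norm_mul, Complex.norm_exp_ofReal_mul_I, mul_one]
        exact hc
      simp only [hg]
      refine Continuous.mul (Continuous.sub (continuous_const.mul (Continuous.inv₀ ?_ hne))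
        continuous_const) ?_
      · fun_prop
      · fun_prop
    exact hcont.integrableOn_Icc.mono_set Ioo_subset_Icc_self
  have h2 := congrArg Complex.re h
  rw [show (∫ θ in Ioo (-π) π, g (((1 : ℝ) : ℂ) * Complex.exp (θ * Complex.I))
      * Complex.exp (-(((0 : ℕ) : ℂ) * θ * Complex.I))).re
      = ∫ θ in Ioo (-π) π, (g (((1 : ℝ) : ℂ) * Complex.exp (θ * Complex.I))
      * Complex.exp (-(((0 : ℕ) : ℂ) * θ * Complex.I))).re from
      (integral_re hint).symm] at h2
  simp_rw [hre] at h2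
  rw [integral_const_mul] at h2
  have h0 : a 0 = 1 := by simp [ha]; norm_num
  have hpos : 0 < 1 - ‖c‖ ^ 2 := by
    have := norm_nonneg c
    nlinarith
  rw [h0] at h2
  have h3 : (2 * (π : ℂ) * 1 * ((1 : ℝ) : ℂ) ^ 0).re = 2 * π := by
    simp
  rw [h3] at h2
  rw [eq_div_iff hpos.ne', mul_comm]
  exact h2

lemma lintegral_inv_sq {c : ℂ} (hc : ‖c‖ < 1) :
    ∫⁻ θ in Ioo (-π) π, ENNReal.ofReal (1 / ‖1 - c * Complex.exp (θ * Complex.I)‖ ^ 2)
      = ENNReal.ofReal (2 * π / (1 - ‖c‖ ^ 2)) := by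
  rw [← integral_inv_sq hc, ofReal_integral_eq_lintegral_ofReal]
  · have hcont : Continuous (fun θ : ℝ => 1 / ‖1 - c * Complex.exp (θ * Complex.I)‖ ^ 2) := by
      refine continuous_const.div (by fun_prop) fun θ => ?_
      have hne : 1 - c * Complex.exp (θ * Complex.I) ≠ 0 := by
        apply one_sub_ne_zero_of_norm
        rw [norm_mul, Complex.norm_exp_ofReal_mul_I, mul_one]
        exact hc
      exact pow_ne_zero _ (norm_ne_zero_iff.mpr hne)
    exact hcont.integrableOn_Icc.mono_set Ioo_subset_Icc_self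
  · exact Filter.Eventually.of_forall fun θ => by positivity

/-- The radial integral in the Forelli–Rudin estimate. -/
lemma radial_FR {α : ℝ} (hα : 0 < α) {n : ℕ} (hn : α < n) {s : ℝ} (hs0 : 0 ≤ s) (hs1 : s < 1) :
    ∫⁻ r in Ioo (0 : ℝ) 1, ENNReal.ofReal ((1 - r) ^ ((n : ℝ) - α - 1) / (1 - r * s) ^ n)
      ≤ ENNReal.ofReal ((1 / (n - α) + 1 / α) * (1 - s) ^ (-α)) := by
  have hδ : 0 < 1 - s := by linarith
  have hb : -1 < (n : ℝ) - α - 1 := by linarith
  have hsplit : Ioo (0 : ℝ) 1 ⊆ Ioc 0 s ∪ Ioo s 1 := by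
    intro r hr
    rcases le_or_gt r s with h | h
    · exact Or.inl ⟨hr.1, h⟩
    · exact Or.inr ⟨h, hr.2⟩
  have hI1 : IntervalIntegrable (fun r : ℝ => (1 - r) ^ ((n : ℝ) - α - 1)) volume s 1 := by
    have := (intervalIntegral.intervalIntegrable_rpow' (a := 1 - s) (b := 0) hb).comp_sub_left 1
    simpa using this
  have hI2 : IntervalIntegrable (fun r : ℝ => (1 - r) ^ (-α - 1)) volume 0 s := by
    refine ContinuousOn.intervalIntegrable ?_
    refine ContinuousOn.rpow_const (by fun_prop) fun r hr => Or.inl ?_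
    rw [uIcc_of_le hs0] at hr
    have := hr.2
    linarith
  have h1 : ∫⁻ r in Ioc (0 : ℝ) s, ENNReal.ofReal ((1 - r) ^ ((n : ℝ) - α - 1) / (1 - r * s) ^ n)
      ≤ ENNReal.ofReal (((1 - s) ^ (-α) - 1) / α) := by
    have e : ∫ r in Ioc (0 : ℝ) s, (1 - r) ^ (-α - 1) = ((1 - s) ^ (-α) - 1) / α := by
      rw [← intervalIntegral.integral_of_le hs0]
      have := intervalIntegral.integral_comp_sub_left (a := 0) (b := s)
        (fun t : ℝ => t ^ (-α - 1)) 1
      rw [this, integral_rpow]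
      · simp only [sub_zero, one_rpow]
        rw [show -α - 1 + 1 = -α by ring, div_neg, ← neg_div]
        ring
      · right
        refine ⟨by linarith, ?_⟩
        rw [sub_zero, uIcc_of_le (by linarith)]
        intro h
        have := h.1
        linarith
    rw [← e, ofReal_integral_eq_lintegral_ofReal]
    · refine setLIntegral_mono' measurableSet_Ioc fun r hr => ?_
      refine ENNReal.ofReal_le_ofReal ?_
      have hr1 : 0 < 1 - r := by have := hr.2; linarith
      have h2 : 1 - r ≤ 1 - r * s := by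
        have : r * s ≤ r * 1 := mul_le_mul_of_nonneg_left hs1.le hr.1.le
        linarith
      have h2' : 0 < 1 - r * s := lt_of_lt_of_le hr1 h2
      rw [div_le_iff₀ (by positivity)]
      have h3 : (1 - r) ^ ((n : ℝ) - α - 1) = (1 - r) ^ (-α - 1) * (1 - r) ^ n := by
        rw [← rpow_natCast, ← rpow_add hr1]
        congr 1
        ring
      rw [h3]
      have : 0 ≤ (1 - r) ^ (-α - 1) := rpow_nonneg hr1.le _
      gcongr
    · exact (intervalIntegrable_iff_integrableOn_Ioc_of_le hs0).mp hI2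
    · filter_upwards [ae_restrict_mem measurableSet_Ioc] with r hr
      have hr1 : 0 < 1 - r := by have := hr.2; linarith
      exact rpow_nonneg hr1.le _
  have h2 : ∫⁻ r in Ioo (s : ℝ) 1, ENNReal.ofReal ((1 - r) ^ ((n : ℝ) - α - 1) / (1 - r * s) ^ n)
      ≤ ENNReal.ofReal ((1 - s) ^ (-α) / (n - α)) := by
    have e : ∫ r in Ioo (s : ℝ) 1, (1 - r) ^ ((n : ℝ) - α - 1) * ((1 - s) ^ n)⁻¹
        = (1 - s) ^ (-α) / (n - α) := by
      rw [← integral_Ioc_eq_integral_Ioo, integral_mul_const,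
        ← intervalIntegral.integral_of_le hs1.le]
      have := intervalIntegral.integral_comp_sub_left (a := s) (b := 1)
        (fun t : ℝ => t ^ ((n : ℝ) - α - 1)) 1
      rw [this, integral_rpow (Or.inl hb)]
      rw [sub_self, show (n : ℝ) - α - 1 + 1 = n - α by ring,
        zero_rpow (by linarith : (n : ℝ) - α ≠ 0), sub_zero]
      have h3 : (1 - s) ^ ((n : ℝ) - α) = (1 - s) ^ (-α) * (1 - s) ^ n := by
        rw [← rpow_natCast, ← rpow_add hδ]
        congr 1
        ring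
      rw [h3]
      have : (1 - s) ^ n ≠ 0 := by positivity
      field_simp
    rw [← e, ofReal_integral_eq_lintegral_ofReal]
    · refine setLIntegral_mono' measurableSet_Ioo fun r hr => ?_
      refine ENNReal.ofReal_le_ofReal ?_
      have hr1 : 0 < 1 - r := by have := hr.2; linarith
      have h2 : 1 - s ≤ 1 - r * s := by
        have : r * s ≤ 1 * s := mul_le_mul_of_nonneg_right hr.2.le hs0
        linarith
      rw [div_eq_mul_inv]
      have : 0 ≤ (1 - r) ^ ((n : ℝ) - α - 1) := rpow_nonneg hr1.le _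
      gcongr
    · have := (intervalIntegrable_iff_integrableOn_Ioo_of_le hs1.le).mp hI1
      exact this.mul_const _
    · filter_upwards [ae_restrict_mem measurableSet_Ioo] with r hr
      have hr1 : 0 < 1 - r := by have := hr.2; linarith
      have : 0 ≤ (1 - r) ^ ((n : ℝ) - α - 1) := rpow_nonneg hr1.le _
      have : 0 ≤ ((1 - s) ^ n)⁻¹ := by positivity
      simp only [Pi.zero_apply]
      positivity
  have hpow : 1 ≤ (1 - s) ^ (-α) := by
    apply one_le_rpow_of_pos_of_le_one_of_nonpos hδ <;> linarith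
  calc ∫⁻ r in Ioo (0 : ℝ) 1, ENNReal.ofReal ((1 - r) ^ ((n : ℝ) - α - 1) / (1 - r * s) ^ n)
      ≤ ∫⁻ r in Ioc 0 s ∪ Ioo s 1,
          ENNReal.ofReal ((1 - r) ^ ((n : ℝ) - α - 1) / (1 - r * s) ^ n) :=
        lintegral_mono_set hsplit
    _ ≤ _ := lintegral_union_le _ _ _
    _ ≤ ENNReal.ofReal (((1 - s) ^ (-α) - 1) / α) + ENNReal.ofReal ((1 - s) ^ (-α) / (n - α)) :=
        add_le_add h1 h2
    _ = ENNReal.ofReal (((1 - s) ^ (-α) - 1) / α + (1 - s) ^ (-α) / (n - α)) := by
        rw [ENNReal.ofReal_add]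
        · exact div_nonneg (by linarith) hα.le
        · exact div_nonneg (by linarith) (by linarith)
    _ ≤ _ := by
        refine ENNReal.ofReal_le_ofReal ?_
        have h5 : ((1 - s) ^ (-α) - 1) / α ≤ (1 - s) ^ (-α) / α := by
          gcongr
          linarith
        have h6 : (1 / ((n : ℝ) - α) + 1 / α) * (1 - s) ^ (-α)
            = (1 - s) ^ (-α) / α + (1 - s) ^ (-α) / (n - α) := by ring
        rw [h6]
        linarith

/-- The constant in the Forelli–Rudin estimate. -/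
def frConst (α : ℝ) (n : ℕ) : ℝ := 2 * π * (1 / (n - α) + 1 / α)

lemma frConst_pos {α : ℝ} (hα : 0 < α) {n : ℕ} (hn : α < n) : 0 < frConst α n := by
  have : 0 < (n : ℝ) - α := by linarith
  unfold frConst
  positivity

/-- The Forelli–Rudin estimate. -/
lemma forelliRudin {α : ℝ} (hα : 0 < α) {n : ℕ} (hn1 : 1 ≤ n) (hn : α < n) {u : ℂ}
    (hu : ‖u‖ < 1) :
    ∫⁻ z in ball (0 : ℂ) 1,
      ENNReal.ofReal ((1 - ‖z‖) ^ ((n : ℝ) - α - 1) / ‖1 - u * z‖ ^ (n + 1))
      ≤ ENNReal.ofReal (frConst α n * (1 - ‖u‖) ^ (-α)) := by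
  have hm : Measurable fun z : ℂ =>
      ENNReal.ofReal ((1 - ‖z‖) ^ ((n : ℝ) - α - 1) / ‖1 - u * z‖ ^ (n + 1)) := by
    fun_prop
  rw [lintegral_ball_polar hm]
  calc ∫⁻ r in Ioo (0 : ℝ) 1, ∫⁻ θ in Ioo (-π) π, ENNReal.ofReal r *
        ENNReal.ofReal ((1 - ‖(r : ℂ) * Complex.exp (θ * Complex.I)‖) ^ ((n : ℝ) - α - 1)
          / ‖1 - u * ((r : ℂ) * Complex.exp (θ * Complex.I))‖ ^ (n + 1))
      ≤ ∫⁻ r in Ioo (0 : ℝ) 1, ENNReal.ofReal (2 * π) *
          ENNReal.ofReal ((1 - r) ^ ((n : ℝ) - α - 1) / (1 - r * ‖u‖) ^ n) := by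
        refine setLIntegral_mono' measurableSet_Ioo fun r hr => ?_
        have hr1 : 0 < 1 - r := by have := hr.2; linarith
        have hru : r * ‖u‖ < 1 := by
          calc r * ‖u‖ ≤ 1 * ‖u‖ := mul_le_mul_of_nonneg_right hr.2.le (norm_nonneg _)
            _ < 1 := by rw [one_mul]; exact hu
        have hcu : ‖u * (r : ℂ)‖ = r * ‖u‖ := by
          rw [norm_mul, Complex.norm_real, Real.norm_of_nonneg hr.1.le, mul_comm]
        have hpt : ∀ θ : ℝ, ENNReal.ofReal r *
            ENNReal.ofReal ((1 - ‖(r : ℂ) * Complex.exp (θ * Complex.I)‖) ^ ((n : ℝ) - α - 1)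
              / ‖1 - u * ((r : ℂ) * Complex.exp (θ * Complex.I))‖ ^ (n + 1))
            ≤ ENNReal.ofReal ((1 - r) ^ ((n : ℝ) - α - 1) / (1 - r * ‖u‖) ^ (n - 1)) *
              ENNReal.ofReal (1 / ‖1 - (u * (r : ℂ)) * Complex.exp (θ * Complex.I)‖ ^ 2) := by
          intro θ
          have hn' : ‖(r : ℂ) * Complex.exp (θ * Complex.I)‖ = r := by
            rw [norm_mul, Complex.norm_exp_ofReal_mul_I, mul_one, Complex.norm_real,
              Real.norm_of_nonneg hr.1.le]
          rw [hn', ← mul_assoc]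
          set w := u * (r : ℂ) * Complex.exp (θ * Complex.I) with hw
          have hwn : ‖w‖ = r * ‖u‖ := by
            rw [hw, norm_mul, Complex.norm_exp_ofReal_mul_I, mul_one, hcu]
          have hwlow : 1 - r * ‖u‖ ≤ ‖1 - w‖ := by
            have := norm_sub_norm_le (1 : ℂ) w
            rw [norm_one, hwn] at this
            exact this
          have hpos : 0 < 1 - r * ‖u‖ := by linarith
          have hwpos : 0 < ‖1 - w‖ := lt_of_lt_of_le hpos hwlow
          have hrp : 0 ≤ (1 - r) ^ ((n : ℝ) - α - 1) := rpow_nonneg hr1.le _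
          rw [← ENNReal.ofReal_mul hr.1.le, ← ENNReal.ofReal_mul (by positivity)]
          refine ENNReal.ofReal_le_ofReal ?_
          obtain ⟨k, rfl⟩ : ∃ k, n = k + 1 := ⟨n - 1, by omega⟩
          simp only [Nat.add_sub_cancel]
          have e1 : ‖1 - w‖ ^ (k + 1 + 1) = ‖1 - w‖ ^ k * ‖1 - w‖ ^ 2 := by ring
          rw [e1, div_mul_div_comm, mul_one, ← mul_div_assoc]
          have e2 : (1 - r * ‖u‖) ^ k * ‖1 - w‖ ^ 2 ≤ ‖1 - w‖ ^ k * ‖1 - w‖ ^ 2 := by
            gcongr
          have e3 : 0 < (1 - r * ‖u‖) ^ k * ‖1 - w‖ ^ 2 := by positivity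
          have e4 : r * (1 - r) ^ (((k + 1 : ℕ) : ℝ) - α - 1)
              ≤ (1 - r) ^ (((k + 1 : ℕ) : ℝ) - α - 1) := by
            have := hr.2.le
            nlinarith
          gcongr
        calc ∫⁻ θ in Ioo (-π) π, ENNReal.ofReal r *
            ENNReal.ofReal ((1 - ‖(r : ℂ) * Complex.exp (θ * Complex.I)‖) ^ ((n : ℝ) - α - 1)
              / ‖1 - u * ((r : ℂ) * Complex.exp (θ * Complex.I))‖ ^ (n + 1))
            ≤ ∫⁻ θ in Ioo (-π) π,
              ENNReal.ofReal ((1 - r) ^ ((n : ℝ) - α - 1) / (1 - r * ‖u‖) ^ (n - 1)) *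
              ENNReal.ofReal (1 / ‖1 - (u * (r : ℂ)) * Complex.exp (θ * Complex.I)‖ ^ 2) :=
              lintegral_mono fun θ => hpt θ
          _ = ENNReal.ofReal ((1 - r) ^ ((n : ℝ) - α - 1) / (1 - r * ‖u‖) ^ (n - 1)) *
              ENNReal.ofReal (2 * π / (1 - ‖u * (r : ℂ)‖ ^ 2)) := by
              rw [lintegral_const_mul', lintegral_inv_sq (by rw [hcu]; exact hru)]
              exact ENNReal.ofReal_ne_top
          _ ≤ _ := by
              have hpos : 0 < 1 - r * ‖u‖ := by linarith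
              have hrp : 0 ≤ (1 - r) ^ ((n : ℝ) - α - 1) := rpow_nonneg hr1.le _
              rw [← ENNReal.ofReal_mul (by positivity), ← ENNReal.ofReal_mul (by positivity), hcu]
              refine ENNReal.ofReal_le_ofReal ?_
              obtain ⟨k, rfl⟩ : ∃ k, n = k + 1 := ⟨n - 1, by omega⟩
              simp only [Nat.add_sub_cancel]
              have e1 : (1 - r * ‖u‖) ≤ 1 - (r * ‖u‖) ^ 2 := by
                have : 0 ≤ r * ‖u‖ := mul_nonneg hr.1.le (norm_nonneg _)
                nlinarith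
              have e2 : (1 - r * ‖u‖) ^ (k + 1) ≤ (1 - r * ‖u‖) ^ k * (1 - (r * ‖u‖) ^ 2) := by
                rw [pow_succ]
                gcongr
              rw [div_mul_div_comm, ← mul_div_assoc, mul_comm (2 * π)]
              have : 0 < (1 - r * ‖u‖) ^ (k + 1) := by positivity
              gcongr
    _ = ENNReal.ofReal (2 * π) * ∫⁻ r in Ioo (0 : ℝ) 1,
          ENNReal.ofReal ((1 - r) ^ ((n : ℝ) - α - 1) / (1 - r * ‖u‖) ^ n) := by
        rw [lintegral_const_mul' _ _ ENNReal.ofReal_ne_top]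
    _ ≤ ENNReal.ofReal (2 * π) * ENNReal.ofReal ((1 / (n - α) + 1 / α) * (1 - ‖u‖) ^ (-α)) := by
        gcongr
        exact radial_FR hα hn (norm_nonneg _) hu
    _ = _ := by
        rw [← ENNReal.ofReal_mul (by positivity), frConst]
        congr 1
        ring

end Pool.Agent.Lib.MP_d3a69a_an
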