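import Mathlib
import Pool.Agent.Lib.MP_d3a69a_an.ForelliRudin

open MeasureTheory Metric Set Real
open scoped ENNReal ComplexConjugate

noncomputable section

namespace Pool.Agent.Lib.MP_d3a69a_an

lemma succ_mul_one_sub_mul_pow_le {r : ℝ} (hr0 : 0 ≤ r) (hr1 : r ≤ 1) (q : ℕ) :
    ((q : ℝ) + 1) * ((1 - r) * r ^ q) ≤ 1 := by
  have h1 : ((q : ℝ) + 1) * r ^ q ≤ ∑ i ∈ Finset.range (q + 1), r ^ i := by
    have : ∑ i ∈ Finset.range (q + 1), r ^ q ≤ ∑ i ∈ Finset.range (q + 1), r ^ i := by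
      refine Finset.sum_le_sum fun i hi => ?_
      exact pow_le_pow_of_le_one hr0 hr1 (Nat.lt_succ_iff.mp (Finset.mem_range.mp hi))
    rw [Finset.sum_const, Finset.card_range, nsmul_eq_mul] at this
    push_cast at this
    exact this
  have h2 : (1 - r) * ∑ i ∈ Finset.range (q + 1), r ^ i = 1 - r ^ (q + 1) := by
    have := mul_neg_geom_sum r (q + 1)
    linarith
  have h3 : 0 ≤ 1 - r := by linarith
  calc ((q : ℝ) + 1) * ((1 - r) * r ^ q) = (1 - r) * (((q : ℝ) + 1) * r ^ q) := by ring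
    _ ≤ (1 - r) * ∑ i ∈ Finset.range (q + 1), r ^ i := by gcongr
    _ = 1 - r ^ (q + 1) := h2
    _ ≤ 1 := by
      have : 0 ≤ r ^ (q + 1) := by positivity
      linarith

/-- `(1 - r)^α r^m ≤ A^α (m+1)^{-α}` whenever `A ≥ α` is a positive integer. -/
lemma rpow_mul_pow_le {α : ℝ} (hα : 0 < α) {A : ℕ} (hA : α ≤ A) {r : ℝ} (hr0 : 0 ≤ r)
    (hr1 : r ≤ 1) (m : ℕ) :
    (1 - r) ^ α * r ^ m ≤ (A : ℝ) ^ α * ((m : ℝ) + 1) ^ (-α) := by
  have hA0 : 0 < A := by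
    have : (0 : ℝ) < A := lt_of_lt_of_le hα hA
    exact_mod_cast this
  have h1r : 0 ≤ 1 - r := by linarith
  set q := m / A with hq
  have hqm : A * q ≤ m := Nat.mul_div_le m A
  have hm1 : m + 1 ≤ A * (q + 1) := by
    have := Nat.lt_mul_div_succ m hA0
    rw [← hq] at this
    omega
  have h1 : r ^ m ≤ (r ^ q) ^ α := by
    calc r ^ m ≤ r ^ (A * q) := pow_le_pow_of_le_one hr0 hr1 hqm
      _ = (r ^ q) ^ A := by rw [← pow_mul, mul_comm]
      _ = (r ^ q) ^ (A : ℝ) := (rpow_natCast _ _).symm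
      _ ≤ (r ^ q) ^ α := by
        rcases eq_or_lt_of_le (pow_nonneg hr0 q) with h0 | h0
        · rw [← h0, zero_rpow hα.ne', zero_rpow]
          exact_mod_cast hA0.ne'
        · exact rpow_le_rpow_of_exponent_ge h0 (pow_le_one₀ hr0 hr1) hA
  have h2 : (1 - r) * r ^ q ≤ A * ((m : ℝ) + 1)⁻¹ := by
    have h3 := succ_mul_one_sub_mul_pow_le hr0 hr1 q
    have h4 : 0 ≤ (1 - r) * r ^ q := by positivity
    have h5 : ((m : ℝ) + 1) ≤ A * (q + 1) := by exact_mod_cast hm1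
    rw [← div_eq_mul_inv, le_div_iff₀ (by positivity)]
    have hAr : (0 : ℝ) < A := by exact_mod_cast hA0
    calc (1 - r) * r ^ q * ((m : ℝ) + 1) ≤ (1 - r) * r ^ q * (A * (q + 1)) := by gcongr
      _ = A * (((q : ℝ) + 1) * ((1 - r) * r ^ q)) := by ring
      _ ≤ A * 1 := by gcongr
      _ = A := mul_one _
  calc (1 - r) ^ α * r ^ m ≤ (1 - r) ^ α * (r ^ q) ^ α := by
        have : 0 ≤ (1 - r) ^ α := rpow_nonneg h1r _
        gcongr
    _ = ((1 - r) * r ^ q) ^ α := (mul_rpow h1r (by positivity)).symm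
    _ ≤ (A * ((m : ℝ) + 1)⁻¹) ^ α := rpow_le_rpow (by positivity) h2 hα.le
    _ = (A : ℝ) ^ α * ((m : ℝ) + 1) ^ (-α) := by
      rw [mul_rpow (by positivity) (by positivity), inv_rpow (by positivity),
        rpow_neg (by positivity)]

lemma one_sub_sq_pow_le (α : ℝ) (N : ℕ) {z : ℂ} (hz : ‖z‖ < 1) :
    (1 - ‖z‖ ^ 2) ^ N ≤ 2 ^ N * ((1 - ‖z‖) ^ α * (1 - ‖z‖) ^ ((N : ℝ) - α)) := by
  have h1 : 0 < 1 - ‖z‖ := by linarith
  have h2 : (1 - ‖z‖) ^ α * (1 - ‖z‖) ^ ((N : ℝ) - α) = (1 - ‖z‖) ^ N := by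
    rw [← rpow_add h1, ← rpow_natCast]
    congr 1
    ring
  rw [h2, ← mul_pow]
  have h3 : 0 ≤ ‖z‖ := norm_nonneg z
  have h4 : 0 ≤ 1 - ‖z‖ ^ 2 := by nlinarith
  refine pow_le_pow_left₀ h4 ?_ N
  nlinarith

lemma one_sub_sq_nonneg {z : ℂ} (hz : ‖z‖ < 1) : 0 ≤ 1 - ‖z‖ ^ 2 := by
  have h3 : 0 ≤ ‖z‖ := norm_nonneg z
  nlinarith

lemma Besov.integral_le_norm {α : ℝ} {n : ℕ} (f : Besov α n) :
    ∫ z in ball (0 : ℂ) 1, besovDensity α n f.fn z ≤ ‖f‖ := by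
  rw [Besov.norm_def]
  have : 0 ≤ ∑ j ∈ Finset.range n, ‖iteratedDeriv j f.fn 0‖ :=
    Finset.sum_nonneg fun _ _ => norm_nonneg _
  linarith

lemma Besov.deriv_le_norm {α : ℝ} {n : ℕ} (f : Besov α n) {j : ℕ} (hj : j < n) :
    ‖iteratedDeriv j f.fn 0‖ ≤ ‖f‖ := by
  rw [Besov.norm_def]
  have h1 : 0 ≤ ∫ z in ball (0 : ℂ) 1, besovDensity α n f.fn z :=
    setIntegral_nonneg measurableSet_ball fun z hz => besovDensity_nonneg _ hz
  have h2 : ‖iteratedDeriv j f.fn 0‖ ≤ ∑ j ∈ Finset.range n, ‖iteratedDeriv j f.fn 0‖ :=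
    Finset.single_le_sum (f := fun j => ‖iteratedDeriv j f.fn 0‖) (fun _ _ => norm_nonneg _)
      (Finset.mem_range.mpr hj)
  linarith

lemma Besov.contOn {α : ℝ} {n : ℕ} (f : Besov α n) (m : ℕ) :
    ContinuousOn (iteratedDeriv m f.fn) (ball 0 1) :=
  (differentiableOn_iteratedDeriv f.diff m).continuousOn

/-- A general integrability criterion: a continuous function on the disc which is bounded
by a constant multiple of the Besov density is integrable. -/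
lemma Besov.integrable_of_le {α : ℝ} {n : ℕ} (f : Besov α n) {g : ℂ → ℂ}
    (hg : ContinuousOn g (ball 0 1)) (C : ℝ)
    (h : ∀ z ∈ ball (0 : ℂ) 1, ‖g z‖ ≤ C * besovDensity α n f.fn z) :
    IntegrableOn g (ball 0 1) := by
  refine Integrable.mono' (f.integrableOn.const_mul C)
    (hg.aestronglyMeasurable measurableSet_ball) ?_
  filter_upwards [ae_restrict_mem measurableSet_ball] with z hz using h z hz

lemma Besov.norm_integral_le {α : ℝ} {n : ℕ} (f : Besov α n) {g : ℂ → ℂ} {C : ℝ} (hC : 0 ≤ C)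
    (h : ∀ z ∈ ball (0 : ℂ) 1, ‖g z‖ ≤ C * besovDensity α n f.fn z) :
    ‖∫ z in ball (0 : ℂ) 1, g z‖ ≤ C * ‖f‖ := by
  calc ‖∫ z in ball (0 : ℂ) 1, g z‖
      ≤ ∫ z in ball (0 : ℂ) 1, C * besovDensity α n f.fn z := by
        refine norm_integral_le_of_norm_le (f.integrableOn.const_mul C) ?_
        filter_upwards [ae_restrict_mem measurableSet_ball] with z hz using h z hz
    _ = C * ∫ z in ball (0 : ℂ) 1, besovDensity α n f.fn z := integral_const_mul _ _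
    _ ≤ C * ‖f‖ := by
        have := f.integral_le_norm
        gcongr

lemma besovDensity_succ (α : ℝ) (N : ℕ) (f : ℂ → ℂ) (z : ℂ) :
    besovDensity α (N + 1) f z = ‖iteratedDeriv (N + 1) f z‖ * (1 - ‖z‖) ^ ((N : ℝ) - α) := by
  rw [besovDensity]
  congr 2
  push_cast
  ring

/-- The kernel bound used throughout: `|F(z)| (1-|z|^2)^N ≤ 2^N (1-|z|)^α · density`. -/
lemma Besov.kernel_bound {α : ℝ} (hα : 0 ≤ α) {N : ℕ} (f : Besov α (N + 1)) {z : ℂ}
    (hz : z ∈ ball (0 : ℂ) 1) :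
    ‖iteratedDeriv (N + 1) f.fn z‖ * (1 - ‖z‖ ^ 2) ^ N
      ≤ 2 ^ N * (1 - ‖z‖) ^ α * besovDensity α (N + 1) f.fn z := by
  have hz1 := mem_ball_zero_iff.mp hz
  rw [besovDensity_succ]
  calc ‖iteratedDeriv (N + 1) f.fn z‖ * (1 - ‖z‖ ^ 2) ^ N
      ≤ ‖iteratedDeriv (N + 1) f.fn z‖
        * (2 ^ N * ((1 - ‖z‖) ^ α * (1 - ‖z‖) ^ ((N : ℝ) - α))) := by
        gcongr
        exact one_sub_sq_pow_le α N hz1
    _ = _ := by ring

lemma Besov.pair_integrable {α : ℝ} (hα : 0 ≤ α) {N : ℕ} (f : Besov α (N + 1)) (m : ℕ) :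
    IntegrableOn (fun z => iteratedDeriv (N + 1) f.fn z * (conj z) ^ m
      * (((1 - ‖z‖ ^ 2) ^ N : ℝ) : ℂ)) (ball 0 1) := by
  refine f.integrable_of_le ?_ (2 ^ N) fun z hz => ?_
  · refine ((f.contOn (N + 1)).mul ?_).mul ?_
    · exact (Complex.continuous_conj.pow m).continuousOn
    · refine Continuous.continuousOn ?_
      fun_prop
  · have hz1 := mem_ball_zero_iff.mp hz
    have h0 : 0 ≤ 1 - ‖z‖ := by linarith
    have h1 := f.kernel_bound hα hz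
    have h2 : (1 - ‖z‖) ^ α ≤ 1 := rpow_le_one h0 (by linarith [norm_nonneg z]) hα
    have h3 : ‖z‖ ^ m ≤ 1 := pow_le_one₀ (norm_nonneg _) hz1.le
    have h4 := one_sub_sq_nonneg hz1
    have h5 := besovDensity_nonneg (α := α) (n := N + 1) f.fn hz
    rw [norm_mul, norm_mul, norm_pow, Complex.norm_conj, Complex.norm_real,
      Real.norm_of_nonneg (by positivity)]
    calc ‖iteratedDeriv (N + 1) f.fn z‖ * ‖z‖ ^ m * (1 - ‖z‖ ^ 2) ^ N
        = (‖iteratedDeriv (N + 1) f.fn z‖ * (1 - ‖z‖ ^ 2) ^ N) * ‖z‖ ^ m := by ring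
      _ ≤ (‖iteratedDeriv (N + 1) f.fn z‖ * (1 - ‖z‖ ^ 2) ^ N) * 1 := by gcongr
      _ ≤ 2 ^ N * (1 - ‖z‖) ^ α * besovDensity α (N + 1) f.fn z := by linarith
      _ ≤ 2 ^ N * 1 * besovDensity α (N + 1) f.fn z := by gcongr
      _ = _ := by ring

/-- The Taylor coefficients of index `≥ N+1` of an element of the Besov space. -/
lemma Besov.coeff_eq {α : ℝ} (hα : 0 ≤ α) {N : ℕ} (f : Besov α (N + 1)) (m : ℕ) :
    coeff f.fn (m + (N + 1)) = ((π : ℂ) * N.factorial)⁻¹ *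
      ∫ z in ball (0 : ℂ) 1, iteratedDeriv (N + 1) f.fn z * (conj z) ^ m
        * (((1 - ‖z‖ ^ 2) ^ N : ℝ) : ℂ) := by
  rw [integral_pairing (differentiableOn_iteratedDeriv f.diff (N + 1)) m N
    (f.pair_integrable hα m), coeff_iteratedDeriv]
  have h1 : (π : ℂ) ≠ 0 := by exact_mod_cast pi_ne_zero
  have h2 : (N.factorial : ℂ) ≠ 0 := by exact_mod_cast (Nat.factorial_ne_zero _)
  have h3 : (m.factorial : ℂ) ≠ 0 := by exact_mod_cast (Nat.factorial_ne_zero _)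
  have h4 : ((m + (N + 1)).factorial : ℂ) ≠ 0 := by exact_mod_cast (Nat.factorial_ne_zero _)
  rw [show m + N + 1 = m + (N + 1) by ring]
  field_simp

/-- The coefficient estimate `|\hat f(k)| ≤ C (k+1)^{-α} ‖f‖`. -/
lemma Besov.exists_coeff_bound {α : ℝ} (hα : 0 < α) (N : ℕ) :
    ∃ C : ℝ, 0 < C ∧ ∀ (f : Besov α (N + 1)) (k : ℕ),
      ‖coeff f.fn k‖ ≤ C * ((k : ℝ) + 1) ^ (-α) * ‖f‖ := by
  obtain ⟨A, hA⟩ := exists_nat_ge α
  have hA0 : (0 : ℝ) < A := lt_of_lt_of_le hα hA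
  set C₁ : ℝ := (N + 2 : ℝ) ^ α with hC₁
  have hC₁pos : 0 < C₁ := by positivity
  set C₂ : ℝ := (π * N.factorial)⁻¹ * (2 ^ N * A ^ α) * (N + 2 : ℝ) ^ α with hC₂
  have hfac : (0 : ℝ) < N.factorial := by exact_mod_cast Nat.factorial_pos N
  have hC₂pos : 0 < C₂ := by positivity
  refine ⟨C₁ + C₂, by positivity, fun f k => ?_⟩
  have hk : 0 < ((k : ℝ) + 1) ^ (-α) := by positivity
  have hf : 0 ≤ ‖f‖ := norm_nonneg f
  rcases lt_or_ge k (N + 1) with h | h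
  · have h1 : ‖coeff f.fn k‖ ≤ ‖f‖ := by
      have h2 := f.deriv_le_norm h
      rw [coeff, norm_div]
      have h3 : (1 : ℝ) ≤ ‖(k.factorial : ℂ)‖ := by
        rw [Complex.norm_natCast]
        exact_mod_cast Nat.factorial_pos k
      exact (div_le_self (norm_nonneg _) h3).trans h2
    have h4 : 1 ≤ C₁ * ((k : ℝ) + 1) ^ (-α) := by
      rw [hC₁, rpow_neg (by positivity), ← div_eq_mul_inv, one_le_div (by positivity)]
      refine rpow_le_rpow (by positivity) ?_ hα.le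
      have : (k : ℝ) < (N + 1 : ℕ) := by exact_mod_cast h
      push_cast at this
      linarith
    calc ‖coeff f.fn k‖ ≤ 1 * ‖f‖ := by rw [one_mul]; exact h1
      _ ≤ (C₁ * ((k : ℝ) + 1) ^ (-α)) * ‖f‖ := by gcongr
      _ ≤ ((C₁ + C₂) * ((k : ℝ) + 1) ^ (-α)) * ‖f‖ := by
        gcongr
        linarith
  · obtain ⟨m, rfl⟩ := Nat.exists_eq_add_of_le' h
    rw [f.coeff_eq hα.le m, norm_mul]
    have h5 : ‖∫ z in ball (0 : ℂ) 1, iteratedDeriv (N + 1) f.fn z * (conj z) ^ m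
        * (((1 - ‖z‖ ^ 2) ^ N : ℝ) : ℂ)‖
        ≤ (2 ^ N * (A ^ α * ((m : ℝ) + 1) ^ (-α))) * ‖f‖ := by
      refine f.norm_integral_le (by positivity) fun z hz => ?_
      have hz1 := mem_ball_zero_iff.mp hz
      have h1 := f.kernel_bound hα.le hz
      have h4 := one_sub_sq_nonneg hz1
      have h6 := besovDensity_nonneg (α := α) (n := N + 1) f.fn hz
      have h7 := rpow_mul_pow_le hα hA (norm_nonneg z) hz1.le m
      rw [norm_mul, norm_mul, norm_pow, Complex.norm_conj, Complex.norm_real,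
        Real.norm_of_nonneg (by positivity)]
      calc ‖iteratedDeriv (N + 1) f.fn z‖ * ‖z‖ ^ m * (1 - ‖z‖ ^ 2) ^ N
          = (‖iteratedDeriv (N + 1) f.fn z‖ * (1 - ‖z‖ ^ 2) ^ N) * ‖z‖ ^ m := by ring
        _ ≤ (2 ^ N * (1 - ‖z‖) ^ α * besovDensity α (N + 1) f.fn z) * ‖z‖ ^ m := by gcongr
        _ = 2 ^ N * ((1 - ‖z‖) ^ α * ‖z‖ ^ m) * besovDensity α (N + 1) f.fn z := by ring
        _ ≤ 2 ^ N * (A ^ α * ((m : ℝ) + 1) ^ (-α)) * besovDensity α (N + 1) f.fn z := by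
          gcongr
    have h8 : ((m : ℝ) + 1) ^ (-α) ≤ (N + 2 : ℝ) ^ α * (((m + (N + 1) : ℕ) : ℝ) + 1) ^ (-α) := by
      rw [rpow_neg (by positivity), rpow_neg (by positivity), ← div_eq_mul_inv,
        inv_eq_one_div, div_le_div_iff₀ (by positivity) (by positivity), one_mul,
        ← mul_rpow (by positivity) (by positivity)]
      refine rpow_le_rpow (by positivity) ?_ hα.le
      push_cast
      have : (0 : ℝ) ≤ m := Nat.cast_nonneg m
      have : (0 : ℝ) ≤ N := Nat.cast_nonneg N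
      nlinarith [mul_nonneg ‹(0 : ℝ) ≤ N› ‹(0 : ℝ) ≤ (m : ℝ)›]
    have h9 : ‖((π : ℂ) * N.factorial)⁻¹‖ = (π * N.factorial)⁻¹ := by
      rw [norm_inv, norm_mul, Complex.norm_real, Complex.norm_natCast,
        Real.norm_of_nonneg pi_pos.le]
    rw [h9]
    have hk' : 0 ≤ (((m + (N + 1) : ℕ) : ℝ) + 1) ^ (-α) := by positivity
    calc (π * N.factorial)⁻¹ * ‖∫ z in ball (0 : ℂ) 1, iteratedDeriv (N + 1) f.fn z
          * (conj z) ^ m * (((1 - ‖z‖ ^ 2) ^ N : ℝ) : ℂ)‖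
        ≤ (π * N.factorial)⁻¹ * ((2 ^ N * (A ^ α * ((m : ℝ) + 1) ^ (-α))) * ‖f‖) := by gcongr
      _ ≤ (π * N.factorial)⁻¹ * ((2 ^ N * (A ^ α *
          ((N + 2 : ℝ) ^ α * (((m + (N + 1) : ℕ) : ℝ) + 1) ^ (-α)))) * ‖f‖) := by gcongr
      _ = C₂ * (((m + (N + 1) : ℕ) : ℝ) + 1) ^ (-α) * ‖f‖ := by rw [hC₂]; ring
      _ ≤ _ := by
        gcongr
        linarith

/-- For `α ≥ 1` the Besov space embeds in the bounded analytic functions. -/
lemma Besov.exists_sup_bound {α : ℝ} (hα : 1 ≤ α) (N : ℕ) :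
    ∃ C : ℝ, 0 < C ∧ ∀ (f : Besov α (N + 1)), ∀ z ∈ ball (0 : ℂ) 1, ‖f.fn z‖ ≤ C * ‖f‖ := by
  have hfac : (0 : ℝ) < N.factorial := by exact_mod_cast Nat.factorial_pos N
  refine ⟨(N + 1) + (π * N.factorial)⁻¹ * 2 ^ N, by positivity, fun f z hz => ?_⟩
  have hα0 : 0 ≤ α := by linarith
  have hz1 := mem_ball_zero_iff.mp hz
  have hf : 0 ≤ ‖f‖ := norm_nonneg f
  have hpart : ∀ M : ℕ, ‖∑ k ∈ Finset.range (N + 1 + M), coeff f.fn k * z ^ k‖
      ≤ ((N + 1) + (π * N.factorial)⁻¹ * 2 ^ N) * ‖f‖ := by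
    intro M
    rw [Finset.sum_range_add]
    have h1 : ‖∑ k ∈ Finset.range (N + 1), coeff f.fn k * z ^ k‖ ≤ (N + 1) * ‖f‖ := by
      have : ∀ k ∈ Finset.range (N + 1), ‖coeff f.fn k * z ^ k‖ ≤ ‖f‖ := by
        intro k hk
        have h2 := f.deriv_le_norm (Finset.mem_range.mp hk)
        have h3 : (1 : ℝ) ≤ ‖(k.factorial : ℂ)‖ := by
          rw [Complex.norm_natCast]
          exact_mod_cast Nat.factorial_pos k
        have h4 : ‖coeff f.fn k‖ ≤ ‖f‖ := by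
          rw [coeff, norm_div]
          exact (div_le_self (norm_nonneg _) h3).trans h2
        rw [norm_mul, norm_pow]
        have h5 : ‖z‖ ^ k ≤ 1 := pow_le_one₀ (norm_nonneg _) hz1.le
        calc ‖coeff f.fn k‖ * ‖z‖ ^ k ≤ ‖f‖ * 1 := by gcongr
          _ = ‖f‖ := mul_one _
      refine (norm_sum_le_of_le _ this).trans ?_
      simp
    have h2 : ‖∑ x ∈ Finset.range M, coeff f.fn (N + 1 + x) * z ^ (N + 1 + x)‖
        ≤ ((π * N.factorial)⁻¹ * 2 ^ N) * ‖f‖ := by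
      have e1 : ∑ x ∈ Finset.range M, coeff f.fn (N + 1 + x) * z ^ (N + 1 + x)
          = ((π : ℂ) * N.factorial)⁻¹ * ∫ u in ball (0 : ℂ) 1, iteratedDeriv (N + 1) f.fn u
            * (∑ x ∈ Finset.range M, z ^ (N + 1 + x) * (conj u) ^ x)
            * (((1 - ‖u‖ ^ 2) ^ N : ℝ) : ℂ) := by
        have e2 : ∀ u : ℂ, iteratedDeriv (N + 1) f.fn u
            * (∑ x ∈ Finset.range M, z ^ (N + 1 + x) * (conj u) ^ x)
            * (((1 - ‖u‖ ^ 2) ^ N : ℝ) : ℂ)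
            = ∑ x ∈ Finset.range M, z ^ (N + 1 + x) * (iteratedDeriv (N + 1) f.fn u
              * (conj u) ^ x * (((1 - ‖u‖ ^ 2) ^ N : ℝ) : ℂ)) := by
          intro u
          rw [Finset.mul_sum, Finset.sum_mul]
          refine Finset.sum_congr rfl fun x _ => ?_
          ring
        simp_rw [e2]
        rw [integral_finsetSum _ fun x _ => (f.pair_integrable hα0 x).const_mul _,
          Finset.mul_sum]
        refine Finset.sum_congr rfl fun x _ => ?_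
        rw [integral_const_mul, add_comm (N + 1) x, f.coeff_eq hα0 x]
        ring
      rw [e1, norm_mul]
      have h9 : ‖((π : ℂ) * N.factorial)⁻¹‖ = (π * N.factorial)⁻¹ := by
        rw [norm_inv, norm_mul, Complex.norm_real, Complex.norm_natCast,
          Real.norm_of_nonneg pi_pos.le]
      rw [h9, mul_assoc]
      refine mul_le_mul_of_nonneg_left ?_ (by positivity)
      refine f.norm_integral_le (by positivity) fun u hu => ?_
      have hu1 := mem_ball_zero_iff.mp hu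
      have hu0 : 0 < 1 - ‖u‖ := by linarith
      have hgeo : ‖∑ x ∈ Finset.range M, z ^ (N + 1 + x) * (conj u) ^ x‖ ≤ (1 - ‖u‖)⁻¹ := by
        calc ‖∑ x ∈ Finset.range M, z ^ (N + 1 + x) * (conj u) ^ x‖
            ≤ ∑ x ∈ Finset.range M, ‖u‖ ^ x := by
              refine norm_sum_le_of_le _ fun x _ => ?_
              rw [norm_mul, norm_pow, norm_pow, Complex.norm_conj]
              have h5 : ‖z‖ ^ (N + 1 + x) ≤ 1 := pow_le_one₀ (norm_nonneg _) hz1.le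
              calc ‖z‖ ^ (N + 1 + x) * ‖u‖ ^ x ≤ 1 * ‖u‖ ^ x := by gcongr
                _ = ‖u‖ ^ x := one_mul _
          _ ≤ ∑' x, ‖u‖ ^ x :=
              (summable_geometric_of_lt_one (norm_nonneg _) hu1).sum_le_tsum _
                fun _ _ => by positivity
          _ = (1 - ‖u‖)⁻¹ := tsum_geometric_of_lt_one (norm_nonneg _) hu1
      have h1 := f.kernel_bound hα0 hu
      have h4 := one_sub_sq_nonneg hu1
      have h6 := besovDensity_nonneg (α := α) (n := N + 1) f.fn hu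
      rw [norm_mul, norm_mul, Complex.norm_real, Real.norm_of_nonneg (by positivity)]
      have h7 : (1 - ‖u‖) ^ α ≤ 1 - ‖u‖ := by
        calc (1 - ‖u‖) ^ α ≤ (1 - ‖u‖) ^ (1 : ℝ) :=
              rpow_le_rpow_of_exponent_ge hu0 (by linarith [norm_nonneg u]) hα
          _ = 1 - ‖u‖ := rpow_one _
      calc ‖iteratedDeriv (N + 1) f.fn u‖
            * ‖∑ x ∈ Finset.range M, z ^ (N + 1 + x) * (conj u) ^ x‖ * (1 - ‖u‖ ^ 2) ^ N
          = (‖iteratedDeriv (N + 1) f.fn u‖ * (1 - ‖u‖ ^ 2) ^ N)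
            * ‖∑ x ∈ Finset.range M, z ^ (N + 1 + x) * (conj u) ^ x‖ := by ring
        _ ≤ (2 ^ N * (1 - ‖u‖) ^ α * besovDensity α (N + 1) f.fn u) * (1 - ‖u‖)⁻¹ := by gcongr
        _ ≤ (2 ^ N * (1 - ‖u‖) * besovDensity α (N + 1) f.fn u) * (1 - ‖u‖)⁻¹ := by gcongr
        _ = 2 ^ N * besovDensity α (N + 1) f.fn u := by
          field_simp
    calc _ ≤ _ := norm_add_le _ _
      _ ≤ (N + 1) * ‖f‖ + ((π * N.factorial)⁻¹ * 2 ^ N) * ‖f‖ := add_le_add h1 h2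
      _ = _ := by ring
  have hlim : Filter.Tendsto (fun M : ℕ => ∑ k ∈ Finset.range (N + 1 + M), coeff f.fn k * z ^ k)
      Filter.atTop (nhds (f.fn z)) := by
    have h1 := (hasSum_taylor f.diff hz).tendsto_sum_nat
    have h2 : Filter.Tendsto (fun M : ℕ => N + 1 + M) Filter.atTop Filter.atTop :=
      Filter.tendsto_atTop_mono (fun M => by simp only [id]; omega) Filter.tendsto_id
    exact h1.comp h2
  exact le_of_tendsto hlim.norm (Filter.Eventually.of_forall hpart)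

end Pool.Agent.Lib.MP_d3a69a_an
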