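import Mathlib
import Pool.Agent.Lib.MP_d3a69a_an.Coeff

open MeasureTheory Metric Set Real
open scoped ENNReal ComplexConjugate

noncomputable section

namespace Pool.Agent.Lib.MP_d3a69a_an

/-- Constructor for elements of `B_∞^{-α}`. -/
def mkGrowth {α : ℝ} (f : ℂ → ℂ) (hf : f ∈ discAnalytic) (C : ℝ) (hC0 : 0 ≤ C)
    (hC : ∀ z ∈ ball (0 : ℂ) 1, ‖f z‖ ≤ C * (1 - ‖z‖) ^ (-α)) : Growth α :=
  (⟨f, hf, C, hC0, hC⟩ : growthSubmodule α)

lemma mkGrowth_fn {α : ℝ} (f : ℂ → ℂ) (hf : f ∈ discAnalytic) (C : ℝ) (hC0 : 0 ≤ C)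
    (hC : ∀ z ∈ ball (0 : ℂ) 1, ‖f z‖ ≤ C * (1 - ‖z‖) ^ (-α)) :
    (mkGrowth f hf C hC0 hC).fn = f := rfl

lemma mkGrowth_norm_le {α : ℝ} (f : ℂ → ℂ) (hf : f ∈ discAnalytic) (C : ℝ) (hC0 : 0 ≤ C)
    (hC : ∀ z ∈ ball (0 : ℂ) 1, ‖f z‖ ≤ C * (1 - ‖z‖) ^ (-α)) :
    ‖mkGrowth f hf C hC0 hC‖ ≤ C :=
  Growth.norm_le_of _ hC0 hC

lemma Growth.mem_disc {α : ℝ} (f : Growth α) : f.fn ∈ discAnalytic := f.2.1

lemma Besov.mem_disc {α : ℝ} {n : ℕ} (f : Besov α n) : f.fn ∈ discAnalytic := f.2.1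

lemma coeff_add {f g : ℂ → ℂ} (hf : f ∈ discAnalytic) (hg : g ∈ discAnalytic) (k : ℕ) :
    coeff (f + g) k = coeff f k + coeff g k := by
  rw [coeff, coeff, coeff, iteratedDeriv_add_on hf.1 hg.1 k (by simp), add_div]

lemma coeff_smul {f : ℂ → ℂ} (hf : f ∈ discAnalytic) (c : ℂ) (k : ℕ) :
    coeff (c • f) k = c * coeff f k := by
  rw [coeff, coeff, iteratedDeriv_smul_on hf.1 c k (by simp), mul_div_assoc]

/-- Cauchy estimate for the Taylor coefficients of an element of `B_∞^{-α}`. -/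
lemma Growth.coeff_le {α : ℝ} (f : Growth α) {r : ℝ} (hr0 : 0 < r) (hr1 : r < 1) (k : ℕ) :
    ‖coeff f.fn k‖ ≤ ‖f‖ * (1 - r) ^ (-α) / r ^ k := by
  have h := circle_coeff_of_diff f.diff hr0.le hr1 k
  have h1 : ‖∫ θ in Ioo (-π) π, f.fn (r * Complex.exp (θ * Complex.I))
      * Complex.exp (-(k * θ * Complex.I))‖ ≤ (‖f‖ * (1 - r) ^ (-α)) * (2 * π) := by
    have hb : ∀ θ : ℝ, ‖f.fn (r * Complex.exp (θ * Complex.I))
      * Complex.exp (-(k * θ * Complex.I))‖ ≤ ‖f‖ * (1 - r) ^ (-α) := by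
      intro θ
      have hn : ‖(r : ℂ) * Complex.exp (θ * Complex.I)‖ = r := by
        rw [norm_mul, Complex.norm_exp_ofReal_mul_I, mul_one, Complex.norm_real,
          Real.norm_of_nonneg hr0.le]
      have hn2 : ‖Complex.exp (-(k * θ * Complex.I))‖ = 1 := by
        rw [Complex.norm_exp]
        simp
      rw [norm_mul, hn2, mul_one]
      have := f.le_norm (z := (r : ℂ) * Complex.exp (θ * Complex.I))
        (by rw [mem_ball_zero_iff, hn]; exact hr1)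
      rwa [hn] at this
    have h2 := norm_setIntegral_le_of_norm_le_const (μ := volume) (s := Ioo (-π) π)
      (by rw [Real.volume_Ioo]; exact ENNReal.ofReal_lt_top) (fun θ _ => hb θ)
    refine h2.trans (le_of_eq ?_)
    rw [Measure.real, Real.volume_Ioo, ENNReal.toReal_ofReal (by linarith [pi_pos])]
    ring
  rw [h] at h1
  rw [norm_mul, norm_mul, norm_mul, norm_pow, Complex.norm_real, Complex.norm_real,
    Real.norm_of_nonneg pi_pos.le, Real.norm_of_nonneg hr0.le] at h1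
  have h2 : ‖(2 : ℂ)‖ = 2 := by simp
  rw [h2] at h1
  rw [le_div_iff₀ (by positivity)]
  have hpi := pi_pos
  have h3 : 2 * π * (‖coeff f.fn k‖ * r ^ k) ≤ 2 * π * (‖f‖ * (1 - r) ^ (-α)) := by linarith
  exact le_of_mul_le_mul_left h3 (by positivity)

instance instCompleteGrowth (α : ℝ) : CompleteSpace (Growth α) := by
  refine Metric.complete_of_cauchySeq_tendsto fun u hu => ?_
  -- pointwise Cauchy
  have hdist : ∀ m k : ℕ, ∀ z ∈ ball (0 : ℂ) 1,
      ‖(u m).fn z - (u k).fn z‖ ≤ dist (u m) (u k) * (1 - ‖z‖) ^ (-α) := by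
    intro m k z hz
    have := (u m - u k).le_norm hz
    rw [dist_eq_norm]
    exact this
  have hpt : ∀ z : ℂ, ∃ l : ℂ, Filter.Tendsto (fun m => (u m).fn z) Filter.atTop (nhds l) := by
    intro z
    by_cases hz : z ∈ ball (0 : ℂ) 1
    · have hw : 0 < (1 - ‖z‖) ^ (-α) := Real.rpow_pos_of_pos (one_sub_norm_pos hz) _
      apply cauchySeq_tendsto_of_complete
      rw [Metric.cauchySeq_iff'] at hu ⊢
      intro ε hε
      obtain ⟨M, hM⟩ := hu (ε / (1 - ‖z‖) ^ (-α)) (by positivity)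
      refine ⟨M, fun m hm => ?_⟩
      rw [dist_eq_norm]
      calc ‖(u m).fn z - (u M).fn z‖ ≤ dist (u m) (u M) * (1 - ‖z‖) ^ (-α) := hdist m M z hz
        _ < ε / (1 - ‖z‖) ^ (-α) * (1 - ‖z‖) ^ (-α) := by
          have := hM m hm
          gcongr
        _ = ε := by field_simp
    · exact ⟨0, by simp [Growth.zero_off _ hz]⟩
  choose g hg using hpt
  have hunif : ∀ ε > 0, ∃ M, ∀ m ≥ M, ∀ z ∈ ball (0 : ℂ) 1,
      ‖(u m).fn z - g z‖ ≤ ε * (1 - ‖z‖) ^ (-α) := by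
    intro ε hε
    rw [Metric.cauchySeq_iff] at hu
    obtain ⟨M, hM⟩ := hu ε hε
    refine ⟨M, fun m hm z hz => ?_⟩
    have hw : 0 < (1 - ‖z‖) ^ (-α) := Real.rpow_pos_of_pos (one_sub_norm_pos hz) _
    have hl : Filter.Tendsto (fun k => ‖(u m).fn z - (u k).fn z‖) Filter.atTop
        (nhds ‖(u m).fn z - g z‖) := ((hg z).const_sub _).norm
    refine le_of_tendsto hl ?_
    filter_upwards [Filter.eventually_ge_atTop M] with k hk
    calc ‖(u m).fn z - (u k).fn z‖ ≤ dist (u m) (u k) * (1 - ‖z‖) ^ (-α) := hdist m k z hz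
      _ ≤ ε * (1 - ‖z‖) ^ (-α) := by
        have := (hM m hm k hk).le
        gcongr
  have hdiff : DifferentiableOn ℂ g (ball 0 1) := by
    have hloc : TendstoLocallyUniformlyOn (fun m => (u m).fn) g Filter.atTop (ball (0 : ℂ) 1) := by
      rw [Metric.tendstoLocallyUniformlyOn_iff]
      intro ε hε z hz
      have hz1 := mem_ball_zero_iff.mp hz
      obtain ⟨r, hzr, hr1⟩ := exists_between hz1
      have hr0 : 0 < 1 - r := by linarith
      -- bound of the weight on the ball of radius r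
      set B : ℝ := max ((1 - r) ^ (-α)) 1 with hB
      have hBpos : 0 < B := lt_of_lt_of_le one_pos (le_max_right _ _)
      have hBw : ∀ w ∈ ball (0 : ℂ) r, (1 - ‖w‖) ^ (-α) ≤ B := by
        intro w hw
        have hw1 : ‖w‖ < r := mem_ball_zero_iff.mp hw
        rcases le_or_gt 0 α with h | h
        · refine le_trans ?_ (le_max_left _ _)
          exact Real.rpow_le_rpow_of_nonpos hr0 (by linarith) (by linarith)
        · refine le_trans ?_ (le_max_right _ _)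
          exact Real.rpow_le_one (by linarith) (by linarith [norm_nonneg w]) (by linarith)
      obtain ⟨M, hM⟩ := hunif (ε / (2 * B)) (by positivity)
      refine ⟨ball 0 r, mem_nhdsWithin_of_mem_nhds (isOpen_ball.mem_nhds
        (mem_ball_zero_iff.mpr hzr)), ?_⟩
      filter_upwards [Filter.eventually_ge_atTop M] with m hm w hw
      have hw1 : ‖w‖ < r := mem_ball_zero_iff.mp hw
      rw [dist_comm, dist_eq_norm]
      calc ‖(u m).fn w - g w‖ ≤ ε / (2 * B) * (1 - ‖w‖) ^ (-α) :=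
            hM m hm w (mem_ball_zero_iff.mpr (hw1.trans hr1))
        _ ≤ ε / (2 * B) * B := by
          have := hBw w hw
          gcongr
        _ = ε / 2 := by field_simp
        _ < ε := by linarith
    exact hloc.differentiableOn (Filter.Eventually.of_forall fun m => (u m).diff) isOpen_ball
  have hzero : ∀ z, z ∉ ball (0 : ℂ) 1 → g z = 0 := by
    intro z hz
    have h1 := hg z
    simp only [Growth.zero_off _ hz] at h1
    exact tendsto_nhds_unique h1 tendsto_const_nhds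
  obtain ⟨M₁, hM₁⟩ := hunif 1 one_pos
  have hbound : ∀ z ∈ ball (0 : ℂ) 1, ‖g z‖ ≤ (‖u M₁‖ + 1) * (1 - ‖z‖) ^ (-α) := by
    intro z hz
    have h1 := hM₁ M₁ le_rfl z hz
    have h2 := (u M₁).le_norm hz
    calc ‖g z‖ = ‖(u M₁).fn z - ((u M₁).fn z - g z)‖ := by congr 1; ring
      _ ≤ ‖(u M₁).fn z‖ + ‖(u M₁).fn z - g z‖ := norm_sub_le _ _
      _ ≤ ‖u M₁‖ * (1 - ‖z‖) ^ (-α) + 1 * (1 - ‖z‖) ^ (-α) := add_le_add h2 h1
      _ = _ := by ring
  set G : Growth α := mkGrowth g ⟨hdiff, hzero⟩ (‖u M₁‖ + 1) (by positivity) hbound with hG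
  refine ⟨G, ?_⟩
  rw [Metric.tendsto_atTop]
  intro ε hε
  obtain ⟨M, hM⟩ := hunif (ε / 2) (by positivity)
  refine ⟨M, fun m hm => ?_⟩
  rw [dist_eq_norm]
  have : ‖u m - G‖ ≤ ε / 2 :=
    Growth.norm_le_of _ (by positivity) fun z hz => hM m hm z hz
  linarith

/-- The `N`-fold backward shift of an element of `B_∞^{-α}`. -/
lemma Growth.exists_shift {α : ℝ} (hα : 0 ≤ α) (M : ℕ) : ∃ C : ℝ, 0 < C ∧ ∀ φ : Growth α,
    ∃ ψ : Growth α, (∀ k, coeff ψ.fn k = coeff φ.fn (k + M)) ∧ ‖ψ‖ ≤ C * ‖φ‖ := by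
  set C₁ : ℝ := 4 ^ α * (4 / 3) ^ M * 3 with hC₁
  set C₂ : ℝ := 2 ^ M * (1 + M * (2 ^ α * 2 ^ M)) with hC₂
  have hC₁pos : 0 < C₁ := by positivity
  have hC₂pos : 0 < C₂ := by positivity
  refine ⟨C₁ + C₂, by positivity, fun φ => ?_⟩
  have hφ : 0 ≤ ‖φ‖ := norm_nonneg φ
  set a : ℕ → ℂ := fun k => coeff φ.fn (k + M) with ha
  have hs : ∀ r : ℝ, 0 ≤ r → r < 1 → Summable fun k => ‖a k‖ * r ^ k := by
    intro r hr0 hr1
    rcases eq_or_lt_of_le hr0 with h0 | h0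
    · subst h0
      refine summable_of_ne_finset_zero (s := {0}) fun k hk => ?_
      rw [zero_pow (by simpa using hk), mul_zero]
    · have h1 := (summable_nat_add_iff M).mpr (summable_norm_coeff φ.diff hr0 hr1)
      have h2 := h1.mul_right (r ^ M)⁻¹
      refine h2.congr fun k => ?_
      rw [pow_add]
      field_simp
      rfl
  have hmem := ofCoeff_mem hs
  have hcoef : ∀ k, coeff (ofCoeff a) k = a k := coeff_ofCoeff hs
  have hbd : ∀ z ∈ ball (0 : ℂ) 1, ‖ofCoeff a z‖ ≤ ((C₁ + C₂) * ‖φ‖) * (1 - ‖z‖) ^ (-α) := by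
    intro z hz
    have hz1 := mem_ball_zero_iff.mp hz
    have hw1 : 1 ≤ (1 - ‖z‖) ^ (-α) := by
      apply one_le_rpow_of_pos_of_le_one_of_nonpos <;> linarith [norm_nonneg z]
    rcases le_or_gt ‖z‖ (1 / 2) with h | h
    · -- small |z|
      have h1 : ∀ k, ‖a k * z ^ k‖ ≤ (‖φ‖ * 4 ^ α * (4 / 3) ^ M) * (2 / 3) ^ k := by
        intro k
        have h2 := φ.coeff_le (r := 3 / 4) (by norm_num) (by norm_num) (k + M)
        rw [norm_mul, norm_pow]
        have e1 : (1 - 3 / 4 : ℝ) ^ (-α) = 4 ^ α := by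
          rw [rpow_neg (by norm_num), ← inv_rpow (by norm_num)]
          norm_num
        rw [e1] at h2
        have e2 : ‖φ‖ * 4 ^ α / (3 / 4 : ℝ) ^ (k + M)
            = (‖φ‖ * 4 ^ α * (4 / 3) ^ M) * (4 / 3) ^ k := by
          rw [div_eq_mul_inv, ← inv_pow, pow_add]
          norm_num
          ring
        rw [e2] at h2
        calc ‖a k‖ * ‖z‖ ^ k ≤ ((‖φ‖ * 4 ^ α * (4 / 3) ^ M) * (4 / 3) ^ k) * (1 / 2) ^ k := by
              gcongr
          _ = (‖φ‖ * 4 ^ α * (4 / 3) ^ M) * ((4 / 3) * (1 / 2)) ^ k := by rw [mul_pow]; ring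
          _ = _ := by norm_num
      have hgeo : HasSum (fun k : ℕ => (‖φ‖ * 4 ^ α * (4 / 3) ^ M) * (2 / 3 : ℝ) ^ k)
          ((‖φ‖ * 4 ^ α * (4 / 3) ^ M) * (1 - 2 / 3)⁻¹) :=
        (hasSum_geometric_of_lt_one (by norm_num) (by norm_num)).mul_left _
      have h3 : ‖ofCoeff a z‖ ≤ (‖φ‖ * 4 ^ α * (4 / 3) ^ M) * (1 - 2 / 3)⁻¹ := by
        rw [← (ofCoeff_hasSum hs hz).tsum_eq]
        exact tsum_of_norm_bounded hgeo h1
      calc ‖ofCoeff a z‖ ≤ (‖φ‖ * 4 ^ α * (4 / 3) ^ M) * (1 - 2 / 3)⁻¹ := h3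
        _ = C₁ * ‖φ‖ * 1 := by rw [hC₁]; norm_num; ring
        _ ≤ C₁ * ‖φ‖ * (1 - ‖z‖) ^ (-α) := by gcongr
        _ ≤ _ := by
          gcongr
          linarith
    · -- |z| > 1/2
      have hz0 : z ≠ 0 := by
        intro h0
        rw [h0, norm_zero] at h
        linarith
      have h1 : ofCoeff a z * z ^ M = φ.fn z - ∑ k ∈ Finset.range M, coeff φ.fn k * z ^ k := by
        have h2 := (ofCoeff_hasSum hs hz).mul_right (z ^ M)
        have h3 : HasSum (fun k => coeff φ.fn (k + M) * z ^ (k + M))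
            (φ.fn z - ∑ k ∈ Finset.range M, coeff φ.fn k * z ^ k) :=
          (hasSum_nat_add_iff' (f := fun k => coeff φ.fn k * z ^ k) M).mpr
            (hasSum_taylor φ.diff hz)
        refine h2.unique (h3.congr_fun fun k => ?_)
        simp only [ha, pow_add]
        ring
      have h2 : ‖∑ k ∈ Finset.range M, coeff φ.fn k * z ^ k‖ ≤ M * (‖φ‖ * (2 ^ α * 2 ^ M)) := by
        have : ∀ k ∈ Finset.range M, ‖coeff φ.fn k * z ^ k‖ ≤ ‖φ‖ * (2 ^ α * 2 ^ M) := by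
          intro k hk
          have h2 := φ.coeff_le (r := 1 / 2) (by norm_num) (by norm_num) k
          have e1 : (1 - 1 / 2 : ℝ) ^ (-α) = 2 ^ α := by
            rw [rpow_neg (by norm_num), ← inv_rpow (by norm_num)]
            norm_num
          rw [e1] at h2
          have e2 : ‖φ‖ * 2 ^ α / (1 / 2 : ℝ) ^ k = ‖φ‖ * (2 ^ α * 2 ^ k) := by
            rw [div_eq_mul_inv, ← inv_pow]
            norm_num
            ring
          rw [e2] at h2
          rw [norm_mul, norm_pow]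
          have h5 : ‖z‖ ^ k ≤ 1 := pow_le_one₀ (norm_nonneg _) hz1.le
          have h6 : (2 : ℝ) ^ k ≤ 2 ^ M :=
            pow_le_pow_right₀ (by norm_num) (Finset.mem_range.mp hk).le
          calc ‖coeff φ.fn k‖ * ‖z‖ ^ k ≤ (‖φ‖ * (2 ^ α * 2 ^ k)) * 1 := by gcongr
            _ ≤ ‖φ‖ * (2 ^ α * 2 ^ M) := by
              rw [mul_one]
              gcongr
        refine (norm_sum_le_of_le _ this).trans ?_
        simp
      have h3 : ‖ofCoeff a z‖ * ‖z‖ ^ M ≤ ‖φ‖ * (1 - ‖z‖) ^ (-α)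
          + M * (‖φ‖ * (2 ^ α * 2 ^ M)) := by
        rw [← norm_pow, ← norm_mul, h1]
        exact (norm_sub_le _ _).trans (add_le_add (φ.le_norm hz) h2)
      have h4 : (1 / 2 : ℝ) ^ M ≤ ‖z‖ ^ M := by gcongr
      have h5 : ‖ofCoeff a z‖ * (1 / 2 : ℝ) ^ M ≤ ‖φ‖ * (1 - ‖z‖) ^ (-α)
          + M * (‖φ‖ * (2 ^ α * 2 ^ M)) :=
        le_trans (by gcongr) h3
      have h6 : ‖ofCoeff a z‖ = 2 ^ M * (‖ofCoeff a z‖ * (1 / 2 : ℝ) ^ M) := by
        rw [mul_comm, mul_assoc, ← mul_pow]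
        norm_num
      rw [h6]
      calc 2 ^ M * (‖ofCoeff a z‖ * (1 / 2 : ℝ) ^ M)
          ≤ 2 ^ M * (‖φ‖ * (1 - ‖z‖) ^ (-α) + M * (‖φ‖ * (2 ^ α * 2 ^ M)) * 1) := by
            rw [mul_one]
            gcongr
        _ ≤ 2 ^ M * (‖φ‖ * (1 - ‖z‖) ^ (-α) + M * (‖φ‖ * (2 ^ α * 2 ^ M))
            * (1 - ‖z‖) ^ (-α)) := by gcongr
        _ = C₂ * ‖φ‖ * (1 - ‖z‖) ^ (-α) := by rw [hC₂]; ring
        _ ≤ _ := by
          gcongr
          linarith
  refine ⟨mkGrowth (ofCoeff a) hmem ((C₁ + C₂) * ‖φ‖) (by positivity) hbd, hcoef,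
    mkGrowth_norm_le _ _ _ _ _⟩

end Pool.Agent.Lib.MP_d3a69a_an
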