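import Mathlib
import Pool.Agent.Lib.MP_d3a69a_an.GrowthLemmas

open MeasureTheory Metric Set Real Polynomial
open scoped ENNReal ComplexConjugate

noncomputable section

namespace Pool.Agent.Lib.MP_d3a69a_an

lemma measurable_weight (β : ℝ) : Measurable (fun z : ℂ => (1 - ‖z‖) ^ β) := by fun_prop

lemma lintegral_weight_lt_top {α : ℝ} (hα : 0 < α) {n : ℕ} (hn1 : 1 ≤ n) (hn : α < n) :
    ∫⁻ z in ball (0 : ℂ) 1, ENNReal.ofReal ((1 - ‖z‖) ^ ((n : ℝ) - α - 1)) < ∞ := by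
  have h := forelliRudin hα hn1 hn (u := 0) (by simp)
  refine lt_of_le_of_lt ?_ (lt_of_le_of_lt h ENNReal.ofReal_lt_top)
  refine le_of_eq (lintegral_congr fun z => ?_)
  simp

lemma integrableOn_weight {α : ℝ} (hα : 0 < α) {n : ℕ} (hn1 : 1 ≤ n) (hn : α < n) :
    IntegrableOn (fun z : ℂ => (1 - ‖z‖) ^ ((n : ℝ) - α - 1)) (ball 0 1) := by
  refine ⟨(measurable_weight _).aestronglyMeasurable, ?_⟩
  rw [hasFiniteIntegral_iff_norm]
  refine lt_of_le_of_lt (le_of_eq ?_) (lintegral_weight_lt_top hα hn1 hn)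
  refine setLIntegral_congr_fun measurableSet_ball fun z hz => ?_
  rw [Real.norm_of_nonneg (rpow_nonneg (one_sub_norm_pos hz).le _)]

lemma integral_weight_le {α : ℝ} (hα : 0 < α) {n : ℕ} (hn1 : 1 ≤ n) (hn : α < n) {u : ℂ}
    (hu : ‖u‖ < 1) :
    IntegrableOn (fun z : ℂ => (1 - ‖z‖) ^ ((n : ℝ) - α - 1) / ‖1 - u * z‖ ^ (n + 1)) (ball 0 1) ∧
    ∫ z in ball (0 : ℂ) 1, (1 - ‖z‖) ^ ((n : ℝ) - α - 1) / ‖1 - u * z‖ ^ (n + 1)
      ≤ frConst α n * (1 - ‖u‖) ^ (-α) := by
  have h := forelliRudin hα hn1 hn hu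
  have hm : Measurable fun z : ℂ =>
      (1 - ‖z‖) ^ ((n : ℝ) - α - 1) / ‖1 - u * z‖ ^ (n + 1) := by fun_prop
  have hnn : ∀ z ∈ ball (0 : ℂ) 1,
      0 ≤ (1 - ‖z‖) ^ ((n : ℝ) - α - 1) / ‖1 - u * z‖ ^ (n + 1) := fun z hz =>
    div_nonneg (rpow_nonneg (one_sub_norm_pos hz).le _) (by positivity)
  have hi : IntegrableOn (fun z : ℂ =>
      (1 - ‖z‖) ^ ((n : ℝ) - α - 1) / ‖1 - u * z‖ ^ (n + 1)) (ball 0 1) := by
    refine ⟨hm.aestronglyMeasurable, ?_⟩
    rw [hasFiniteIntegral_iff_norm]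
    refine lt_of_le_of_lt (le_of_eq ?_) (lt_of_le_of_lt h ENNReal.ofReal_lt_top)
    refine setLIntegral_congr_fun measurableSet_ball fun z hz => ?_
    rw [Real.norm_of_nonneg (hnn z hz)]
  refine ⟨hi, ?_⟩
  have h2 : 0 ≤ frConst α n * (1 - ‖u‖) ^ (-α) :=
    mul_nonneg (frConst_pos hα hn).le (rpow_nonneg (by linarith) _)
  rw [← ENNReal.ofReal_le_ofReal_iff h2, ofReal_integral_eq_lintegral_ofReal hi]
  · exact h
  · filter_upwards [ae_restrict_mem measurableSet_ball] with z hz using hnn z hz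

/-- The polynomial function cut off outside the disc. -/
def polyFn (p : ℂ[X]) : ℂ → ℂ := (ball (0 : ℂ) 1).indicator fun z => p.eval z

lemma polyFn_apply (p : ℂ[X]) {z : ℂ} (hz : z ∈ ball (0 : ℂ) 1) : polyFn p z = p.eval z :=
  indicator_of_mem hz _

lemma iteratedDeriv_poly (p : ℂ[X]) (n : ℕ) :
    iteratedDeriv n (fun z => p.eval z) = fun z => (derivative^[n] p).eval z := by
  induction n with
  | zero => simp
  | succ n ih =>
    rw [iteratedDeriv_succ, ih, Function.iterate_succ_apply']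
    funext z
    exact Polynomial.deriv _

lemma iteratedDeriv_polyFn (p : ℂ[X]) (n : ℕ) {z : ℂ} (hz : z ∈ ball (0 : ℂ) 1) :
    iteratedDeriv n (polyFn p) z = (derivative^[n] p).eval z := by
  have h : polyFn p =ᶠ[nhds z] fun z => p.eval z := by
    filter_upwards [isOpen_ball.mem_nhds hz] with w hw using polyFn_apply p hw
  rw [h.iteratedDeriv_eq n, iteratedDeriv_poly]

lemma polyFn_mem (p : ℂ[X]) : polyFn p ∈ discAnalytic := by
  refine ⟨?_, fun z hz => indicator_of_notMem hz _⟩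
  have : DifferentiableOn ℂ (fun z => p.eval z) (ball 0 1) := p.differentiable.differentiableOn
  exact this.congr fun z hz => polyFn_apply p hz

lemma poly_bounded (p : ℂ[X]) : ∃ C : ℝ, 0 ≤ C ∧ ∀ z ∈ closedBall (0 : ℂ) 1, ‖p.eval z‖ ≤ C := by
  obtain ⟨C, hC⟩ := (isCompact_closedBall (0 : ℂ) 1).exists_bound_of_continuousOn
    (f := fun z => p.eval z) p.continuous.continuousOn
  exact ⟨C, (norm_nonneg _).trans (hC 0 (by simp)), hC⟩

lemma polyFn_mem_besov {α : ℝ} (hα : 0 < α) {n : ℕ} (hn : α < n) (p : ℂ[X]) :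
    polyFn p ∈ besovSubmodule α n := by
  have hn1 : 1 ≤ n := by
    have : (0 : ℝ) < n := hα.trans hn
    exact_mod_cast this
  refine ⟨polyFn_mem p, ?_⟩
  obtain ⟨C, hC0, hC⟩ := poly_bounded (derivative^[n] p)
  refine Integrable.mono' ((integrableOn_weight hα hn1 hn).const_mul C) ?_ ?_
  · refine ContinuousOn.aestronglyMeasurable ?_ measurableSet_ball |>.mul
      (measurable_weight _).aestronglyMeasurable
    exact (differentiableOn_iteratedDeriv (polyFn_mem p).1 n).continuousOn.norm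
  · filter_upwards [ae_restrict_mem measurableSet_ball] with z hz
    rw [Real.norm_of_nonneg (besovDensity_nonneg _ hz), besovDensity, iteratedDeriv_polyFn p n hz]
    have := hC z (ball_subset_closedBall hz)
    have h2 : 0 ≤ (1 - ‖z‖) ^ ((n : ℝ) - α - 1) := rpow_nonneg (one_sub_norm_pos hz).le _
    gcongr

/-- Polynomials as elements of the Besov space. -/
def polyB {α : ℝ} (hα : 0 < α) {n : ℕ} (hn : α < n) : ℂ[X] →ₗ[ℂ] Besov α n where
  toFun p := (⟨polyFn p, polyFn_mem_besov hα hn p⟩ : besovSubmodule α n)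
  map_add' p q := by
    apply Besov.fn_injective
    change polyFn (p + q) = polyFn p + polyFn q
    funext z
    by_cases hz : z ∈ ball (0 : ℂ) 1
    · simp [polyFn_apply _ hz]
    · simp [polyFn, indicator_of_notMem hz]
  map_smul' c p := by
    apply Besov.fn_injective
    change polyFn (c • p) = c • polyFn p
    funext z
    by_cases hz : z ∈ ball (0 : ℂ) 1
    · simp [polyFn_apply _ hz]
    · simp [polyFn, indicator_of_notMem hz]

lemma polyB_fn {α : ℝ} (hα : 0 < α) {n : ℕ} (hn : α < n) (p : ℂ[X]) :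
    (polyB hα hn p).fn = polyFn p := rfl

lemma coeff_polyFn (p : ℂ[X]) (k : ℕ) : coeff (polyFn p) k = p.coeff k := by
  rw [coeff, iteratedDeriv_polyFn p k (by simp), ← coeff_zero_eq_eval_zero,
    coeff_iterate_derivative]
  simp only [zero_add, Nat.descFactorial_self, nsmul_eq_mul]
  have : (k.factorial : ℂ) ≠ 0 := by exact_mod_cast Nat.factorial_ne_zero k
  field_simp

/-- Cauchy estimate for a polynomial bounded on the disc. -/
lemma poly_cauchy (p : ℂ[X]) {S : ℝ} (hS : ∀ z ∈ ball (0 : ℂ) 1, ‖p.eval z‖ ≤ S) (j : ℕ) {z : ℂ}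
    (hz : z ∈ ball (0 : ℂ) 1) :
    ‖(derivative^[j] p).eval z‖ * (1 - ‖z‖) ^ j ≤ j.factorial * S := by
  have hz1 := one_sub_norm_pos hz
  have hS' : ∀ z ∈ closedBall (0 : ℂ) 1, ‖p.eval z‖ ≤ S := by
    have hcl : IsClosed {z : ℂ | ‖p.eval z‖ ≤ S} :=
      isClosed_le p.continuous.norm continuous_const
    have : closedBall (0 : ℂ) 1 ⊆ {z : ℂ | ‖p.eval z‖ ≤ S} := by
      rw [← closure_ball (0 : ℂ) one_ne_zero]
      exact closure_minimal hS hcl
    exact this
  have h := Complex.norm_iteratedDeriv_le_of_forall_mem_sphere_norm_le (c := z) (R := 1 - ‖z‖)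
    (C := S) (f := fun z => p.eval z) j hz1 p.differentiable.diffContOnCl (fun w hw => by
      apply hS'
      rw [mem_closedBall_zero_iff]
      have h1 : ‖w - z‖ = 1 - ‖z‖ := by rw [← dist_eq_norm]; exact hw
      calc ‖w‖ = ‖(w - z) + z‖ := by ring_nf
        _ ≤ ‖w - z‖ + ‖z‖ := norm_add_le _ _
        _ = 1 := by rw [h1]; ring)
  rw [iteratedDeriv_poly, le_div_iff₀ (by positivity)] at h
  exact h

end Pool.Agent.Lib.MP_d3a69a_an
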