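import Mathlib
import Pool.Agent.Lib.MP_d3a69a_an.Poly

open MeasureTheory Metric Set Real Polynomial
open scoped ENNReal ComplexConjugate

noncomputable section

namespace Pool.Agent.Lib.MP_d3a69a_an

lemma conj_mul_norm_lt {u z : ℂ} (hu : ‖u‖ < 1) (hz : ‖z‖ < 1) : ‖conj u * z‖ < 1 := by
  rw [norm_mul, Complex.norm_conj]
  have h1 := norm_nonneg u
  have h2 := norm_nonneg z
  nlinarith

/-- The power series of the kernel `k! / (1 - w)^{k+1}`. -/
lemma hasSum_kernel (k : ℕ) {w : ℂ} (hw : ‖w‖ < 1) :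
    HasSum (fun m : ℕ => ((m + k).factorial : ℂ) / (m.factorial : ℂ) * w ^ m)
      ((k.factorial : ℂ) / (1 - w) ^ (k + 1)) := by
  have h := (hasSum_choose_mul_geometric_of_norm_lt_one k hw).mul_left (k.factorial : ℂ)
  rw [mul_one_div] at h
  refine h.congr_fun fun m => ?_
  have h1 : ((m + k).choose k : ℂ) * (m.factorial : ℂ) * (k.factorial : ℂ)
      = ((m + k).factorial : ℂ) := by
    have := Nat.add_choose_mul_factorial_mul_factorial m k
    exact_mod_cast this
  have h2 : (m.factorial : ℂ) ≠ 0 := by exact_mod_cast Nat.factorial_ne_zero m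
  rw [← h1]
  field_simp

lemma summable_kernel_norm (k : ℕ) {r : ℝ} (hr0 : 0 ≤ r) (hr : r < 1) :
    Summable fun m : ℕ => ((m + k).factorial : ℝ) / (m.factorial : ℝ) * r ^ m := by
  have h := (hasSum_kernel k (w := (r : ℂ))
    (by rw [Complex.norm_real, Real.norm_of_nonneg hr0]; exact hr)).summable.norm
  refine h.congr fun m => ?_
  rw [norm_mul, norm_div, norm_pow, Complex.norm_natCast, Complex.norm_natCast,
    Complex.norm_real, Real.norm_of_nonneg hr0]

/-- The reproducing formula. -/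
lemma Besov.repro {α : ℝ} (hα : 0 ≤ α) {N : ℕ} (f : Besov α (N + 1)) (i : ℕ) {z : ℂ}
    (hz : z ∈ ball (0 : ℂ) 1) :
    iteratedDeriv (N + 1 + i) f.fn z = ((π : ℂ) * N.factorial)⁻¹ * ∫ u in ball (0 : ℂ) 1,
      iteratedDeriv (N + 1) f.fn u * (conj u) ^ i * (((1 - ‖u‖ ^ 2) ^ N : ℝ) : ℂ)
        * (((N + 1 + i).factorial : ℂ) / (1 - conj u * z) ^ (N + 1 + i + 1)) := by
  have hz1 := mem_ball_zero_iff.mp hz
  set k := N + 1 + i with hk
  set F : ℕ → ℂ → ℂ := fun m u => (((m + k).factorial : ℂ) / (m.factorial : ℂ) * z ^ m)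
    * (iteratedDeriv (N + 1) f.fn u * (conj u) ^ (m + i) * (((1 - ‖u‖ ^ 2) ^ N : ℝ) : ℂ)) with hF
  have hFi : ∀ m, Integrable (F m) (volume.restrict (ball 0 1)) := fun m =>
    (f.pair_integrable hα (m + i)).const_mul _
  set C : ℝ := ∫ u in ball (0 : ℂ) 1, ‖iteratedDeriv (N + 1) f.fn u * (conj u) ^ 0
    * (((1 - ‖u‖ ^ 2) ^ N : ℝ) : ℂ)‖ with hC
  have hFn : ∀ m, ∫ u in ball (0 : ℂ) 1, ‖F m u‖
      ≤ ((m + k).factorial : ℝ) / (m.factorial : ℝ) * ‖z‖ ^ m * C := by
    intro m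
    rw [hC, ← integral_const_mul]
    refine setIntegral_mono_on (hFi m).norm ((f.pair_integrable hα 0).norm.const_mul _)
      measurableSet_ball fun u hu => ?_
    have hu1 := mem_ball_zero_iff.mp hu
    simp only [hF]
    rw [norm_mul, norm_mul, norm_div, norm_pow, Complex.norm_natCast, Complex.norm_natCast]
    refine mul_le_mul_of_nonneg_left ?_ (by positivity)
    rw [norm_mul, norm_mul, norm_mul, norm_mul, norm_pow, norm_pow, Complex.norm_conj]
    have h1 : ‖u‖ ^ (m + i) ≤ ‖u‖ ^ 0 := by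
      rw [pow_zero]
      exact pow_le_one₀ (norm_nonneg _) hu1.le
    gcongr
  have hsum : Summable fun m => ∫ u in ball (0 : ℂ) 1, ‖F m u‖ := by
    refine Summable.of_nonneg_of_le (fun m => integral_nonneg fun u => norm_nonneg _) hFn ?_
    exact (summable_kernel_norm k (norm_nonneg z) hz1).mul_right C
  have h1 := hasSum_integral_of_summable_integral_norm hFi hsum
  have h2 : HasSum (fun m : ℕ => coeff (iteratedDeriv k f.fn) m * z ^ m)
      (iteratedDeriv k f.fn z) := hasSum_taylor (differentiableOn_iteratedDeriv f.diff k) hz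
  have h3 : ∀ m : ℕ, coeff (iteratedDeriv k f.fn) m * z ^ m
      = ((π : ℂ) * N.factorial)⁻¹ * ∫ u in ball (0 : ℂ) 1, F m u := by
    intro m
    simp only [hF]
    rw [integral_const_mul, coeff_iteratedDeriv, show m + k = (m + i) + (N + 1) by omega,
      f.coeff_eq hα (m + i)]
    ring
  simp_rw [h3] at h2
  have h4 := h2.unique (h1.mul_left _)
  rw [h4]
  congr 1
  refine setIntegral_congr_fun measurableSet_ball fun u hu => ?_
  have hu1 := mem_ball_zero_iff.mp hu
  have h5 := (hasSum_kernel k (conj_mul_norm_lt hu1 hz1)).mul_left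
    (iteratedDeriv (N + 1) f.fn u * (conj u) ^ i * (((1 - ‖u‖ ^ 2) ^ N : ℝ) : ℂ))
  rw [← h5.tsum_eq]
  refine tsum_congr fun m => ?_
  simp only [hF]
  rw [mul_pow, pow_add]
  ring

/-- Tonelli combined with the Forelli–Rudin estimate. -/
lemma lintegral_kernel_le {α : ℝ} (hα : 0 < α) {n : ℕ} (hn1 : 1 ≤ n) (hn : α < n)
    {s : Set ℂ} (hs : MeasurableSet s) (hsb : s ⊆ ball 0 1) {H : ℂ → ℝ≥0∞}
    (hH : AEMeasurable H (volume.restrict s)) :
    ∫⁻ z in ball (0 : ℂ) 1, ENNReal.ofReal ((1 - ‖z‖) ^ ((n : ℝ) - α - 1))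
      * ∫⁻ u in s, H u * ENNReal.ofReal (1 / ‖1 - conj u * z‖ ^ (n + 1))
      ≤ ENNReal.ofReal (frConst α n) * ∫⁻ u in s, H u * ENNReal.ofReal ((1 - ‖u‖) ^ (-α)) := by
  have hkm : Measurable fun q : ℂ × ℂ =>
      ENNReal.ofReal ((1 - ‖q.1‖) ^ ((n : ℝ) - α - 1)) *
        ENNReal.ofReal (1 / ‖1 - conj q.2 * q.1‖ ^ (n + 1)) := by
    have h1 : Measurable fun q : ℂ × ℂ => conj q.2 :=
      Complex.continuous_conj.measurable.comp measurable_snd
    fun_prop
  have hjoint : AEMeasurable (fun q : ℂ × ℂ => ENNReal.ofReal ((1 - ‖q.1‖) ^ ((n : ℝ) - α - 1))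
      * (H q.2 * ENNReal.ofReal (1 / ‖1 - conj q.2 * q.1‖ ^ (n + 1))))
      ((volume.restrict (ball 0 1)).prod (volume.restrict s)) := by
    have h2 : AEMeasurable (fun q : ℂ × ℂ => H q.2)
        ((volume.restrict (ball (0 : ℂ) 1)).prod (volume.restrict s)) :=
      hH.comp_quasiMeasurePreserving Measure.quasiMeasurePreserving_snd
    refine (hkm.aemeasurable.mul h2).congr (Filter.Eventually.of_forall fun q => ?_)
    simp only [Pi.mul_apply]
    ring
  calc ∫⁻ z in ball (0 : ℂ) 1, ENNReal.ofReal ((1 - ‖z‖) ^ ((n : ℝ) - α - 1))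
      * ∫⁻ u in s, H u * ENNReal.ofReal (1 / ‖1 - conj u * z‖ ^ (n + 1))
      = ∫⁻ z in ball (0 : ℂ) 1, ∫⁻ u in s, ENNReal.ofReal ((1 - ‖z‖) ^ ((n : ℝ) - α - 1))
        * (H u * ENNReal.ofReal (1 / ‖1 - conj u * z‖ ^ (n + 1))) := by
        refine lintegral_congr fun z => ?_
        rw [lintegral_const_mul' _ _ ENNReal.ofReal_ne_top]
    _ = ∫⁻ u in s, ∫⁻ z in ball (0 : ℂ) 1, ENNReal.ofReal ((1 - ‖z‖) ^ ((n : ℝ) - α - 1))
        * (H u * ENNReal.ofReal (1 / ‖1 - conj u * z‖ ^ (n + 1))) :=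
        lintegral_lintegral_swap hjoint
    _ ≤ ∫⁻ u in s, ENNReal.ofReal (frConst α n)
        * (H u * ENNReal.ofReal ((1 - ‖u‖) ^ (-α))) := by
        refine setLIntegral_mono_ae' hs (Filter.Eventually.of_forall fun u hu => ?_)
        have hu1 : ‖conj u‖ < 1 := by
          rw [Complex.norm_conj]
          exact mem_ball_zero_iff.mp (hsb hu)
        have h := forelliRudin hα hn1 hn hu1
        have hfr := (frConst_pos hα hn).le
        calc ∫⁻ z in ball (0 : ℂ) 1, ENNReal.ofReal ((1 - ‖z‖) ^ ((n : ℝ) - α - 1))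
              * (H u * ENNReal.ofReal (1 / ‖1 - conj u * z‖ ^ (n + 1)))
            = ∫⁻ z in ball (0 : ℂ) 1, H u * ENNReal.ofReal
              ((1 - ‖z‖) ^ ((n : ℝ) - α - 1) / ‖1 - conj u * z‖ ^ (n + 1)) := by
              refine setLIntegral_congr_fun measurableSet_ball fun z hz => ?_
              have hw : 0 ≤ (1 - ‖z‖) ^ ((n : ℝ) - α - 1) :=
                rpow_nonneg (one_sub_norm_pos hz).le _
              rw [div_eq_mul_one_div ((1 - ‖z‖) ^ ((n : ℝ) - α - 1)), ENNReal.ofReal_mul hw]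
              ring
          _ = H u * ∫⁻ z in ball (0 : ℂ) 1, ENNReal.ofReal
              ((1 - ‖z‖) ^ ((n : ℝ) - α - 1) / ‖1 - conj u * z‖ ^ (n + 1)) := by
              refine lintegral_const_mul _ ?_
              fun_prop
          _ ≤ H u * ENNReal.ofReal (frConst α n * (1 - ‖conj u‖) ^ (-α)) := by gcongr
          _ = ENNReal.ofReal (frConst α n)
              * (H u * ENNReal.ofReal ((1 - ‖u‖) ^ (-α))) := by
              rw [Complex.norm_conj, ENNReal.ofReal_mul hfr]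
              ring
    _ = _ := lintegral_const_mul' _ _ ENNReal.ofReal_ne_top

end Pool.Agent.Lib.MP_d3a69a_an
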