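import Mathlib
import Pool.Agent.Lib.MP_d3a69a_an.Repro

open MeasureTheory Metric Set Real Polynomial
open scoped ENNReal ComplexConjugate

noncomputable section

namespace Pool.Agent.Lib.MP_d3a69a_an

/-- The weight `|F(u) u^i (1-|u|^2)^N|` as an extended nonnegative number. -/
def hFun {α : ℝ} {N : ℕ} (f : Besov α (N + 1)) (i : ℕ) (u : ℂ) : ℝ≥0∞ :=
  ‖iteratedDeriv (N + 1) f.fn u * (conj u) ^ i * (((1 - ‖u‖ ^ 2) ^ N : ℝ) : ℂ)‖ₑ

lemma hFun_aemeasurable {α : ℝ} {N : ℕ} (f : Besov α (N + 1)) (i : ℕ) :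
    AEMeasurable (hFun f i) (volume.restrict (ball 0 1)) := by
  have : ContinuousOn (fun u : ℂ => iteratedDeriv (N + 1) f.fn u * (conj u) ^ i
      * (((1 - ‖u‖ ^ 2) ^ N : ℝ) : ℂ)) (ball 0 1) := by
    refine ((f.contOn (N + 1)).mul ?_).mul ?_
    · exact (Complex.continuous_conj.pow i).continuousOn
    · refine Continuous.continuousOn ?_
      fun_prop
  exact (this.aestronglyMeasurable measurableSet_ball).enorm

lemma hFun_le {α : ℝ} (hα : 0 ≤ α) {N : ℕ} (f : Besov α (N + 1)) (i : ℕ) {u : ℂ}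
    (hu : u ∈ ball (0 : ℂ) 1) :
    hFun f i u * ENNReal.ofReal ((1 - ‖u‖) ^ (-α))
      ≤ ENNReal.ofReal (2 ^ N) * ENNReal.ofReal (besovDensity α (N + 1) f.fn u) := by
  have hu1 := mem_ball_zero_iff.mp hu
  have h0 := one_sub_norm_pos hu
  have h4 := one_sub_sq_nonneg hu1
  have h1 := f.kernel_bound hα hu
  have h3 : ‖u‖ ^ i ≤ 1 := pow_le_one₀ (norm_nonneg _) hu1.le
  rw [hFun, ← ofReal_norm, ← ENNReal.ofReal_mul (norm_nonneg _),
    ← ENNReal.ofReal_mul (by positivity)]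
  refine ENNReal.ofReal_le_ofReal ?_
  rw [norm_mul, norm_mul, norm_pow, Complex.norm_conj, Complex.norm_real,
    Real.norm_of_nonneg (by positivity)]
  have h5 : (1 - ‖u‖) ^ α * (1 - ‖u‖) ^ (-α) = 1 := by
    rw [← rpow_add h0, add_neg_cancel, rpow_zero]
  calc ‖iteratedDeriv (N + 1) f.fn u‖ * ‖u‖ ^ i * (1 - ‖u‖ ^ 2) ^ N * (1 - ‖u‖) ^ (-α)
      = (‖iteratedDeriv (N + 1) f.fn u‖ * (1 - ‖u‖ ^ 2) ^ N) * (1 - ‖u‖) ^ (-α) * ‖u‖ ^ i := by
        ring
    _ ≤ (‖iteratedDeriv (N + 1) f.fn u‖ * (1 - ‖u‖ ^ 2) ^ N) * (1 - ‖u‖) ^ (-α) * 1 := by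
        have : 0 ≤ (1 - ‖u‖) ^ (-α) := rpow_nonneg h0.le _
        gcongr
    _ ≤ (2 ^ N * (1 - ‖u‖) ^ α * besovDensity α (N + 1) f.fn u) * (1 - ‖u‖) ^ (-α) := by
        have : 0 ≤ (1 - ‖u‖) ^ (-α) := rpow_nonneg h0.le _
        rw [mul_one]
        gcongr
    _ = 2 ^ N * besovDensity α (N + 1) f.fn u * ((1 - ‖u‖) ^ α * (1 - ‖u‖) ^ (-α)) := by ring
    _ = _ := by rw [h5, mul_one]

lemma lintegral_density {α : ℝ} {N : ℕ} (f : Besov α (N + 1)) {s : Set ℂ}
    (hs : MeasurableSet s) (hsb : s ⊆ ball 0 1) :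
    ∫⁻ u in s, ENNReal.ofReal (besovDensity α (N + 1) f.fn u)
      = ENNReal.ofReal (∫ u in s, besovDensity α (N + 1) f.fn u) := by
  rw [ofReal_integral_eq_lintegral_ofReal (f.integrableOn.mono_set hsb)]
  filter_upwards [ae_restrict_mem hs] with z hz using besovDensity_nonneg _ (hsb hz)

lemma lintegral_hFun_le {α : ℝ} (hα : 0 < α) {N : ℕ} (f : Besov α (N + 1)) (i : ℕ)
    {n : ℕ} (hn1 : 1 ≤ n) (hn : α < n) {s : Set ℂ} (hs : MeasurableSet s) (hsb : s ⊆ ball 0 1) :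
    ∫⁻ z in ball (0 : ℂ) 1, ENNReal.ofReal ((1 - ‖z‖) ^ ((n : ℝ) - α - 1))
      * ∫⁻ u in s, hFun f i u * ENNReal.ofReal (1 / ‖1 - conj u * z‖ ^ (n + 1))
      ≤ ENNReal.ofReal (frConst α n * 2 ^ N * ∫ u in s, besovDensity α (N + 1) f.fn u) := by
  have hfr := (frConst_pos hα hn).le
  refine (lintegral_kernel_le hα hn1 hn hs hsb
    ((hFun_aemeasurable f i).mono_measure (Measure.restrict_mono_set _ hsb))).trans ?_
  have h1 : ∫⁻ u in s, hFun f i u * ENNReal.ofReal ((1 - ‖u‖) ^ (-α))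
      ≤ ENNReal.ofReal (2 ^ N) * ENNReal.ofReal (∫ u in s, besovDensity α (N + 1) f.fn u) := by
    rw [← lintegral_density f hs hsb, ← lintegral_const_mul' _ _ ENNReal.ofReal_ne_top]
    exact setLIntegral_mono_ae' hs
      (Filter.Eventually.of_forall fun u hu => hFun_le hα.le f i (hsb hu))
  rw [mul_assoc, ENNReal.ofReal_mul hfr, ENNReal.ofReal_mul (by positivity)]
  gcongr

/-- Pointwise bound for the kernel integral. -/
lemma enorm_kernel_integral_le {α : ℝ} {N : ℕ} (f : Besov α (N + 1)) (i : ℕ) (s : Set ℂ) (k : ℕ)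
    (z : ℂ) :
    ‖((π : ℂ) * N.factorial)⁻¹ * ∫ u in s,
      iteratedDeriv (N + 1) f.fn u * (conj u) ^ i * (((1 - ‖u‖ ^ 2) ^ N : ℝ) : ℂ)
        * ((k.factorial : ℂ) / (1 - conj u * z) ^ (k + 1))‖ₑ
      ≤ ENNReal.ofReal ((π * N.factorial)⁻¹ * k.factorial)
        * ∫⁻ u in s, hFun f i u * ENNReal.ofReal (1 / ‖1 - conj u * z‖ ^ (k + 1)) := by
  have h9 : ‖((π : ℂ) * N.factorial)⁻¹‖ = (π * N.factorial)⁻¹ := by
    rw [norm_inv, norm_mul, Complex.norm_real, Complex.norm_natCast,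
      Real.norm_of_nonneg pi_pos.le]
  have hfac : (0 : ℝ) < N.factorial := by exact_mod_cast Nat.factorial_pos N
  have hpos : 0 ≤ (π * N.factorial : ℝ)⁻¹ := by positivity
  rw [enorm_mul, ← ofReal_norm, h9, ENNReal.ofReal_mul hpos, mul_assoc]
  gcongr
  refine (enorm_integral_le_lintegral_enorm _).trans (le_of_eq ?_)
  rw [← lintegral_const_mul' _ _ ENNReal.ofReal_ne_top]
  refine lintegral_congr fun u => ?_
  have h1 : ‖(k.factorial : ℂ) / (1 - conj u * z) ^ (k + 1)‖ₑ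
      = ENNReal.ofReal (k.factorial) * ENNReal.ofReal (1 / ‖1 - conj u * z‖ ^ (k + 1)) := by
    rw [← ofReal_norm, norm_div, norm_pow, Complex.norm_natCast,
      ← ENNReal.ofReal_mul (by positivity), mul_one_div]
  rw [enorm_mul, h1, hFun]
  ring

/-- Higher derivatives are controlled by the Besov norm. -/
lemma Besov.higher {α : ℝ} (hα : 0 < α) {N : ℕ} (hN : α < (N + 1 : ℕ)) (i : ℕ) :
    ∃ C : ℝ, 0 < C ∧ ∀ f : Besov α (N + 1),
      IntegrableOn (besovDensity α (N + 1 + i) f.fn) (ball 0 1) ∧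
      ∫ z in ball (0 : ℂ) 1, besovDensity α (N + 1 + i) f.fn z ≤ C * ‖f‖ := by
  have hfac : (0 : ℝ) < N.factorial := by exact_mod_cast Nat.factorial_pos N
  have hk1 : 1 ≤ N + 1 + i := by omega
  have hk : α < (N + 1 + i : ℕ) := by
    push_cast at hN ⊢
    have : (0 : ℝ) ≤ i := Nat.cast_nonneg i
    linarith
  have hfr := frConst_pos hα hk
  have hkf : (0 : ℝ) < (N + 1 + i).factorial := by exact_mod_cast Nat.factorial_pos _
  refine ⟨((π * N.factorial)⁻¹ * (N + 1 + i).factorial) * (frConst α (N + 1 + i) * 2 ^ N),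
    by positivity, fun f => ?_⟩
  have hnn : ∀ᵐ z ∂(volume.restrict (ball (0 : ℂ) 1)),
      0 ≤ besovDensity α (N + 1 + i) f.fn z := by
    filter_upwards [ae_restrict_mem measurableSet_ball] with z hz using besovDensity_nonneg _ hz
  have hI : 0 ≤ ∫ u in ball (0 : ℂ) 1, besovDensity α (N + 1) f.fn u :=
    setIntegral_nonneg measurableSet_ball fun z hz => besovDensity_nonneg _ hz
  have hmain : ∫⁻ z in ball (0 : ℂ) 1, ENNReal.ofReal (besovDensity α (N + 1 + i) f.fn z)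
      ≤ ENNReal.ofReal (((π * N.factorial)⁻¹ * (N + 1 + i).factorial)
        * (frConst α (N + 1 + i) * 2 ^ N) * ‖f‖) := by
    calc ∫⁻ z in ball (0 : ℂ) 1, ENNReal.ofReal (besovDensity α (N + 1 + i) f.fn z)
        ≤ ∫⁻ z in ball (0 : ℂ) 1, ENNReal.ofReal ((π * N.factorial)⁻¹ * (N + 1 + i).factorial)
          * (ENNReal.ofReal ((1 - ‖z‖) ^ (((N + 1 + i : ℕ) : ℝ) - α - 1))
          * ∫⁻ u in ball (0 : ℂ) 1, hFun f i u
            * ENNReal.ofReal (1 / ‖1 - conj u * z‖ ^ (N + 1 + i + 1))) := by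
          refine setLIntegral_mono_ae' measurableSet_ball
            (Filter.Eventually.of_forall fun z hz => ?_)
          have h1 := enorm_kernel_integral_le f i (ball 0 1) (N + 1 + i) z
          rw [← f.repro hα.le i hz] at h1
          rw [besovDensity, ENNReal.ofReal_mul (norm_nonneg _), ofReal_norm]
          calc _ ≤ _ := mul_le_mul_left h1 _
            _ = _ := by ring
      _ = ENNReal.ofReal ((π * N.factorial)⁻¹ * (N + 1 + i).factorial)
          * ∫⁻ z in ball (0 : ℂ) 1, (ENNReal.ofReal ((1 - ‖z‖) ^ (((N + 1 + i : ℕ) : ℝ) - α - 1))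
          * ∫⁻ u in ball (0 : ℂ) 1, hFun f i u
            * ENNReal.ofReal (1 / ‖1 - conj u * z‖ ^ (N + 1 + i + 1))) :=
          lintegral_const_mul' _ _ ENNReal.ofReal_ne_top
      _ ≤ ENNReal.ofReal ((π * N.factorial)⁻¹ * (N + 1 + i).factorial)
          * ENNReal.ofReal (frConst α (N + 1 + i) * 2 ^ N
            * ∫ u in ball (0 : ℂ) 1, besovDensity α (N + 1) f.fn u) := by
          gcongr
          exact lintegral_hFun_le hα f i hk1 hk measurableSet_ball subset_rfl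
      _ ≤ ENNReal.ofReal ((π * N.factorial)⁻¹ * (N + 1 + i).factorial)
          * ENNReal.ofReal (frConst α (N + 1 + i) * 2 ^ N * ‖f‖) := by
          gcongr
          exact f.integral_le_norm
      _ = _ := by
          rw [← ENNReal.ofReal_mul (by positivity)]
          congr 1
          ring
  have hmeas : AEStronglyMeasurable (besovDensity α (N + 1 + i) f.fn)
      (volume.restrict (ball 0 1)) :=
    ((f.contOn (N + 1 + i)).norm.aestronglyMeasurable measurableSet_ball).mul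
      (measurable_weight _).aestronglyMeasurable
  have hint : IntegrableOn (besovDensity α (N + 1 + i) f.fn) (ball 0 1) := by
    refine ⟨hmeas, ?_⟩
    rw [hasFiniteIntegral_iff_ofReal hnn]
    exact lt_of_le_of_lt hmain ENNReal.ofReal_lt_top
  refine ⟨hint, ?_⟩
  rw [← ENNReal.ofReal_le_ofReal_iff (by positivity), ofReal_integral_eq_lintegral_ofReal hint hnn]
  exact hmain

end Pool.Agent.Lib.MP_d3a69a_an
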