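import Mathlib
import Pool.Agent.Lib.MP_d3a69a_an.Higher

open MeasureTheory Metric Set Real Polynomial
open scoped ENNReal ComplexConjugate

noncomputable section

namespace Pool.Agent.Lib.MP_d3a69a_an

/-- An antiderivative polynomial of order `n` with prescribed first coefficients. -/
lemma exists_antideriv (Q : ℂ[X]) (n : ℕ) (a : ℕ → ℂ) :
    ∃ p : ℂ[X], derivative^[n] p = Q ∧ ∀ j < n, p.coeff j = a j := by
  classical
  set c : ℕ → ℂ := fun k => if k < n then a k
    else Q.coeff (k - n) * ((k - n).factorial / (k.factorial : ℂ)) with hc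
  set p : ℂ[X] := ∑ k ∈ Finset.range (n + Q.natDegree + 1), C (c k) * X ^ k with hp
  have hpc : ∀ k, p.coeff k = if k < n + Q.natDegree + 1 then c k else 0 := by
    intro k
    rw [hp, finsetSum_coeff]
    simp only [coeff_C_mul_X_pow]
    simp [Finset.sum_ite_eq]
  refine ⟨p, ?_, fun j hj => ?_⟩
  · ext m
    rw [coeff_iterate_derivative, hpc]
    by_cases hm : m + n < n + Q.natDegree + 1
    · rw [if_pos hm]
      have h1 : ¬ (m + n < n) := by omega
      simp only [hc, if_neg h1, Nat.add_sub_cancel]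
      have h2 : ((m + n).descFactorial n : ℂ) * (m.factorial : ℂ) = ((m + n).factorial : ℂ) := by
        have := Nat.factorial_mul_descFactorial (n := m + n) (k := n) (by omega)
        rw [Nat.add_sub_cancel] at this
        rw [mul_comm]
        exact_mod_cast this
      have h3 : ((m + n).factorial : ℂ) ≠ 0 := by exact_mod_cast Nat.factorial_ne_zero _
      rw [nsmul_eq_mul]
      field_simp
      rw [← h2]
      ring
    · rw [if_neg hm, smul_zero, coeff_eq_zero_of_natDegree_lt (by omega)]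
  · rw [hpc, if_pos (by omega)]
    simp only [hc, if_pos hj]

/-- Uniform approximation of the kernel by its Taylor polynomials. -/
lemma kernel_approx (k : ℕ) {r : ℝ} (hr0 : 0 ≤ r) (hr1 : r < 1) {ε : ℝ} (hε : 0 < ε) :
    ∃ J₀ : ℕ, ∀ J ≥ J₀, ∀ w : ℂ, ‖w‖ ≤ r →
      ‖(k.factorial : ℂ) / (1 - w) ^ (k + 1)
        - ∑ m ∈ Finset.range J, ((m + k).factorial : ℂ) / (m.factorial : ℂ) * w ^ m‖ ≤ ε := by
  have hs := summable_kernel_norm k hr0 hr1
  have ht := tendsto_sum_nat_add (fun m : ℕ => ((m + k).factorial : ℝ) / (m.factorial : ℝ) * r ^ m)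
  obtain ⟨J₀, hJ₀⟩ := (Filter.eventually_atTop).mp (ht.eventually (Iio_mem_nhds hε))
  refine ⟨J₀, fun J hJ w hw => ?_⟩
  have hw1 : ‖w‖ < 1 := lt_of_le_of_lt hw hr1
  have h1 : HasSum (fun m : ℕ => ((m + J + k).factorial : ℂ) / ((m + J).factorial : ℂ)
      * w ^ (m + J)) ((k.factorial : ℂ) / (1 - w) ^ (k + 1)
        - ∑ m ∈ Finset.range J, ((m + k).factorial : ℂ) / (m.factorial : ℂ) * w ^ m) :=
    (hasSum_nat_add_iff' (f := fun m : ℕ => ((m + k).factorial : ℂ) / (m.factorial : ℂ) * w ^ m)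
      J).mpr (hasSum_kernel k hw1)
  rw [← h1.tsum_eq]
  have h2 : HasSum (fun m : ℕ => ((m + J + k).factorial : ℝ) / ((m + J).factorial : ℝ)
      * r ^ (m + J)) (∑' m : ℕ, ((m + J + k).factorial : ℝ) / ((m + J).factorial : ℝ)
      * r ^ (m + J)) := ((summable_nat_add_iff J).mpr hs).hasSum
  refine (tsum_of_norm_bounded h2 fun m => ?_).trans (hJ₀ J hJ).le
  rw [norm_mul, norm_div, norm_pow, Complex.norm_natCast, Complex.norm_natCast]
  gcongr

/-- The Besov norm of `f - p` when the low order coefficients agree. -/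
lemma norm_sub_polyB {α : ℝ} (hα : 0 < α) {n : ℕ} (hn : α < n) (f : Besov α n) (p : ℂ[X])
    (h : ∀ j < n, p.coeff j = coeff f.fn j) :
    ‖f - polyB hα hn p‖ = ∫ z in ball (0 : ℂ) 1,
      ‖iteratedDeriv n f.fn z - (derivative^[n] p).eval z‖ * (1 - ‖z‖) ^ ((n : ℝ) - α - 1) := by
  have hfn : (f - polyB hα hn p).fn = f.fn + (-1 : ℂ) • polyFn p := by
    rw [sub_eq_add_neg, ← neg_one_smul ℂ (polyB hα hn p), Besov.fn_add, Besov.fn_smul, polyB_fn]
  have hder : ∀ (j : ℕ) (z : ℂ), z ∈ ball (0 : ℂ) 1 → iteratedDeriv j (f - polyB hα hn p).fn z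
      = iteratedDeriv j f.fn z - (derivative^[j] p).eval z := by
    intro j z hz
    rw [hfn, iteratedDeriv_add_on f.diff
      ((polyFn_mem p).1.const_smul (-1 : ℂ)) j hz,
      iteratedDeriv_smul_on (polyFn_mem p).1 _ j hz, iteratedDeriv_polyFn p j hz]
    ring
  rw [Besov.norm_def]
  have h0 : ∑ j ∈ Finset.range n, ‖iteratedDeriv j (f - polyB hα hn p).fn 0‖ = 0 := by
    refine Finset.sum_eq_zero fun j hj => ?_
    rw [hder j 0 (by simp), norm_eq_zero, sub_eq_zero, ← iteratedDeriv_polyFn p j (by simp)]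
    have h1 := h j (Finset.mem_range.mp hj)
    rw [← coeff_polyFn, coeff, coeff] at h1
    have h2 : (j.factorial : ℂ) ≠ 0 := by exact_mod_cast Nat.factorial_ne_zero j
    field_simp at h1
    exact h1.symm
  rw [h0, add_zero]
  refine setIntegral_congr_fun measurableSet_ball fun z hz => ?_
  simp only [besovDensity]
  rw [hder n z hz]

lemma exists_small_annulus {g : ℂ → ℝ} (hg : IntegrableOn g (ball 0 1)) {ε : ℝ} (hε : 0 < ε) :
    ∃ r : ℝ, 0 < r ∧ r < 1 ∧ ∫ z in ball (0 : ℂ) 1 \ ball 0 r, g z < ε := by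
  set s : ℕ → Set ℂ := fun m => ball (0 : ℂ) 1 \ ball 0 (1 - 1 / ((m : ℝ) + 2)) with hs
  have hm : ∀ m, MeasurableSet (s m) := fun m => measurableSet_ball.diff measurableSet_ball
  have hanti : Antitone s := by
    intro m m' hmm
    refine sdiff_subset_sdiff_right (ball_subset_ball ?_)
    have h1 : (m : ℝ) ≤ m' := by exact_mod_cast hmm
    have h2 : 1 / ((m' : ℝ) + 2) ≤ 1 / ((m : ℝ) + 2) := by
      apply one_div_le_one_div_of_le (by positivity)
      linarith
    linarith
  have h := tendsto_setIntegral_of_antitone hm hanti ⟨0, hg.mono_set sdiff_subset⟩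
  have hempty : ⋂ m, s m = ∅ := by
    ext z
    simp only [hs, mem_iInter, mem_sdiff, mem_empty_iff_false, iff_false, not_forall]
    by_cases hz : z ∈ ball (0 : ℂ) 1
    · have h0 := one_sub_norm_pos hz
      obtain ⟨m, hm⟩ := exists_nat_gt (1 / (1 - ‖z‖))
      refine ⟨m, fun hmm => hmm.2 ?_⟩
      rw [mem_ball_zero_iff]
      have h1 : 1 / ((m : ℝ) + 2) < 1 - ‖z‖ := by
        rw [div_lt_iff₀ (by positivity)]
        rw [div_lt_iff₀ h0] at hm
        nlinarith
      linarith
    · exact ⟨0, fun hmm => hz hmm.1⟩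
  rw [hempty, setIntegral_empty] at h
  obtain ⟨m, hm⟩ := (h.eventually (Iio_mem_nhds hε)).exists
  refine ⟨1 - 1 / ((m : ℝ) + 2), ?_, ?_, hm⟩
  · have : 1 / ((m : ℝ) + 2) < 1 := by
      rw [div_lt_one (by positivity)]
      have : (0 : ℝ) ≤ m := Nat.cast_nonneg m
      linarith
    linarith
  · have : 0 < 1 / ((m : ℝ) + 2) := by positivity
    linarith

lemma Besov.kernel_bound' {α : ℝ} (hα : 0 ≤ α) {N : ℕ} (f : Besov α (N + 1)) {u : ℂ}
    (hu : u ∈ ball (0 : ℂ) 1) :
    ‖iteratedDeriv (N + 1) f.fn u * (((1 - ‖u‖ ^ 2) ^ N : ℝ) : ℂ)‖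
      ≤ 2 ^ N * besovDensity α (N + 1) f.fn u := by
  have hu1 := mem_ball_zero_iff.mp hu
  have h0 := one_sub_norm_pos hu
  have h4 := one_sub_sq_nonneg hu1
  have h1 := f.kernel_bound hα hu
  have h2 : (1 - ‖u‖) ^ α ≤ 1 := rpow_le_one h0.le (by linarith [norm_nonneg u]) hα
  have h5 := besovDensity_nonneg (α := α) (n := N + 1) f.fn hu
  rw [norm_mul, Complex.norm_real, Real.norm_of_nonneg (by positivity)]
  calc _ ≤ _ := h1
    _ ≤ 2 ^ N * 1 * besovDensity α (N + 1) f.fn u := by gcongr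
    _ = _ := by ring

lemma Besov.kernel_integrable {α : ℝ} (hα : 0 ≤ α) {N : ℕ} (f : Besov α (N + 1)) {K : ℂ → ℂ}
    (hK : ContinuousOn K (ball 0 1)) {B : ℝ} (hB : ∀ u ∈ ball (0 : ℂ) 1, ‖K u‖ ≤ B) :
    IntegrableOn (fun u => iteratedDeriv (N + 1) f.fn u * (((1 - ‖u‖ ^ 2) ^ N : ℝ) : ℂ) * K u)
      (ball 0 1) := by
  refine f.integrable_of_le ?_ (2 ^ N * B) fun u hu => ?_
  · refine ((f.contOn (N + 1)).mul ?_).mul hK
    refine Continuous.continuousOn ?_
    fun_prop
  · have h1 := f.kernel_bound' hα hu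
    have h2 := hB u hu
    have h5 := besovDensity_nonneg (α := α) (n := N + 1) f.fn hu
    rw [norm_mul]
    calc _ ≤ (2 ^ N * besovDensity α (N + 1) f.fn u) * B := by gcongr
      _ = _ := by ring

/-- Polynomials are dense in the Besov space. -/
theorem Besov.dense_polyB {α : ℝ} (hα : 0 < α) {N : ℕ} (hN : α < (N + 1 : ℕ)) :
    DenseRange (polyB hα hN) := by
  rw [Metric.denseRange_iff]
  intro f ε hε
  have hfac : (0 : ℝ) < N.factorial := by exact_mod_cast Nat.factorial_pos N
  have hfac1 : (0 : ℝ) < (N + 1).factorial := by exact_mod_cast Nat.factorial_pos (N + 1)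
  have hfr := frConst_pos hα hN
  set A : ℝ := (π * N.factorial)⁻¹ with hA
  have hApos : 0 < A := by positivity
  set c₁ : ℝ := A * (N + 1).factorial * (frConst α (N + 1) * 2 ^ N) with hc₁
  have hc₁pos : 0 < c₁ := by positivity
  obtain ⟨r, hr0, hr1, hr⟩ := exists_small_annulus f.integrableOn
    (show 0 < ε / (3 * c₁) by positivity)
  have hsub : ball (0 : ℂ) r ⊆ ball 0 1 := ball_subset_ball hr1.le
  set G : ℂ → ℂ := fun u => iteratedDeriv (N + 1) f.fn u * (((1 - ‖u‖ ^ 2) ^ N : ℝ) : ℂ) with hG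
  have hGi : IntegrableOn G (ball 0 1) := by
    have := f.kernel_integrable hα.le (K := fun _ => 1) continuousOn_const (B := 1)
      (fun u _ => by simp)
    simpa [hG] using this
  set I₀ : ℝ := ∫ u in ball (0 : ℂ) 1, ‖G u‖ with hI₀
  have hI₀0 : 0 ≤ I₀ := integral_nonneg fun _ => norm_nonneg _
  set W : ℝ := ∫ z in ball (0 : ℂ) 1, (1 - ‖z‖) ^ (((N + 1 : ℕ) : ℝ) - α - 1) with hW
  have hwi := integrableOn_weight hα (n := N + 1) (by omega) hN
  have hW0 : 0 ≤ W := setIntegral_nonneg measurableSet_ball fun z hz =>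
    rpow_nonneg (one_sub_norm_pos hz).le _
  set η : ℝ := ε / (3 * (A * I₀ * W + 1)) with hη
  have hηpos : 0 < η := by positivity
  obtain ⟨J, hJ⟩ := kernel_approx (N + 1) hr0.le hr1 hηpos
  have hJ := hJ J le_rfl
  set d : ℕ → ℂ := fun m => ((m + (N + 1)).factorial : ℂ) / (m.factorial : ℂ)
    * (((π : ℂ) * N.factorial)⁻¹ * ∫ u in ball (0 : ℂ) r, G u * (conj u) ^ m) with hd
  set Q : ℂ[X] := ∑ m ∈ Finset.range J, C (d m) * X ^ m with hQ
  obtain ⟨p, hpQ, hpc⟩ := exists_antideriv Q (N + 1) (coeff f.fn)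
  refine ⟨p, ?_⟩
  rw [dist_eq_norm, norm_sub_polyB hα hN f p hpc, hpQ]
  have hGm : ∀ m, IntegrableOn (fun u => G u * (conj u) ^ m) (ball 0 1) := fun m =>
    f.kernel_integrable hα.le (K := fun u => (conj u) ^ m)
      (Complex.continuous_conj.pow m).continuousOn (B := 1) (fun u hu => by
        rw [norm_pow, Complex.norm_conj]
        exact pow_le_one₀ (norm_nonneg _) (mem_ball_zero_iff.mp hu).le)
  -- the two error terms
  set T1 : ℂ → ℂ := fun z => ((π : ℂ) * N.factorial)⁻¹ * ∫ u in ball (0 : ℂ) 1 \ ball 0 r,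
      iteratedDeriv (N + 1) f.fn u * (conj u) ^ 0 * (((1 - ‖u‖ ^ 2) ^ N : ℝ) : ℂ)
        * (((N + 1).factorial : ℂ) / (1 - conj u * z) ^ (N + 1 + 1)) with hT1
  set T2 : ℂ → ℂ := fun z => ((π : ℂ) * N.factorial)⁻¹ * ∫ u in ball (0 : ℂ) r,
      G u * (((N + 1).factorial : ℂ) / (1 - conj u * z) ^ (N + 1 + 1)
        - ∑ m ∈ Finset.range J, ((m + (N + 1)).factorial : ℂ) / (m.factorial : ℂ)
          * (conj u * z) ^ m) with hT2
  have hsplit : ∀ z ∈ ball (0 : ℂ) 1,
      iteratedDeriv (N + 1) f.fn z - Q.eval z = T1 z + T2 z := by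
    intro z hz
    have hz1 := mem_ball_zero_iff.mp hz
    have hz0 := one_sub_norm_pos hz
    have hKi : IntegrableOn (fun u => G u * (((N + 1).factorial : ℂ)
        / (1 - conj u * z) ^ (N + 1 + 1))) (ball 0 1) := by
      refine f.kernel_integrable hα.le (K := fun u => (((N + 1).factorial : ℂ)
        / (1 - conj u * z) ^ (N + 1 + 1))) ?_ (B := (N + 1).factorial / (1 - ‖z‖) ^ (N + 1 + 1))
        fun u hu => ?_
      · refine continuousOn_const.div ?_ fun u hu => ?_
        · refine Continuous.continuousOn ?_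
          have := Complex.continuous_conj
          fun_prop
        · exact pow_ne_zero _ (one_sub_ne_zero_of_norm
            (conj_mul_norm_lt (mem_ball_zero_iff.mp hu) hz1))
      · rw [norm_div, norm_pow, Complex.norm_natCast]
        have h1 : 1 - ‖z‖ ≤ ‖1 - conj u * z‖ := by
          have h2 : ‖conj u * z‖ ≤ ‖z‖ := by
            rw [norm_mul, Complex.norm_conj]
            have := (mem_ball_zero_iff.mp hu).le
            exact mul_le_of_le_one_left (norm_nonneg z) this
          have h3 := norm_sub_norm_le (1 : ℂ) (conj u * z)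
          rw [norm_one] at h3
          linarith
        gcongr
    have hrep := f.repro hα.le 0 hz
    rw [add_zero] at hrep
    have e1 : ∀ u : ℂ, iteratedDeriv (N + 1) f.fn u * (conj u) ^ 0
        * (((1 - ‖u‖ ^ 2) ^ N : ℝ) : ℂ) * (((N + 1).factorial : ℂ)
        / (1 - conj u * z) ^ (N + 1 + 1))
        = G u * (((N + 1).factorial : ℂ) / (1 - conj u * z) ^ (N + 1 + 1)) := by
      intro u
      rw [pow_zero, mul_one]
    simp only [e1] at hrep
    have hQz : Q.eval z = ((π : ℂ) * N.factorial)⁻¹ * ∫ u in ball (0 : ℂ) r,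
        G u * ∑ m ∈ Finset.range J, ((m + (N + 1)).factorial : ℂ) / (m.factorial : ℂ)
          * (conj u * z) ^ m := by
      have e2 : ∀ u : ℂ, G u * ∑ m ∈ Finset.range J,
          ((m + (N + 1)).factorial : ℂ) / (m.factorial : ℂ) * (conj u * z) ^ m
          = ∑ m ∈ Finset.range J, (((m + (N + 1)).factorial : ℂ) / (m.factorial : ℂ) * z ^ m)
            * (G u * (conj u) ^ m) := by
        intro u
        rw [Finset.mul_sum]
        refine Finset.sum_congr rfl fun m _ => ?_
        rw [mul_pow]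
        ring
      simp_rw [e2]
      rw [integral_finsetSum _ fun m _ => ((hGm m).mono_set hsub).const_mul _, hQ,
        eval_finsetSum, Finset.mul_sum]
      refine Finset.sum_congr rfl fun m _ => ?_
      rw [integral_const_mul]
      simp only [eval_mul, eval_C, eval_pow, eval_X, hd]
      ring
    have hSi : IntegrableOn (fun u => G u * ∑ m ∈ Finset.range J,
        ((m + (N + 1)).factorial : ℂ) / (m.factorial : ℂ) * (conj u * z) ^ m) (ball 0 1) := by
      have e2 : ∀ u : ℂ, G u * ∑ m ∈ Finset.range J,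
          ((m + (N + 1)).factorial : ℂ) / (m.factorial : ℂ) * (conj u * z) ^ m
          = ∑ m ∈ Finset.range J, (((m + (N + 1)).factorial : ℂ) / (m.factorial : ℂ) * z ^ m)
            * (G u * (conj u) ^ m) := by
        intro u
        rw [Finset.mul_sum]
        refine Finset.sum_congr rfl fun m _ => ?_
        rw [mul_pow]
        ring
      simp_rw [e2]
      exact integrable_finsetSum _ fun m _ => (hGm m).const_mul _
    rw [hrep, hQz]
    simp only [hT1, hT2, e1]
    simp_rw [mul_sub]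
    rw [setIntegral_sdiff measurableSet_ball hKi hsub,
      integral_sub (hKi.mono_set hsub) (hSi.mono_set hsub)]
    ring
  have hT2b : ∀ z ∈ ball (0 : ℂ) 1, ‖T2 z‖ ≤ A * η * I₀ := by
    intro z hz
    have hz1 := mem_ball_zero_iff.mp hz
    have h9 : ‖((π : ℂ) * N.factorial)⁻¹‖ = A := by
      rw [norm_inv, norm_mul, Complex.norm_real, Complex.norm_natCast,
        Real.norm_of_nonneg pi_pos.le]
    simp only [hT2]
    rw [norm_mul, h9, mul_assoc]
    refine mul_le_mul_of_nonneg_left ?_ hApos.le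
    have h1 : ∫ u in ball (0 : ℂ) r, η * ‖G u‖ ≤ η * I₀ := by
      rw [integral_const_mul]
      refine mul_le_mul_of_nonneg_left ?_ hηpos.le
      refine setIntegral_mono_set hGi.norm ?_ hsub.eventuallyLE
      exact Filter.Eventually.of_forall fun _ => norm_nonneg _
    refine le_trans (norm_integral_le_of_norm_le ((hGi.mono_set hsub).norm.const_mul η) ?_) h1
    filter_upwards [ae_restrict_mem measurableSet_ball] with u hu
    have hur := mem_ball_zero_iff.mp hu
    rw [norm_mul, mul_comm]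
    refine mul_le_mul_of_nonneg_right (hJ _ ?_) (norm_nonneg _)
    rw [norm_mul, Complex.norm_conj]
    have := norm_nonneg u
    nlinarith
  -- conclude
  have hfin : ∫⁻ z in ball (0 : ℂ) 1, ENNReal.ofReal
      ‖‖iteratedDeriv (N + 1) f.fn z - Q.eval z‖ * (1 - ‖z‖) ^ (((N + 1 : ℕ) : ℝ) - α - 1)‖
      ≤ ENNReal.ofReal (ε / 3 + ε / 3) := by
    calc ∫⁻ z in ball (0 : ℂ) 1, ENNReal.ofReal
            ‖‖iteratedDeriv (N + 1) f.fn z - Q.eval z‖ * (1 - ‖z‖) ^ (((N + 1 : ℕ) : ℝ) - α - 1)‖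
        ≤ ∫⁻ z in ball (0 : ℂ) 1, (ENNReal.ofReal (A * (N + 1).factorial)
          * (ENNReal.ofReal ((1 - ‖z‖) ^ (((N + 1 : ℕ) : ℝ) - α - 1))
          * ∫⁻ u in ball (0 : ℂ) 1 \ ball 0 r, hFun f 0 u
            * ENNReal.ofReal (1 / ‖1 - conj u * z‖ ^ (N + 1 + 1)))
          + ENNReal.ofReal (A * η * I₀)
            * ENNReal.ofReal ((1 - ‖z‖) ^ (((N + 1 : ℕ) : ℝ) - α - 1))) := by
          refine setLIntegral_mono_ae' measurableSet_ball
            (Filter.Eventually.of_forall fun z hz => ?_)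
          have hw : 0 ≤ (1 - ‖z‖) ^ (((N + 1 : ℕ) : ℝ) - α - 1) :=
            rpow_nonneg (one_sub_norm_pos hz).le _
          have h1 := enorm_kernel_integral_le f 0 (ball (0 : ℂ) 1 \ ball 0 r) (N + 1) z
          have h2 : ‖T2 z‖ₑ ≤ ENNReal.ofReal (A * η * I₀) := by
            rw [← ofReal_norm]
            exact ENNReal.ofReal_le_ofReal (hT2b z hz)
          rw [Real.norm_of_nonneg (by positivity), ENNReal.ofReal_mul (norm_nonneg _),
            hsplit z hz, ofReal_norm]
          have h3 : ‖T1 z + T2 z‖ₑ ≤ ENNReal.ofReal (A * (N + 1).factorial)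
              * (∫⁻ u in ball (0 : ℂ) 1 \ ball 0 r, hFun f 0 u
              * ENNReal.ofReal (1 / ‖1 - conj u * z‖ ^ (N + 1 + 1)))
              + ENNReal.ofReal (A * η * I₀) := (enorm_add_le _ _).trans (add_le_add h1 h2)
          calc _ ≤ _ := mul_le_mul_left h3 _
            _ = _ := by ring
      _ = ENNReal.ofReal (A * (N + 1).factorial)
          * (∫⁻ z in ball (0 : ℂ) 1, ENNReal.ofReal ((1 - ‖z‖) ^ (((N + 1 : ℕ) : ℝ) - α - 1))
          * ∫⁻ u in ball (0 : ℂ) 1 \ ball 0 r, hFun f 0 u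
            * ENNReal.ofReal (1 / ‖1 - conj u * z‖ ^ (N + 1 + 1)))
          + ENNReal.ofReal (A * η * I₀)
            * ∫⁻ z in ball (0 : ℂ) 1, ENNReal.ofReal
              ((1 - ‖z‖) ^ (((N + 1 : ℕ) : ℝ) - α - 1)) := by
          rw [lintegral_add_right, lintegral_const_mul' _ _ ENNReal.ofReal_ne_top,
            lintegral_const_mul' _ _ ENNReal.ofReal_ne_top]
          fun_prop
      _ ≤ ENNReal.ofReal (A * (N + 1).factorial)
          * ENNReal.ofReal (frConst α (N + 1) * 2 ^ N * (ε / (3 * c₁)))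
          + ENNReal.ofReal (A * η * I₀) * ENNReal.ofReal W := by
          have h1 := lintegral_hFun_le hα f 0 (n := N + 1) (by omega) hN
            (measurableSet_ball.diff (measurableSet_ball (x := (0 : ℂ)) (ε := r)))
            sdiff_subset
          have h2 : ENNReal.ofReal W = ∫⁻ z in ball (0 : ℂ) 1, ENNReal.ofReal
              ((1 - ‖z‖) ^ (((N + 1 : ℕ) : ℝ) - α - 1)) := by
            rw [hW, ofReal_integral_eq_lintegral_ofReal hwi]
            filter_upwards [ae_restrict_mem measurableSet_ball] with z hz using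
              rpow_nonneg (one_sub_norm_pos hz).le _
          rw [← h2]
          gcongr
          refine h1.trans (ENNReal.ofReal_le_ofReal ?_)
          gcongr
      _ ≤ ENNReal.ofReal (ε / 3) + ENNReal.ofReal (ε / 3) := by
          rw [← ENNReal.ofReal_mul (by positivity), ← ENNReal.ofReal_mul (by positivity)]
          refine add_le_add (ENNReal.ofReal_le_ofReal ?_) (ENNReal.ofReal_le_ofReal ?_)
          · refine le_of_eq ?_
            rw [hc₁]
            field_simp
          · have h5 : A * η * I₀ * W = (ε / 3) * ((A * I₀ * W) / (A * I₀ * W + 1)) := by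
              rw [hη]
              field_simp
            rw [h5]
            have h6 : (A * I₀ * W) / (A * I₀ * W + 1) ≤ 1 := by
              rw [div_le_one (by positivity)]
              linarith
            calc ε / 3 * ((A * I₀ * W) / (A * I₀ * W + 1)) ≤ ε / 3 * 1 := by gcongr
              _ = ε / 3 := mul_one _
      _ = _ := by rw [← ENNReal.ofReal_add (by positivity) (by positivity)]
  have h7 := norm_integral_le_lintegral_norm (μ := volume.restrict (ball (0 : ℂ) 1))
    (fun z => ‖iteratedDeriv (N + 1) f.fn z - Q.eval z‖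
      * (1 - ‖z‖) ^ (((N + 1 : ℕ) : ℝ) - α - 1))
  have h8 := ENNReal.toReal_le_of_le_ofReal (by positivity) hfin
  calc _ ≤ _ := le_abs_self _
    _ ≤ _ := h7
    _ ≤ _ := h8
    _ < ε := by linarith

end Pool.Agent.Lib.MP_d3a69a_an
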