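import Mathlib
import Pool.Agent.Lib.MP_d3a69a_an.Density

open MeasureTheory Metric Set Real Polynomial
open scoped ENNReal ComplexConjugate

noncomputable section

namespace Pool.Agent.Lib.MP_d3a69a_an

/-- The functional `P ↦ ∑ b(s) P^(s)` on polynomials. -/
def pairL (b : ℕ → ℂ) : ℂ[X] →ₗ[ℂ] ℂ := Polynomial.lsum fun s => b s • LinearMap.id

lemma pairL_apply (b : ℕ → ℂ) (p : ℂ[X]) : pairL b p = ∑ s ∈ p.support, b s * p.coeff s := by
  rw [pairL, Polynomial.lsum_apply, Polynomial.sum_def]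
  simp

lemma pairL_monomial (b : ℕ → ℂ) (s : ℕ) (c : ℂ) : pairL b (monomial s c) = b s * c := by
  rw [pairL, Polynomial.lsum_apply, Polynomial.sum_monomial_index]
  · simp
  · simp

lemma pairL_C_mul_X_pow (b : ℕ → ℂ) (s : ℕ) (c : ℂ) : pairL b (C c * X ^ s) = b s * c := by
  rw [C_mul_X_pow_eq_monomial, pairL_monomial]

lemma pairL_X_pow (b : ℕ → ℂ) (s : ℕ) : pairL b (X ^ s) = b s := by
  have := pairL_C_mul_X_pow b s 1
  simpa using this

lemma pairL_eq_sum_range (b : ℕ → ℂ) (p : ℂ[X]) {K : ℕ} (hK : p.natDegree < K) :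
    pairL b p = ∑ s ∈ Finset.range K, b s * p.coeff s := by
  rw [pairL_apply]
  refine Finset.sum_subset (fun s hs => ?_) fun s _ hs => ?_
  · rw [Finset.mem_range]
    exact lt_of_le_of_lt (le_natDegree_of_mem_supp s hs) hK
  · rw [notMem_support_iff.mp hs, mul_zero]

/-- Splitting off the low order coefficients. -/
lemma pairL_split (a : ℕ → ℂ) (K : ℕ) (P : ℂ[X]) :
    pairL a P = pairL (fun s => if s < K then a s else 0) P
      + pairL (fun t => a (t + K) * ((t.factorial : ℂ) / (t + K).factorial))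
        (derivative^[K] P) := by
  induction P using Polynomial.induction_on' with
  | add p q hp hq =>
    rw [map_add, map_add, iterate_map_add, map_add, hp, hq]
    ring
  | monomial s c =>
    rw [pairL_monomial, pairL_monomial, ← C_mul_X_pow_eq_monomial, iterate_derivative_C_mul,
      iterate_derivative_X_pow_eq_C_mul, ← mul_assoc, ← C_mul, pairL_C_mul_X_pow]
    by_cases hs : s < K
    · rw [if_pos hs, Nat.descFactorial_of_lt hs]
      simp
    · rw [if_neg hs]
      obtain ⟨m, rfl⟩ := Nat.exists_eq_add_of_le' (not_lt.mp hs)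
      have h2 : ((m + K).descFactorial K : ℂ) * (m.factorial : ℂ) = ((m + K).factorial : ℂ) := by
        have := Nat.factorial_mul_descFactorial (n := m + K) (k := K) (by omega)
        rw [Nat.add_sub_cancel] at this
        rw [mul_comm]
        exact_mod_cast this
      have h3 : ((m + K).factorial : ℂ) ≠ 0 := by exact_mod_cast Nat.factorial_ne_zero _
      rw [Nat.add_sub_cancel]
      field_simp
      rw [← h2]
      ring

lemma integral_conj_ball (g : ℂ → ℂ) :
    ∫ z in ball (0 : ℂ) 1, g (conj z) = ∫ z in ball (0 : ℂ) 1, g z := by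
  have hmp : MeasurePreserving Complex.conjLIE (volume : Measure ℂ) volume :=
    Complex.conjLIE.measurePreserving
  have hemb : MeasurableEmbedding (Complex.conjLIE : ℂ → ℂ) :=
    Complex.conjLIE.toHomeomorph.measurableEmbedding
  have h := hmp.setIntegral_preimage_emb hemb g (ball 0 1)
  have hpre : (Complex.conjLIE : ℂ → ℂ) ⁻¹' ball 0 1 = ball 0 1 := by
    ext z
    simp
  rw [hpre] at h
  exact h

lemma conj_mem_ball {z : ℂ} (hz : z ∈ ball (0 : ℂ) 1) : conj z ∈ ball (0 : ℂ) 1 := by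
  rw [mem_ball_zero_iff, Complex.norm_conj]
  exact mem_ball_zero_iff.mp hz

lemma Growth.contOn {α : ℝ} (f : Growth α) : ContinuousOn f.fn (ball 0 1) := f.diff.continuousOn

lemma Growth.weight_bound {α : ℝ} (ψ : Growth α) (M : ℕ) {z : ℂ} (hz : z ∈ ball (0 : ℂ) 1) :
    ‖ψ.fn (conj z)‖ * (1 - ‖z‖ ^ 2) ^ M
      ≤ 2 ^ M * ‖ψ‖ * (1 - ‖z‖) ^ ((M : ℝ) - α) := by
  have hz1 := mem_ball_zero_iff.mp hz
  have h0 := one_sub_norm_pos hz
  have h1 := ψ.le_norm (conj_mem_ball hz)
  rw [Complex.norm_conj] at h1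
  have h2 := one_sub_sq_pow_le α M hz1
  have h4 := one_sub_sq_nonneg hz1
  have h5 : (1 - ‖z‖) ^ α * (1 - ‖z‖) ^ (-α) = 1 := by
    rw [← rpow_add h0, add_neg_cancel, rpow_zero]
  have h6 : 0 ≤ (1 - ‖z‖) ^ (-α) := rpow_nonneg h0.le _
  calc ‖ψ.fn (conj z)‖ * (1 - ‖z‖ ^ 2) ^ M
      ≤ (‖ψ‖ * (1 - ‖z‖) ^ (-α)) * (2 ^ M * ((1 - ‖z‖) ^ α * (1 - ‖z‖) ^ ((M : ℝ) - α))) := by
        gcongr
    _ = 2 ^ M * ‖ψ‖ * ((1 - ‖z‖) ^ α * (1 - ‖z‖) ^ (-α)) * (1 - ‖z‖) ^ ((M : ℝ) - α) := by ring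
    _ = _ := by rw [h5, mul_one]

/-- Integrability of the pairing integrand with a polynomial. -/
lemma Growth.pair_integrable {α : ℝ} (hα : 0 < α) (ψ : Growth α) {M : ℕ} (hM : α < (M + 1 : ℕ))
    (P : ℂ[X]) :
    IntegrableOn (fun z => ψ.fn (conj z) * P.eval z * (((1 - ‖z‖ ^ 2) ^ M : ℝ) : ℂ))
      (ball 0 1) := by
  obtain ⟨B, hB0, hB⟩ := poly_bounded P
  have hw := integrableOn_weight hα (n := M + 1) (by omega) hM
  refine Integrable.mono' (hw.const_mul (B * (2 ^ M * ‖ψ‖))) ?_ ?_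
  · refine ContinuousOn.aestronglyMeasurable ?_ measurableSet_ball
    refine (ContinuousOn.mul ?_ P.continuous.continuousOn).mul ?_
    · exact ψ.contOn.comp Complex.continuous_conj.continuousOn fun z hz => conj_mem_ball hz
    · refine Continuous.continuousOn ?_
      fun_prop
  · filter_upwards [ae_restrict_mem measurableSet_ball] with z hz
    have hz1 := mem_ball_zero_iff.mp hz
    have h4 := one_sub_sq_nonneg hz1
    have h1 := ψ.weight_bound M hz
    have h2 := hB z (ball_subset_closedBall hz)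
    rw [norm_mul, norm_mul, Complex.norm_real, Real.norm_of_nonneg (by positivity)]
    have e : ((M + 1 : ℕ) : ℝ) - α - 1 = (M : ℝ) - α := by push_cast; ring
    rw [e]
    calc ‖ψ.fn (conj z)‖ * ‖P.eval z‖ * (1 - ‖z‖ ^ 2) ^ M
        = ‖P.eval z‖ * (‖ψ.fn (conj z)‖ * (1 - ‖z‖ ^ 2) ^ M) := by ring
      _ ≤ B * (2 ^ M * ‖ψ‖ * (1 - ‖z‖) ^ ((M : ℝ) - α)) := by gcongr
      _ = _ := by ring

/-- The pairing as an area integral. -/
lemma pairL_eq_integral {α : ℝ} (hα : 0 < α) (ψ : Growth α) {M : ℕ} (hM : α < (M + 1 : ℕ))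
    (P : ℂ[X]) :
    pairL (fun t => coeff ψ.fn t * ((t.factorial : ℂ) / (t + (M + 1)).factorial)) P
      = ((π : ℂ) * M.factorial)⁻¹ * ∫ z in ball (0 : ℂ) 1,
        ψ.fn (conj z) * P.eval z * (((1 - ‖z‖ ^ 2) ^ M : ℝ) : ℂ) := by
  induction P using Polynomial.induction_on' with
  | add p q hp hq =>
    rw [map_add, hp, hq, ← mul_add, ← integral_add (ψ.pair_integrable hα hM p)
      (ψ.pair_integrable hα hM q)]
    congr 1
    refine integral_congr_ae (Filter.Eventually.of_forall fun z => ?_)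
    simp only [eval_add]
    ring
  | monomial s c =>
    rw [pairL_monomial]
    have h1 : ∫ z in ball (0 : ℂ) 1, ψ.fn (conj z) * (monomial s c).eval z
        * (((1 - ‖z‖ ^ 2) ^ M : ℝ) : ℂ)
        = c * ∫ z in ball (0 : ℂ) 1, ψ.fn z * (conj z) ^ s * (((1 - ‖z‖ ^ 2) ^ M : ℝ) : ℂ) := by
      rw [← integral_const_mul,
        ← integral_conj_ball (fun z => c * (ψ.fn z * (conj z) ^ s
          * (((1 - ‖z‖ ^ 2) ^ M : ℝ) : ℂ)))]
      refine integral_congr_ae (Filter.Eventually.of_forall fun z => ?_)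
      simp only [eval_monomial, Complex.conj_conj, Complex.norm_conj]
      ring
    have hi : IntegrableOn (fun z => ψ.fn z * (conj z) ^ s
        * (((1 - ‖z‖ ^ 2) ^ M : ℝ) : ℂ)) (ball 0 1) := by
      have h2 := ψ.pair_integrable hα hM (X ^ s)
      have hmp : MeasurePreserving Complex.conjLIE (volume : Measure ℂ) volume :=
        Complex.conjLIE.measurePreserving
      have hemb : MeasurableEmbedding (Complex.conjLIE : ℂ → ℂ) :=
        Complex.conjLIE.toHomeomorph.measurableEmbedding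
      have hpre : (Complex.conjLIE : ℂ → ℂ) ⁻¹' ball 0 1 = ball 0 1 := by
        ext z
        simp
      have h3 := (hmp.integrableOn_comp_preimage hemb (s := ball 0 1)
        (f := fun z => ψ.fn z * (conj z) ^ s * (((1 - ‖z‖ ^ 2) ^ M : ℝ) : ℂ))).mp
      rw [hpre] at h3
      refine h3 (h2.congr (Filter.Eventually.of_forall fun z => ?_))
      simp [Function.comp]
    rw [h1, integral_pairing ψ.diff s M hi]
    have h1 : (π : ℂ) ≠ 0 := by exact_mod_cast pi_ne_zero
    have h2 : (M.factorial : ℂ) ≠ 0 := by exact_mod_cast (Nat.factorial_ne_zero _)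
    have h4 : ((s + (M + 1)).factorial : ℂ) ≠ 0 := by exact_mod_cast (Nat.factorial_ne_zero _)
    rw [show s + M + 1 = s + (M + 1) by ring]
    field_simp

end Pool.Agent.Lib.MP_d3a69a_an
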