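import Mathlib
import Pool.Agent.Lib.MP_d3a69a_an.Split

open MeasureTheory Metric Set Real Polynomial
open scoped ENNReal ComplexConjugate

noncomputable section

namespace Pool.Agent.Lib.MP_d3a69a_an

/-- The coefficients appearing after `2N+1` differentiations. -/
def bCoef (a : ℕ → ℂ) (N : ℕ) (t : ℕ) : ℂ :=
  a (t + (2 * N + 1)) * ((t.factorial : ℂ) / (t + (2 * N + 1)).factorial)

/-- Half of the Leibniz expansion: at least `N+1` derivatives fall on the first factor. -/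
def J1 (a : ℕ → ℂ) (N : ℕ) (p q : ℂ[X]) : ℂ :=
  ∑ k ∈ Finset.range (N + 1), ((2 * N + 1).choose k : ℂ)
    * pairL (bCoef a N) (derivative^[2 * N + 1 - k] p * derivative^[k] q)

lemma J1_add_right (a : ℕ → ℂ) (N : ℕ) (p q q' : ℂ[X]) :
    J1 a N p (q + q') = J1 a N p q + J1 a N p q' := by
  simp only [J1, iterate_map_add, mul_add, map_add, Finset.sum_add_distrib]

lemma J1_smul_right (a : ℕ → ℂ) (N : ℕ) (c : ℂ) (p q : ℂ[X]) :
    J1 a N p (c • q) = c * J1 a N p q := by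
  simp only [J1, iterate_derivative_smul, mul_smul_comm, map_smul, smul_eq_mul, Finset.mul_sum]
  refine Finset.sum_congr rfl fun k _ => ?_
  ring

lemma J1_add_left (a : ℕ → ℂ) (N : ℕ) (p p' q : ℂ[X]) :
    J1 a N (p + p') q = J1 a N p q + J1 a N p' q := by
  simp only [J1, iterate_map_add, add_mul, mul_add, map_add, Finset.sum_add_distrib]

lemma J1_smul_left (a : ℕ → ℂ) (N : ℕ) (c : ℂ) (p q : ℂ[X]) :
    J1 a N (c • p) q = c * J1 a N p q := by
  simp only [J1, iterate_derivative_smul, smul_mul_assoc, map_smul, smul_eq_mul, Finset.mul_sum]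
  refine Finset.sum_congr rfl fun k _ => ?_
  ring

/-- `J1` as a linear map in its second argument. -/
def J1R (a : ℕ → ℂ) (N : ℕ) (p : ℂ[X]) : ℂ[X] →ₗ[ℂ] ℂ where
  toFun q := J1 a N p q
  map_add' := J1_add_right a N p
  map_smul' c q := J1_smul_right a N c p q

/-- `J1` as a linear map in its first argument. -/
def J1L (a : ℕ → ℂ) (N : ℕ) (q : ℂ[X]) : ℂ[X] →ₗ[ℂ] ℂ where
  toFun p := J1 a N p q
  map_add' p p' := J1_add_left a N p p' q
  map_smul' c p := J1_smul_left a N c p q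

lemma J1_expand_right (a : ℕ → ℂ) (N : ℕ) (p q : ℂ[X]) :
    J1 a N p q = ∑ k ∈ q.support, q.coeff k * J1 a N p (X ^ k) := by
  have h : q = ∑ k ∈ q.support, q.coeff k • (X : ℂ[X]) ^ k := by
    conv_lhs => rw [q.as_sum_support_C_mul_X_pow]
    refine Finset.sum_congr rfl fun k _ => ?_
    rw [smul_eq_C_mul]
  calc J1 a N p q = J1R a N p q := rfl
    _ = J1R a N p (∑ k ∈ q.support, q.coeff k • (X : ℂ[X]) ^ k) := by rw [← h]
    _ = ∑ k ∈ q.support, q.coeff k * J1 a N p (X ^ k) := by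
      rw [map_sum]
      refine Finset.sum_congr rfl fun k _ => ?_
      rw [map_smul, smul_eq_mul]
      rfl

lemma leibniz_split (a : ℕ → ℂ) (N : ℕ) (p q : ℂ[X]) :
    pairL (bCoef a N) (derivative^[2 * N + 1] (p * q)) = J1 a N p q + J1 a N q p := by
  rw [iterate_derivative_mul, map_sum, show (2 * N + 1).succ = (N + 1) + (N + 1) by
    rw [Nat.succ_eq_add_one]; ring, Finset.sum_range_add]
  congr 1
  · refine Finset.sum_congr rfl fun k _ => ?_
    rw [map_nsmul, nsmul_eq_mul]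
  · rw [← Finset.sum_range_reflect]
    refine Finset.sum_congr rfl fun k hk => ?_
    have hk' : k ≤ N := Nat.lt_succ_iff.mp (Finset.mem_range.mp hk)
    have e1 : N + 1 + (N + 1 - 1 - k) = 2 * N + 1 - k := by omega
    have e2 : 2 * N + 1 - (2 * N + 1 - k) = k := by omega
    rw [e1, e2, Nat.choose_symm (by omega : k ≤ 2 * N + 1), map_nsmul, nsmul_eq_mul,
      mul_comm (derivative^[k] p)]

/-- The basic decomposition of the Hankel form. -/
lemma hankel_split (a : ℕ → ℂ) (N : ℕ) (p q : ℂ[X]) :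
    pairL a (p * q) = pairL (fun s => if s < 2 * N + 1 then a s else 0) (p * q)
      + J1 a N p q + J1 a N q p := by
  rw [pairL_split a (2 * N + 1) (p * q), add_assoc, ← leibniz_split]
  rfl

/-- The main estimate for the bilinear form `J1`. -/
lemma J1_bound {α : ℝ} (hα : 0 < α) {N : ℕ} (hN : α < (N + 1 : ℕ)) :
    ∃ C : ℝ, 0 < C ∧ ∀ (φ : Growth α) (p q : ℂ[X]) (S : ℝ),
      (∀ z ∈ ball (0 : ℂ) 1, ‖q.eval z‖ ≤ S) →
      ‖J1 (coeff φ.fn) N p q‖ ≤ C * ‖φ‖ * ‖polyB hα hN p‖ * S := by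
  obtain ⟨Cs, hCs, hshift⟩ := Growth.exists_shift hα.le (2 * N + 1)
  choose Ch hCh hhigh using fun i => Besov.higher hα hN i
  have hfac : (0 : ℝ) < (2 * N).factorial := by exact_mod_cast Nat.factorial_pos _
  have hM : α < (2 * N + 1 : ℕ) := by
    push_cast at hN ⊢
    have : (0 : ℝ) ≤ N := Nat.cast_nonneg N
    linarith
  refine ⟨∑ k ∈ Finset.range (N + 1), ((2 * N + 1).choose k : ℝ)
    * ((π * (2 * N).factorial)⁻¹ * (2 ^ (2 * N) * Cs * k.factorial * Ch (N - k))), ?_, ?_⟩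
  · refine Finset.sum_pos (fun k hk => ?_) ⟨0, by simp⟩
    have h1 : (0 : ℝ) < (2 * N + 1).choose k := by
      have : k ≤ 2 * N + 1 := by
        have := Finset.mem_range.mp hk
        omega
      exact_mod_cast Nat.choose_pos this
    have h2 : (0 : ℝ) < k.factorial := by exact_mod_cast Nat.factorial_pos _
    have h3 := hCh (N - k)
    positivity
  intro φ p q S hS
  have hS0 : 0 ≤ S := (norm_nonneg _).trans (hS 0 (by simp))
  obtain ⟨ψ, hψc, hψn⟩ := hshift φ
  rw [J1, Finset.sum_mul, Finset.sum_mul, Finset.sum_mul]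
  refine norm_sum_le_of_le _ fun k hk => ?_
  have hk' : k ≤ N := Nat.lt_succ_iff.mp (Finset.mem_range.mp hk)
  rw [norm_mul, Complex.norm_natCast]
  have hb : bCoef (coeff φ.fn) N
      = fun t => coeff ψ.fn t * ((t.factorial : ℂ) / (t + (2 * N + 1)).factorial) := by
    funext t
    rw [bCoef, hψc]
  rw [hb, pairL_eq_integral hα ψ (M := 2 * N) hM, norm_mul]
  have h9 : ‖((π : ℂ) * (2 * N).factorial)⁻¹‖ = (π * (2 * N).factorial)⁻¹ := by
    rw [norm_inv, norm_mul, Complex.norm_real, Complex.norm_natCast,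
      Real.norm_of_nonneg pi_pos.le]
  rw [h9]
  obtain ⟨hi1, hi2⟩ := hhigh (N - k) (polyB hα hN p)
  have hint : ‖∫ z in ball (0 : ℂ) 1, ψ.fn (conj z)
      * (derivative^[2 * N + 1 - k] p * derivative^[k] q).eval z
      * (((1 - ‖z‖ ^ 2) ^ (2 * N) : ℝ) : ℂ)‖
      ≤ ∫ z in ball (0 : ℂ) 1, (2 ^ (2 * N) * ‖ψ‖ * (k.factorial * S))
        * besovDensity α (N + 1 + (N - k)) (polyB hα hN p).fn z := by
    refine norm_integral_le_of_norm_le (hi1.const_mul _) ?_
    filter_upwards [ae_restrict_mem measurableSet_ball] with z hz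
    have hz1 := mem_ball_zero_iff.mp hz
    have h0 := one_sub_norm_pos hz
    have h4 := one_sub_sq_nonneg hz1
    have h1 := ψ.weight_bound (2 * N) hz
    have h2 := poly_cauchy q hS k hz
    rw [norm_mul, norm_mul, Complex.norm_real, Real.norm_of_nonneg (by positivity), eval_mul,
      norm_mul, besovDensity, polyB_fn, iteratedDeriv_polyFn p _ hz,
      show N + 1 + (N - k) = 2 * N + 1 - k by omega]
    have e1 : (1 - ‖z‖) ^ (((2 * N : ℕ) : ℝ) - α)
        = (1 - ‖z‖) ^ k * (1 - ‖z‖) ^ (((2 * N + 1 - k : ℕ) : ℝ) - α - 1) := by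
      rw [← rpow_natCast, ← rpow_add h0]
      congr 1
      rw [Nat.cast_sub (by omega : k ≤ 2 * N + 1)]
      push_cast
      ring
    have hw : 0 ≤ (1 - ‖z‖) ^ (((2 * N + 1 - k : ℕ) : ℝ) - α - 1) := rpow_nonneg h0.le _
    calc ‖ψ.fn (conj z)‖ * (‖(derivative^[2 * N + 1 - k] p).eval z‖
          * ‖(derivative^[k] q).eval z‖) * (1 - ‖z‖ ^ 2) ^ (2 * N)
        = (‖ψ.fn (conj z)‖ * (1 - ‖z‖ ^ 2) ^ (2 * N))
          * (‖(derivative^[2 * N + 1 - k] p).eval z‖ * ‖(derivative^[k] q).eval z‖) := by ring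
      _ ≤ (2 ^ (2 * N) * ‖ψ‖ * (1 - ‖z‖) ^ (((2 * N : ℕ) : ℝ) - α))
          * (‖(derivative^[2 * N + 1 - k] p).eval z‖ * ‖(derivative^[k] q).eval z‖) := by
          gcongr
      _ = (2 ^ (2 * N) * ‖ψ‖ * (‖(derivative^[k] q).eval z‖ * (1 - ‖z‖) ^ k))
          * (‖(derivative^[2 * N + 1 - k] p).eval z‖
            * (1 - ‖z‖) ^ (((2 * N + 1 - k : ℕ) : ℝ) - α - 1)) := by
          rw [e1]
          ring
      _ ≤ _ := by gcongr
  rw [integral_const_mul] at hint
  have hp0 : 0 ≤ ‖polyB hα hN p‖ := norm_nonneg _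
  have hC0 := (hCh (N - k)).le
  calc ((2 * N + 1).choose k : ℝ) * ((π * (2 * N).factorial)⁻¹ * _)
      ≤ ((2 * N + 1).choose k : ℝ) * ((π * (2 * N).factorial)⁻¹
        * ((2 ^ (2 * N) * ‖ψ‖ * (k.factorial * S)) * (Ch (N - k) * ‖polyB hα hN p‖))) := by
        gcongr
        exact hint.trans (mul_le_mul_of_nonneg_left hi2 (by positivity))
    _ ≤ ((2 * N + 1).choose k : ℝ) * ((π * (2 * N).factorial)⁻¹
        * ((2 ^ (2 * N) * (Cs * ‖φ‖) * (k.factorial * S)) * (Ch (N - k) * ‖polyB hα hN p‖))) := by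
        gcongr
    _ = _ := by ring

end Pool.Agent.Lib.MP_d3a69a_an
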