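import Mathlib
import Pool.Agent.Lib.MP_d3a69a_an.Bilin

open MeasureTheory Metric Set Real Polynomial
open scoped ENNReal ComplexConjugate

noncomputable section

namespace Pool.Agent.Lib.MP_d3a69a_an

/-- Partial sums of the geometric series `∑ ζ^l z^l`. -/
def geoPoly (ζ : ℂ) (L : ℕ) : ℂ[X] := ∑ l ∈ Finset.range L, C (ζ ^ l) * X ^ l

lemma pairL_geoPoly (a : ℕ → ℂ) (ζ : ℂ) (L : ℕ) :
    pairL a (geoPoly ζ L) = ∑ l ∈ Finset.range L, a l * ζ ^ l := by
  rw [geoPoly, map_sum]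
  exact Finset.sum_congr rfl fun l _ => pairL_C_mul_X_pow _ _ _

lemma geoPoly_coeff (ζ : ℂ) (L k : ℕ) :
    (geoPoly ζ L).coeff k = if k < L then ζ ^ k else 0 := by
  rw [geoPoly, finsetSum_coeff]
  simp only [coeff_C_mul_X_pow]
  simp [Finset.sum_ite_eq]

lemma geoPoly_deriv_eval (ζ z : ℂ) (n J : ℕ) :
    (derivative^[n] (geoPoly ζ (n + J))).eval z
      = ζ ^ n * ∑ m ∈ Finset.range J, ((m + n).factorial : ℂ) / (m.factorial : ℂ)
        * (ζ * z) ^ m := by
  rw [geoPoly, iterate_derivative_sum, eval_finsetSum, Finset.sum_range_add,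
    Finset.sum_eq_zero (s := Finset.range n), zero_add, Finset.mul_sum]
  · refine Finset.sum_congr rfl fun m _ => ?_
    rw [iterate_derivative_C_mul, iterate_derivative_X_pow_eq_C_mul]
    simp only [eval_mul, eval_C, eval_pow, eval_X]
    have h2 : ((n + m).descFactorial n : ℂ) * (m.factorial : ℂ) = ((m + n).factorial : ℂ) := by
      have := Nat.factorial_mul_descFactorial (n := n + m) (k := n) (by omega)
      rw [Nat.add_sub_cancel_left] at this
      rw [mul_comm, add_comm m n]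
      exact_mod_cast this
    have h3 : (m.factorial : ℂ) ≠ 0 := by exact_mod_cast Nat.factorial_ne_zero _
    rw [Nat.add_sub_cancel_left, ← h2]
    field_simp
    ring
  · intro l hl
    rw [iterate_derivative_C_mul, iterate_derivative_X_pow_eq_C_mul,
      Nat.descFactorial_of_lt (Finset.mem_range.mp hl)]
    simp

/-- The Besov norm of long partial sums of the geometric series. -/
lemma geo_norm {α : ℝ} (hα : 0 < α) {n : ℕ} (hn : α < n) :
    ∃ C : ℝ, 0 < C ∧ ∀ ζ ∈ ball (0 : ℂ) 1, ∃ L₀ : ℕ, ∀ L ≥ L₀,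
      ‖polyB hα hn (geoPoly ζ L)‖ ≤ C * (1 - ‖ζ‖) ^ (-α) := by
  have hn1 : 1 ≤ n := by
    have : (0 : ℝ) < n := hα.trans hn
    exact_mod_cast this
  set W : ℝ := ∫ z in ball (0 : ℂ) 1, (1 - ‖z‖) ^ ((n : ℝ) - α - 1) with hW
  have hwi := integrableOn_weight hα hn1 hn
  have hW0 : 0 ≤ W := setIntegral_nonneg measurableSet_ball fun z hz =>
    rpow_nonneg (one_sub_norm_pos hz).le _
  have hfr := frConst_pos hα hn
  have hnf : (0 : ℝ) < n.factorial := by exact_mod_cast Nat.factorial_pos n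
  refine ⟨n.factorial * frConst α n + W + n * n.factorial, by positivity, fun ζ hζ => ?_⟩
  have hζ1 := mem_ball_zero_iff.mp hζ
  have hζ0 := one_sub_norm_pos hζ
  have hone : 1 ≤ (1 - ‖ζ‖) ^ (-α) := by
    apply one_le_rpow_of_pos_of_le_one_of_nonpos <;> linarith [norm_nonneg ζ]
  obtain ⟨J₀, hJ₀⟩ := kernel_approx n (norm_nonneg ζ) hζ1 one_pos
  refine ⟨n + J₀, fun L hL => ?_⟩
  obtain ⟨J, rfl⟩ := Nat.exists_eq_add_of_le (show n ≤ L by omega)
  have hJ := hJ₀ J (by omega)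
  obtain ⟨hi, hb⟩ := integral_weight_le hα hn1 hn hζ1
  rw [Besov.norm_def]
  have h1 : ∫ z in ball (0 : ℂ) 1, besovDensity α n (polyB hα hn (geoPoly ζ (n + J))).fn z
      ≤ n.factorial * (frConst α n * (1 - ‖ζ‖) ^ (-α)) + W := by
    calc ∫ z in ball (0 : ℂ) 1, besovDensity α n (polyB hα hn (geoPoly ζ (n + J))).fn z
        ≤ ∫ z in ball (0 : ℂ) 1, (n.factorial * ((1 - ‖z‖) ^ ((n : ℝ) - α - 1)
            / ‖1 - ζ * z‖ ^ (n + 1)) + (1 - ‖z‖) ^ ((n : ℝ) - α - 1)) := by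
          refine setIntegral_mono_on (Besov.integrableOn _) ((hi.const_mul _).add hwi)
            measurableSet_ball fun z hz => ?_
          have hz1 := mem_ball_zero_iff.mp hz
          have hw : 0 ≤ (1 - ‖z‖) ^ ((n : ℝ) - α - 1) := rpow_nonneg (one_sub_norm_pos hz).le _
          rw [besovDensity, polyB_fn, iteratedDeriv_polyFn _ _ hz, geoPoly_deriv_eval]
          have hwz : ‖ζ * z‖ ≤ ‖ζ‖ := by
            rw [norm_mul]
            exact mul_le_of_le_one_right (norm_nonneg _) hz1.le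
          have h2 := hJ (ζ * z) hwz
          have h3 : ‖∑ m ∈ Finset.range J, ((m + n).factorial : ℂ) / (m.factorial : ℂ)
              * (ζ * z) ^ m‖ ≤ n.factorial / ‖1 - ζ * z‖ ^ (n + 1) + 1 := by
            have h4 : ‖(n.factorial : ℂ) / (1 - ζ * z) ^ (n + 1)‖
                = n.factorial / ‖1 - ζ * z‖ ^ (n + 1) := by
              rw [norm_div, norm_pow, Complex.norm_natCast]
            rw [← h4]
            have h5 := norm_sub_norm_le (∑ m ∈ Finset.range J, ((m + n).factorial : ℂ)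
              / (m.factorial : ℂ) * (ζ * z) ^ m) ((n.factorial : ℂ) / (1 - ζ * z) ^ (n + 1))
            rw [norm_sub_rev] at h5
            linarith
          have h6 : ‖ζ ^ n‖ ≤ 1 := by
            rw [norm_pow]
            exact pow_le_one₀ (norm_nonneg _) hζ1.le
          rw [norm_mul]
          calc ‖ζ ^ n‖ * ‖∑ m ∈ Finset.range J, ((m + n).factorial : ℂ) / (m.factorial : ℂ)
                * (ζ * z) ^ m‖ * (1 - ‖z‖) ^ ((n : ℝ) - α - 1)
              ≤ 1 * (n.factorial / ‖1 - ζ * z‖ ^ (n + 1) + 1)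
                * (1 - ‖z‖) ^ ((n : ℝ) - α - 1) := by gcongr
            _ = _ := by ring
      _ = n.factorial * (∫ z in ball (0 : ℂ) 1, (1 - ‖z‖) ^ ((n : ℝ) - α - 1)
            / ‖1 - ζ * z‖ ^ (n + 1)) + W := by
          rw [integral_add (hi.const_mul _) hwi, integral_const_mul]
      _ ≤ _ := by gcongr
  have h2 : ∑ j ∈ Finset.range n,
      ‖iteratedDeriv j (polyB hα hn (geoPoly ζ (n + J))).fn 0‖ ≤ n * n.factorial := by
    have h3 : ∀ j ∈ Finset.range n,
        ‖iteratedDeriv j (polyB hα hn (geoPoly ζ (n + J))).fn 0‖ ≤ n.factorial := by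
      intro j hj
      have hj' := Finset.mem_range.mp hj
      have h4 := coeff_polyFn (geoPoly ζ (n + J)) j
      rw [geoPoly_coeff, if_pos (by omega), coeff] at h4
      have h5 : (j.factorial : ℂ) ≠ 0 := by exact_mod_cast Nat.factorial_ne_zero j
      rw [div_eq_iff h5] at h4
      rw [polyB_fn, h4, norm_mul, norm_pow, Complex.norm_natCast]
      have h6 : ‖ζ‖ ^ j ≤ 1 := pow_le_one₀ (norm_nonneg _) hζ1.le
      have h7 : (j.factorial : ℝ) ≤ n.factorial := by
        exact_mod_cast Nat.factorial_le hj'.le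
      calc ‖ζ‖ ^ j * (j.factorial : ℝ) ≤ 1 * n.factorial := by gcongr
        _ = _ := one_mul _
    refine (Finset.sum_le_sum h3).trans ?_
    simp
  calc _ ≤ (n.factorial * (frConst α n * (1 - ‖ζ‖) ^ (-α)) + W * 1) + n * n.factorial * 1 := by
        rw [mul_one, mul_one]
        exact add_le_add h1 h2
    _ ≤ (n.factorial * (frConst α n * (1 - ‖ζ‖) ^ (-α)) + W * (1 - ‖ζ‖) ^ (-α))
        + n * n.factorial * (1 - ‖ζ‖) ^ (-α) := by gcongr
    _ = _ := by ring

/-- The norm of an element of `B_∞^{-α}` is controlled by its action on polynomials. -/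
lemma growth_norm_le {α : ℝ} (hα : 0 < α) {n : ℕ} (hn : α < n) :
    ∃ C : ℝ, 0 < C ∧ ∀ (h : Growth α) (B : ℝ), 0 ≤ B →
      (∀ q : ℂ[X], ‖pairL (coeff h.fn) q‖ ≤ B * ‖polyB hα hn q‖) → ‖h‖ ≤ C * B := by
  obtain ⟨C, hC, hgeo⟩ := geo_norm hα hn
  refine ⟨C, hC, fun h B hB hq => ?_⟩
  refine Growth.norm_le_of _ (by positivity) fun ζ hζ => ?_
  obtain ⟨L₀, hL₀⟩ := hgeo ζ hζ
  have hlim : Filter.Tendsto (fun L : ℕ => ‖pairL (coeff h.fn) (geoPoly ζ L)‖)
      Filter.atTop (nhds ‖h.fn ζ‖) := by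
    have h1 := (hasSum_taylor h.diff hζ).tendsto_sum_nat
    refine (h1.congr fun L => ?_).norm
    rw [pairL_geoPoly]
  refine le_of_tendsto hlim ?_
  filter_upwards [Filter.eventually_ge_atTop L₀] with L hL
  calc ‖pairL (coeff h.fn) (geoPoly ζ L)‖ ≤ B * ‖polyB hα hn (geoPoly ζ L)‖ := hq _
    _ ≤ B * (C * (1 - ‖ζ‖) ^ (-α)) := by
      have := hL₀ L hL
      gcongr
    _ = _ := by ring

end Pool.Agent.Lib.MP_d3a69a_an
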