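import Mathlib
import Pool.Agent.Lib.MP_d3a69a_an.Dual

open MeasureTheory Metric Set Real Polynomial
open scoped ENNReal ComplexConjugate

noncomputable section

namespace Pool.Agent.Lib.MP_d3a69a_an

lemma pairL_low (a : ℕ → ℂ) (K : ℕ) (P : ℂ[X]) :
    pairL (fun s => if s < K then a s else 0) P = ∑ s ∈ Finset.range K, a s * P.coeff s := by
  rw [pairL_eq_sum_range _ P (K := P.natDegree + 1 + K) (by omega)]
  symm
  refine Finset.sum_subset_zero_on_sdiff (fun s hs => ?_) (fun s hs => ?_) fun s hs => ?_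
  · rw [Finset.mem_range] at hs ⊢
    omega
  · rw [Finset.mem_sdiff, Finset.mem_range, Finset.mem_range] at hs
    rw [if_neg hs.2, zero_mul]
  · rw [if_pos (Finset.mem_range.mp hs)]

lemma Growth.coeff_le_two {α : ℝ} (φ : Growth α) (k : ℕ) :
    ‖coeff φ.fn k‖ ≤ 2 ^ α * 2 ^ k * ‖φ‖ := by
  have h2 := φ.coeff_le (r := 1 / 2) (by norm_num) (by norm_num) k
  have e1 : (1 - 1 / 2 : ℝ) ^ (-α) = 2 ^ α := by
    rw [rpow_neg (by norm_num), ← inv_rpow (by norm_num)]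
    norm_num
  rw [e1] at h2
  have e2 : ‖φ‖ * 2 ^ α / (1 / 2 : ℝ) ^ k = 2 ^ α * 2 ^ k * ‖φ‖ := by
    rw [div_eq_mul_inv, ← inv_pow]
    norm_num
    ring
  rwa [e2] at h2

/-- The low order part of the Hankel form. -/
lemma low_bound {α : ℝ} (φ : Growth α) (K : ℕ) (p q : ℂ[X]) {B : ℝ}
    (hB : ∀ l, ‖q.coeff l‖ ≤ B) :
    ‖pairL (fun s => if s < K then coeff φ.fn s else 0) (p * q)‖
      ≤ K * (2 ^ α * 2 ^ K) * ‖φ‖ * B * ∑ k ∈ Finset.range K, ‖p.coeff k‖ := by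
  have hB0 : 0 ≤ B := (norm_nonneg _).trans (hB 0)
  rw [pairL_low]
  have h1 : ∀ s ∈ Finset.range K, ‖coeff φ.fn s * (p * q).coeff s‖
      ≤ (2 ^ α * 2 ^ K) * ‖φ‖ * (B * ∑ k ∈ Finset.range K, ‖p.coeff k‖) := by
    intro s hs
    have hs' := Finset.mem_range.mp hs
    have h2 : ‖(p * q).coeff s‖ ≤ B * ∑ k ∈ Finset.range K, ‖p.coeff k‖ := by
      rw [coeff_mul, Finset.Nat.sum_antidiagonal_eq_sum_range_succ_mk]
      calc ‖∑ k ∈ Finset.range s.succ, p.coeff k * q.coeff (s - k)‖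
          ≤ ∑ k ∈ Finset.range s.succ, B * ‖p.coeff k‖ := by
            refine norm_sum_le_of_le _ fun k _ => ?_
            rw [norm_mul, mul_comm]
            have := hB (s - k)
            gcongr
        _ ≤ ∑ k ∈ Finset.range K, B * ‖p.coeff k‖ := by
            refine Finset.sum_le_sum_of_subset_of_nonneg ?_ fun _ _ _ => by positivity
            intro k hk
            rw [Finset.mem_range] at hk ⊢
            omega
        _ = _ := by rw [Finset.mul_sum]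
    have h3 := φ.coeff_le_two s
    have h4 : (2 : ℝ) ^ s ≤ 2 ^ K := pow_le_pow_right₀ (by norm_num) hs'.le
    rw [norm_mul]
    calc ‖coeff φ.fn s‖ * ‖(p * q).coeff s‖
        ≤ (2 ^ α * 2 ^ s * ‖φ‖) * (B * ∑ k ∈ Finset.range K, ‖p.coeff k‖) := by gcongr
      _ ≤ (2 ^ α * 2 ^ K * ‖φ‖) * (B * ∑ k ∈ Finset.range K, ‖p.coeff k‖) := by gcongr
      _ = _ := by ring
  refine (norm_sum_le_of_le _ h1).trans (le_of_eq ?_)
  rw [Finset.sum_const, Finset.card_range, nsmul_eq_mul]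
  ring

lemma polyB_coeff_bound {α : ℝ} (hα : 0 < α) (N : ℕ) (hN : α < (N + 1 : ℕ)) :
    ∃ C : ℝ, 0 < C ∧ ∀ (p : ℂ[X]) (k : ℕ),
      ‖p.coeff k‖ ≤ C * ((k : ℝ) + 1) ^ (-α) * ‖polyB hα hN p‖ := by
  obtain ⟨C, hC, h⟩ := Besov.exists_coeff_bound hα N
  refine ⟨C, hC, fun p k => ?_⟩
  have := h (polyB hα hN p) k
  rwa [polyB_fn, coeff_polyFn] at this

lemma polyB_sup_bound {α : ℝ} (hα : 1 ≤ α) (N : ℕ) (hN : α < (N + 1 : ℕ)) :
    ∃ C : ℝ, 0 < C ∧ ∀ (p : ℂ[X]), ∀ z ∈ ball (0 : ℂ) 1,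
      ‖p.eval z‖ ≤ C * ‖polyB (lt_of_lt_of_le one_pos hα) hN p‖ := by
  obtain ⟨C, hC, h⟩ := Besov.exists_sup_bound hα N
  refine ⟨C, hC, fun p z hz => ?_⟩
  have := h (polyB (lt_of_lt_of_le one_pos hα) hN p) z hz
  rwa [polyB_fn, polyFn_apply p hz] at this

/-- Boundedness of the Hankel form on polynomials. -/
lemma hankel_form_bound {α : ℝ} (hα : 1 ≤ α) (N : ℕ) (hN : α < (N + 1 : ℕ)) :
    ∃ C : ℝ, 0 < C ∧ ∀ (φ : Growth α) (p q : ℂ[X]),
      ‖pairL (coeff φ.fn) (p * q)‖ ≤ C * ‖φ‖ * ‖polyB (lt_of_lt_of_le one_pos hα) hN p‖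
        * ‖polyB (lt_of_lt_of_le one_pos hα) hN q‖ := by
  have hα0 : 0 < α := lt_of_lt_of_le one_pos hα
  obtain ⟨Cc, hCc, hc⟩ := polyB_coeff_bound hα0 N hN
  obtain ⟨Cs, hCs, hs⟩ := polyB_sup_bound hα N hN
  obtain ⟨CJ, hCJ, hJ⟩ := J1_bound hα0 hN
  set K := 2 * N + 1 with hK
  have hKpos : (0 : ℝ) < K := by
    rw [hK]
    positivity
  refine ⟨K * (2 ^ α * 2 ^ K) * Cc * (K * Cc) + CJ * Cs + CJ * Cs, by positivity,
    fun φ p q => ?_⟩
  have hc' : ∀ (p : ℂ[X]) (k : ℕ), ‖p.coeff k‖ ≤ Cc * ‖polyB hα0 hN p‖ := by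
    intro p k
    have h1 := hc p k
    have h2 : ((k : ℝ) + 1) ^ (-α) ≤ 1 := by
      apply rpow_le_one_of_one_le_of_nonpos
      · have : (0 : ℝ) ≤ k := Nat.cast_nonneg k
        linarith
      · linarith
    calc _ ≤ _ := h1
      _ ≤ Cc * 1 * ‖polyB hα0 hN p‖ := by gcongr
      _ = _ := by ring
  have h1 := low_bound φ K p q (B := Cc * ‖polyB hα0 hN q‖) (hc' q)
  have h1' : ∑ k ∈ Finset.range K, ‖p.coeff k‖ ≤ K * (Cc * ‖polyB hα0 hN p‖) := by
    refine (Finset.sum_le_sum fun k _ => hc' p k).trans (le_of_eq ?_)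
    rw [Finset.sum_const, Finset.card_range, nsmul_eq_mul]
  have h2 := hJ φ p q (Cs * ‖polyB hα0 hN q‖) (hs q)
  have h3 := hJ φ q p (Cs * ‖polyB hα0 hN p‖) (hs p)
  rw [hankel_split (coeff φ.fn) N p q]
  refine (norm_add_le _ _).trans ((add_le_add (norm_add_le _ _) h3).trans ?_)
  refine (add_le_add (add_le_add h1 h2) le_rfl).trans ?_
  calc _ ≤ K * (2 ^ α * 2 ^ K) * ‖φ‖ * (Cc * ‖polyB hα0 hN q‖) * (K * (Cc * ‖polyB hα0 hN p‖))
        + CJ * ‖φ‖ * ‖polyB hα0 hN p‖ * (Cs * ‖polyB hα0 hN q‖)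
        + CJ * ‖φ‖ * ‖polyB hα0 hN q‖ * (Cs * ‖polyB hα0 hN p‖) := by gcongr
    _ = _ := by ring

/-- The shifted symbol. -/
def shiftG {α : ℝ} (hα : 0 ≤ α) (φ : Growth α) (k : ℕ) : Growth α :=
  ((Growth.exists_shift hα k).choose_spec.2 φ).choose

lemma shiftG_coeff {α : ℝ} (hα : 0 ≤ α) (φ : Growth α) (k j : ℕ) :
    coeff (shiftG hα φ k).fn j = coeff φ.fn (j + k) :=
  ((Growth.exists_shift hα k).choose_spec.2 φ).choose_spec.1 j

/-- The coefficient functionals on `B_∞^{-α}`. -/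
def growthCoeff (α : ℝ) (k : ℕ) : Growth α →L[ℂ] ℂ :=
  LinearMap.mkContinuous
    { toFun := fun f => coeff f.fn k
      map_add' := fun f g => coeff_add f.mem_disc g.mem_disc k
      map_smul' := fun c f => coeff_smul f.mem_disc c k } (2 ^ α * 2 ^ k)
    fun f => f.coeff_le_two k

lemma growthCoeff_apply {α : ℝ} (k : ℕ) (f : Growth α) : growthCoeff α k f = coeff f.fn k := rfl

/-- The Hankel operator on polynomials. -/
def hankelPoly {α : ℝ} (hα : 0 ≤ α) (φ : Growth α) : ℂ[X] →ₗ[ℂ] Growth α :=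
  Polynomial.lsum fun k => LinearMap.toSpanSingleton ℂ (Growth α) (shiftG hα φ k)

lemma hankelPoly_coeff {α : ℝ} (hα : 0 ≤ α) (φ : Growth α) (p : ℂ[X]) (j : ℕ) :
    coeff (hankelPoly hα φ p).fn j = ∑ k ∈ p.support, coeff φ.fn (j + k) * p.coeff k := by
  rw [← growthCoeff_apply, hankelPoly, Polynomial.lsum_apply, Polynomial.sum_def, map_sum]
  refine Finset.sum_congr rfl fun k _ => ?_
  rw [LinearMap.toSpanSingleton_apply, map_smul, growthCoeff_apply, shiftG_coeff, smul_eq_mul,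
    mul_comm]

/-- Pairing with the Hankel transform of a polynomial. -/
lemma pairL_hankel (a : ℕ → ℂ) (p q : ℂ[X]) :
    pairL (fun j => ∑ k ∈ p.support, a (j + k) * p.coeff k) q = pairL a (p * q) := by
  induction q using Polynomial.induction_on' with
  | add q q' hq hq' => rw [map_add, mul_add, map_add, hq, hq']
  | monomial s c =>
    rw [pairL_monomial]
    conv_rhs => rw [p.as_sum_support]
    rw [Finset.sum_mul, Finset.sum_mul, map_sum]
    refine Finset.sum_congr rfl fun k _ => ?_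
    rw [monomial_mul_monomial, pairL_monomial, add_comm s k]
    ring

lemma hankelPoly_bound {α : ℝ} (hα : 1 ≤ α) (N : ℕ) (hN : α < (N + 1 : ℕ)) :
    ∃ C : ℝ, 0 < C ∧ ∀ (φ : Growth α) (p : ℂ[X]),
      ‖hankelPoly (zero_le_one.trans hα) φ p‖
        ≤ C * ‖φ‖ * ‖polyB (lt_of_lt_of_le one_pos hα) hN p‖ := by
  have hα0 : 0 < α := lt_of_lt_of_le one_pos hα
  obtain ⟨C₁, hC₁, h1⟩ := growth_norm_le hα0 hN
  obtain ⟨C₂, hC₂, h2⟩ := hankel_form_bound hα N hN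
  refine ⟨C₁ * C₂, by positivity, fun φ p => ?_⟩
  have := h1 (hankelPoly (zero_le_one.trans hα) φ p) (C₂ * ‖φ‖ * ‖polyB hα0 hN p‖)
    (by positivity) fun q => by
      have e : coeff (hankelPoly (zero_le_one.trans hα) φ p).fn
          = fun j => ∑ k ∈ p.support, coeff φ.fn (j + k) * p.coeff k := by
        funext j
        exact hankelPoly_coeff _ φ p j
      rw [e, pairL_hankel]
      exact h2 φ p q
  calc _ ≤ _ := this
    _ = _ := by ring

lemma eq_polyB_of_eval {α : ℝ} (hα : 0 < α) {n : ℕ} (hn : α < n) (p : ℂ[X]) (x : Besov α n)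
    (h : ∀ z ∈ ball (0 : ℂ) 1, x.fn z = p.eval z) : x = polyB hα hn p := by
  apply Besov.fn_injective
  funext z
  by_cases hz : z ∈ ball (0 : ℂ) 1
  · rw [h z hz, polyB_fn, polyFn_apply p hz]
  · rw [x.zero_off hz, (polyB hα hn p).zero_off hz]

/-- Existence and uniqueness of the Hankel-type operator. -/
theorem exists_unique_hankel {α : ℝ} (hα : 1 ≤ α) (n : ℕ) (hn : α < n) (φ : Growth α) :
    ∃! H : Besov α n →L[ℂ] Growth α, IsHankel φ H := by
  have hα0 : 0 < α := lt_of_lt_of_le one_pos hα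
  obtain ⟨N, rfl⟩ : ∃ N, n = N + 1 := by
    refine Nat.exists_eq_succ_of_ne_zero ?_
    rintro rfl
    push_cast at hn
    linarith
  obtain ⟨C, hC, hb⟩ := hankelPoly_bound hα N hn
  have hdense := Besov.dense_polyB hα0 hn
  have hnorm : ∀ p : ℂ[X], ‖hankelPoly hα0.le φ p‖ ≤ (C * ‖φ‖) * ‖polyB hα0 hn p‖ :=
    fun p => hb φ p
  refine ⟨(hankelPoly hα0.le φ).extendOfNorm (polyB hα0 hn), ?_, ?_⟩
  · intro p x hx j
    rw [eq_polyB_of_eval hα0 hn p x hx,
      LinearMap.extendOfNorm_eq hdense ⟨_, hnorm⟩, hankelPoly_coeff]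
  · intro H hH
    have : (hankelPoly hα0.le φ).extendOfNorm (polyB hα0 hn) = H := by
      refine LinearMap.extendOfNorm_unique hdense _ hnorm H ?_
      refine LinearMap.ext fun p => ?_
      apply Growth.fn_injective
      refine eq_of_coeff_eq (Growth.mem_disc _) (Growth.mem_disc _) fun k => ?_
      rw [hankelPoly_coeff]
      exact hH p (polyB hα0 hn p) (fun z hz => polyFn_apply p hz) k
    exact this.symm

end Pool.Agent.Lib.MP_d3a69a_an
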