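import Mathlib
import Pool.Agent.Lib.MP_d3a69a_an.Exist

open MeasureTheory Metric Set Real Polynomial
open scoped ENNReal ComplexConjugate

noncomputable section

namespace Pool.Agent.Lib.MP_d3a69a_an

lemma bddAbove_weak {X : Type} [NormedAddCommGroup X] [NormedSpace ℂ X] {m : ℕ} (x : Fin m → X) :
    BddAbove (range fun ξ : {ξ : X →L[ℂ] ℂ // ‖ξ‖ ≤ 1} => ∑ i, ‖ξ.1 (x i)‖ ^ 2) := by
  refine ⟨∑ i, ‖x i‖ ^ 2, ?_⟩
  rintro _ ⟨ξ, rfl⟩
  refine Finset.sum_le_sum fun i _ => ?_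
  have h1 : ‖ξ.1 (x i)‖ ≤ ‖x i‖ := by
    calc ‖ξ.1 (x i)‖ ≤ ‖ξ.1‖ * ‖x i‖ := ξ.1.le_opNorm _
      _ ≤ 1 * ‖x i‖ := by
        have := ξ.2
        gcongr
      _ = _ := one_mul _
  gcongr

lemma le_weak {X : Type} [NormedAddCommGroup X] [NormedSpace ℂ X] {m : ℕ} (x : Fin m → X)
    (ξ : X →L[ℂ] ℂ) (hξ : ‖ξ‖ ≤ 1) :
    ∑ i, ‖ξ (x i)‖ ^ 2 ≤ ⨆ ξ : {ξ : X →L[ℂ] ℂ // ‖ξ‖ ≤ 1}, ∑ i, ‖ξ.1 (x i)‖ ^ 2 :=
  le_ciSup (bddAbove_weak x) ⟨ξ, hξ⟩

/-- A criterion for 2-summability. -/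
lemma isTwoSumming_of_dominated {X Y : Type} [NormedAddCommGroup X] [NormedSpace ℂ X]
    [NormedAddCommGroup Y] [NormedSpace ℂ Y] (u : X →L[ℂ] Y) (w : ℕ → ℝ) (hw : ∀ i, 0 ≤ w i)
    (hs : Summable w) (ξ η : ℕ → X →L[ℂ] ℂ) (hξ : ∀ i, ‖ξ i‖ ≤ 1) (hη : ∀ i, ‖η i‖ ≤ 1)
    (D : Set X) (hD : Dense D)
    (h : ∀ x ∈ D, ‖u x‖ ≤ ∑' i, w i * (‖ξ i x‖ + ‖η i x‖)) : IsTwoSumming u := by
  have hle : ∀ (ζ : X →L[ℂ] ℂ), ‖ζ‖ ≤ 1 → ∀ x, ‖ζ x‖ ≤ ‖x‖ := by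
    intro ζ hζ x
    calc ‖ζ x‖ ≤ ‖ζ‖ * ‖x‖ := ζ.le_opNorm _
      _ ≤ 1 * ‖x‖ := by gcongr
      _ = _ := one_mul _
  have hsx : ∀ x, Summable fun i => w i * (‖ξ i x‖ + ‖η i x‖) := by
    intro x
    refine Summable.of_nonneg_of_le (fun i => mul_nonneg (hw i) (by positivity))
      (fun i => ?_) (hs.mul_right (‖x‖ + ‖x‖))
    have h1 := hle _ (hξ i) x
    have h2 := hle _ (hη i) x
    have h3 := hw i
    gcongr
  have hW0 : 0 ≤ ∑' i, w i := tsum_nonneg hw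
  have hcont : Continuous fun x => ∑' i, w i * (‖ξ i x‖ + ‖η i x‖) := by
    have hlip : LipschitzWith (Real.toNNReal (2 * ∑' i, w i))
        (fun x => ∑' i, w i * (‖ξ i x‖ + ‖η i x‖)) := by
      refine LipschitzWith.of_dist_le_mul fun x y => ?_
      rw [Real.coe_toNNReal _ (by positivity), dist_eq_norm, dist_eq_norm,
        ← (hsx x).tsum_sub (hsx y)]
      have hb : ∀ i, ‖w i * (‖ξ i x‖ + ‖η i x‖) - w i * (‖ξ i y‖ + ‖η i y‖)‖
          ≤ w i * (2 * ‖x - y‖) := by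
        intro i
        have h1 : |‖ξ i x‖ - ‖ξ i y‖| ≤ ‖x - y‖ := by
          refine (abs_norm_sub_norm_le _ _).trans ?_
          rw [← map_sub]
          exact hle _ (hξ i) _
        have h2 : |‖η i x‖ - ‖η i y‖| ≤ ‖x - y‖ := by
          refine (abs_norm_sub_norm_le _ _).trans ?_
          rw [← map_sub]
          exact hle _ (hη i) _
        rw [← mul_sub, norm_mul, Real.norm_of_nonneg (hw i)]
        refine mul_le_mul_of_nonneg_left ?_ (hw i)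
        rw [Real.norm_eq_abs]
        calc |‖ξ i x‖ + ‖η i x‖ - (‖ξ i y‖ + ‖η i y‖)|
            = |(‖ξ i x‖ - ‖ξ i y‖) + (‖η i x‖ - ‖η i y‖)| := by congr 1; ring
          _ ≤ |‖ξ i x‖ - ‖ξ i y‖| + |‖η i x‖ - ‖η i y‖| := abs_add_le _ _
          _ ≤ 2 * ‖x - y‖ := by linarith
      have hsum : HasSum (fun i => w i * (2 * ‖x - y‖)) ((∑' i, w i) * (2 * ‖x - y‖)) :=
        hs.hasSum.mul_right _
      refine (tsum_of_norm_bounded hsum hb).trans (le_of_eq ?_)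
      ring
    exact hlip.continuous
  have hall : ∀ x, ‖u x‖ ≤ ∑' i, w i * (‖ξ i x‖ + ‖η i x‖) := by
    have hcl : IsClosed {x | ‖u x‖ ≤ ∑' i, w i * (‖ξ i x‖ + ‖η i x‖)} :=
      isClosed_le u.continuous.norm hcont
    intro x
    have hsub : closure D ⊆ {x | ‖u x‖ ≤ ∑' i, w i * (‖ξ i x‖ + ‖η i x‖)} :=
      closure_minimal h hcl
    exact hsub (hD x)
  set W := ∑' i, w i with hW
  refine ⟨2 * W, fun m x => ?_⟩
  set S := ⨆ ξ : {ξ : X →L[ℂ] ℂ // ‖ξ‖ ≤ 1}, ∑ i, ‖ξ.1 (x i)‖ ^ 2 with hS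
  have h1 : ∑ j, ‖u (x j)‖ ^ 2
      ≤ ∑ j, (∑' i, w i * (‖ξ i (x j)‖ + ‖η i (x j)‖)) ^ 2 := by
    refine Finset.sum_le_sum fun j _ => ?_
    have := hall (x j)
    gcongr
  refine h1.trans ?_
  have hlim : Filter.Tendsto (fun L : ℕ => ∑ j, (∑ i ∈ Finset.range L,
      w i * (‖ξ i (x j)‖ + ‖η i (x j)‖)) ^ 2) Filter.atTop
      (nhds (∑ j, (∑' i, w i * (‖ξ i (x j)‖ + ‖η i (x j)‖)) ^ 2)) :=
    tendsto_finsetSum _ fun j _ => ((hsx (x j)).hasSum.tendsto_sum_nat).pow 2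
  refine le_of_tendsto hlim (Filter.Eventually.of_forall fun L => ?_)
  have h2 : ∀ j : Fin m, (∑ i ∈ Finset.range L, w i * (‖ξ i (x j)‖ + ‖η i (x j)‖)) ^ 2
      ≤ W * ∑ i ∈ Finset.range L, w i * (2 * ‖ξ i (x j)‖ ^ 2 + 2 * ‖η i (x j)‖ ^ 2) := by
    intro j
    have h3 := Finset.sum_sq_le_sum_mul_sum_of_sq_le_mul (Finset.range L)
      (r := fun i => w i * (‖ξ i (x j)‖ + ‖η i (x j)‖)) (f := w)
      (g := fun i => w i * (‖ξ i (x j)‖ + ‖η i (x j)‖) ^ 2) (fun i _ => hw i)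
      (fun i _ => mul_nonneg (hw i) (by positivity)) (fun i _ => le_of_eq (by ring))
    refine h3.trans ?_
    refine mul_le_mul (hs.sum_le_tsum _ fun i _ => hw i) (Finset.sum_le_sum fun i _ => ?_)
      (Finset.sum_nonneg fun i _ => mul_nonneg (hw i) (by positivity)) hW0
    refine mul_le_mul_of_nonneg_left ?_ (hw i)
    nlinarith [sq_nonneg (‖ξ i (x j)‖ - ‖η i (x j)‖)]
  calc ∑ j, (∑ i ∈ Finset.range L, w i * (‖ξ i (x j)‖ + ‖η i (x j)‖)) ^ 2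
      ≤ ∑ j, W * ∑ i ∈ Finset.range L, w i * (2 * ‖ξ i (x j)‖ ^ 2 + 2 * ‖η i (x j)‖ ^ 2) :=
        Finset.sum_le_sum fun j _ => h2 j
    _ = W * ∑ i ∈ Finset.range L, w i * (2 * ∑ j, ‖ξ i (x j)‖ ^ 2
        + 2 * ∑ j, ‖η i (x j)‖ ^ 2) := by
        rw [← Finset.mul_sum, Finset.sum_comm]
        congr 1
        refine Finset.sum_congr rfl fun i _ => ?_
        rw [← Finset.mul_sum, Finset.sum_add_distrib, ← Finset.mul_sum, ← Finset.mul_sum]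
    _ ≤ W * ∑ i ∈ Finset.range L, w i * (2 * S + 2 * S) := by
        refine mul_le_mul_of_nonneg_left (Finset.sum_le_sum fun i _ => ?_) hW0
        refine mul_le_mul_of_nonneg_left ?_ (hw i)
        have h5 := le_weak x (ξ i) (hξ i)
        have h6 := le_weak x (η i) (hη i)
        linarith
    _ = W * ((∑ i ∈ Finset.range L, w i) * (4 * S)) := by
        rw [← Finset.sum_mul]
        ring
    _ ≤ W * (W * (4 * S)) := by
        have hS0 : 0 ≤ S := by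
          refine le_trans ?_ (le_weak x 0 (by simp))
          positivity
        refine mul_le_mul_of_nonneg_left ?_ hW0
        refine mul_le_mul_of_nonneg_right (hs.sum_le_tsum _ fun i _ => hw i) (by positivity)
    _ = _ := by ring

/-- The coefficient functionals on the Besov space. -/
lemma exists_besovCoeff {α : ℝ} (hα : 0 < α) (N : ℕ) :
    ∃ (C : ℝ) (ξ : ℕ → Besov α (N + 1) →L[ℂ] ℂ), 0 < C ∧ (∀ k, ‖ξ k‖ ≤ 1) ∧
      ∀ k f, ‖coeff f.fn k‖ = C * ((k : ℝ) + 1) ^ (-α) * ‖ξ k f‖ := by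
  obtain ⟨C, hC, hb⟩ := Besov.exists_coeff_bound hα N
  have hk : ∀ k : ℕ, 0 < ((k : ℝ) + 1) ^ (-α) := fun k => by positivity
  have hlin : ∀ k : ℕ, ∃ ξ : Besov α (N + 1) →L[ℂ] ℂ,
      ‖ξ‖ ≤ 1 ∧ ∀ f, ‖coeff f.fn k‖ = C * ((k : ℝ) + 1) ^ (-α) * ‖ξ f‖ := by
    intro k
    have hck : 0 < C * ((k : ℝ) + 1) ^ (-α) := mul_pos hC (hk k)
    have hbd : ∀ f : Besov α (N + 1),
        ‖((C * ((k : ℝ) + 1) ^ (-α) : ℝ) : ℂ)⁻¹ * coeff f.fn k‖ ≤ 1 * ‖f‖ := by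
      intro f
      rw [norm_mul, norm_inv, Complex.norm_real, Real.norm_of_nonneg hck.le, one_mul,
        inv_mul_le_iff₀ hck]
      exact hb f k
    refine ⟨LinearMap.mkContinuous
      { toFun := fun f => ((C * ((k : ℝ) + 1) ^ (-α) : ℝ) : ℂ)⁻¹ * coeff f.fn k
        map_add' := fun f g => by
          rw [Besov.fn_add, coeff_add f.mem_disc g.mem_disc, mul_add]
        map_smul' := fun c f => by
          rw [Besov.fn_smul, coeff_smul f.mem_disc, RingHom.id_apply, smul_eq_mul]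
          ring } 1 hbd, LinearMap.mkContinuous_norm_le _ zero_le_one _, fun f => ?_⟩
    rw [LinearMap.mkContinuous_apply]
    simp only [LinearMap.coe_mk, AddHom.coe_mk]
    rw [norm_mul, norm_inv, Complex.norm_real, Real.norm_of_nonneg hck.le]
    field_simp
  choose ξ h1 h2 using hlin
  exact ⟨C, ξ, hC, h1, fun k f => h2 k f⟩

/-- For `α > 1` every Hankel-type operator is 2-summing. -/
theorem isTwoSumming_of_one_lt {α : ℝ} (hα : 1 < α) (n : ℕ) (hn : α < n) (φ : Growth α)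
    (H : Besov α n →L[ℂ] Growth α) (hH : IsHankel φ H) : IsTwoSumming H := by
  have hα0 : 0 < α := lt_trans one_pos hα
  obtain ⟨N, rfl⟩ : ∃ N, n = N + 1 := by
    refine Nat.exists_eq_succ_of_ne_zero ?_
    rintro rfl
    push_cast at hn
    linarith
  obtain ⟨Cc, ξ, hCc, hξ, hc⟩ := exists_besovCoeff hα0 N
  obtain ⟨CJ, hCJ, hJ⟩ := J1_bound hα0 hn
  obtain ⟨Cd, hCd, hdual⟩ := growth_norm_le hα0 hn
  have hdense := Besov.dense_polyB hα0 hn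
  set a := coeff φ.fn with ha
  set K := 2 * N + 1 with hK
  -- the functionals η
  set CF : ℝ := CJ * (‖φ‖ + 1) with hCF
  have hCF0 : 0 < CF := by positivity
  have hXk : ∀ (l : ℕ), ∀ z ∈ ball (0 : ℂ) 1, ‖(X ^ l : ℂ[X]).eval z‖ ≤ 1 := by
    intro l z hz
    rw [eval_pow, eval_X, norm_pow]
    exact pow_le_one₀ (norm_nonneg _) (mem_ball_zero_iff.mp hz).le
  have hJX : ∀ (l : ℕ) (p : ℂ[X]), ‖J1 a N p (X ^ l)‖ ≤ CF * ‖polyB hα0 hn p‖ := by
    intro l p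
    have h1 := hJ φ p (X ^ l) 1 (hXk l)
    have h2 := norm_nonneg (polyB hα0 hn p)
    calc _ ≤ _ := h1
      _ ≤ CJ * (‖φ‖ + 1) * ‖polyB hα0 hn p‖ * 1 := by
        gcongr
        linarith
      _ = _ := by rw [mul_one]
  have hηex : ∀ l : ℕ, ∃ η : Besov α (N + 1) →L[ℂ] ℂ, ‖η‖ ≤ 1 ∧
      ∀ p, ‖J1 a N p (X ^ l)‖ = CF * ‖η (polyB hα0 hn p)‖ := by
    intro l
    set e := (J1L a N (X ^ l)).extendOfNorm (polyB hα0 hn) with he
    have hnorm : ∀ p : ℂ[X], ‖J1L a N (X ^ l) p‖ ≤ CF * ‖polyB hα0 hn p‖ := hJX l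
    have h1 : ‖e‖ ≤ CF := LinearMap.opNorm_extendOfNorm_le hdense hCF0.le hnorm
    have hCFn : ‖((CF : ℝ) : ℂ)⁻¹‖ = CF⁻¹ := by
      rw [norm_inv, Complex.norm_real, Real.norm_of_nonneg hCF0.le]
    refine ⟨((CF : ℝ) : ℂ)⁻¹ • e, ?_, fun p => ?_⟩
    · rw [norm_smul, hCFn, inv_mul_le_iff₀ hCF0, mul_one]
      exact h1
    · rw [smul_apply, norm_smul, hCFn,
        LinearMap.extendOfNorm_eq hdense ⟨_, hnorm⟩]
      have : J1L a N (X ^ l) p = J1 a N p (X ^ l) := rfl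
      rw [this]
      field_simp
  choose η hη hηJ using hηex
  -- the weights
  set C₁ : ℝ := K * (2 ^ α * 2 ^ K) * ‖φ‖ * Cc + CF with hC₁
  have hC₁0 : 0 ≤ C₁ := by positivity
  set w : ℕ → ℝ := fun k => (Cd * (C₁ * Cc + Cc * CF)) * ((k : ℝ) + 1) ^ (-α) with hw
  have hs0 : Summable fun k : ℕ => ((k : ℝ) + 1) ^ (-α) := by
    have h1 := (summable_nat_add_iff 1).mpr (Real.summable_nat_rpow.mpr
      (show -α < -1 by linarith))
    refine h1.congr fun k => ?_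
    push_cast
    rfl
  have hs : Summable w := hs0.mul_left _
  have hw0 : ∀ k, 0 ≤ w k := fun k => by
    have : (0 : ℝ) < ((k : ℝ) + 1) ^ (-α) := by positivity
    positivity
  refine isTwoSumming_of_dominated H w hw0 hs ξ η hξ hη (range (polyB hα0 hn)) hdense ?_
  rintro _ ⟨p, rfl⟩
  have hle1 : ∀ (ζ : Besov α (N + 1) →L[ℂ] ℂ), ‖ζ‖ ≤ 1 → ∀ x, ‖ζ x‖ ≤ ‖x‖ := by
    intro ζ hζ x
    calc ‖ζ x‖ ≤ ‖ζ‖ * ‖x‖ := ζ.le_opNorm _
      _ ≤ 1 * ‖x‖ := by gcongr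
      _ = _ := one_mul _
  have hsξ : Summable fun k : ℕ => ((k : ℝ) + 1) ^ (-α) * ‖ξ k (polyB hα0 hn p)‖ := by
    refine Summable.of_nonneg_of_le (fun k => by positivity) (fun k => ?_)
      (hs0.mul_right ‖polyB hα0 hn p‖)
    have := hle1 _ (hξ k) (polyB hα0 hn p)
    gcongr
  have hsη : Summable fun k : ℕ => ((k : ℝ) + 1) ^ (-α) * ‖η k (polyB hα0 hn p)‖ := by
    refine Summable.of_nonneg_of_le (fun k => by positivity) (fun k => ?_)
      (hs0.mul_right ‖polyB hα0 hn p‖)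
    have := hle1 _ (hη k) (polyB hα0 hn p)
    gcongr
  set Sξ := ∑' k : ℕ, ((k : ℝ) + 1) ^ (-α) * ‖ξ k (polyB hα0 hn p)‖ with hSξ
  set Sη := ∑' k : ℕ, ((k : ℝ) + 1) ^ (-α) * ‖η k (polyB hα0 hn p)‖ with hSη
  have hSξ0 : 0 ≤ Sξ := tsum_nonneg fun k => by positivity
  have hSη0 : 0 ≤ Sη := tsum_nonneg fun k => by positivity
  have hpc : ∀ (q : ℂ[X]) (k : ℕ),
      ‖q.coeff k‖ = Cc * ((k : ℝ) + 1) ^ (-α) * ‖ξ k (polyB hα0 hn q)‖ := by
    intro q k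
    rw [← hc k (polyB hα0 hn q), polyB_fn, coeff_polyFn]
  have hpsum : ∀ s : Finset ℕ, ∑ k ∈ s, ‖p.coeff k‖ ≤ Cc * Sξ := by
    intro s
    calc ∑ k ∈ s, ‖p.coeff k‖
        = Cc * ∑ k ∈ s, ((k : ℝ) + 1) ^ (-α) * ‖ξ k (polyB hα0 hn p)‖ := by
          rw [Finset.mul_sum]
          refine Finset.sum_congr rfl fun k _ => ?_
          rw [hpc, mul_assoc]
      _ ≤ _ := by
          refine mul_le_mul_of_nonneg_left ?_ hCc.le
          exact hsξ.sum_le_tsum _ fun k _ => by positivity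
  have hqc : ∀ (q : ℂ[X]) (k : ℕ), ‖q.coeff k‖ ≤ Cc * ((k : ℝ) + 1) ^ (-α) * ‖polyB hα0 hn q‖ := by
    intro q k
    rw [hpc]
    have := hle1 _ (hξ k) (polyB hα0 hn q)
    gcongr
  have hqc' : ∀ (q : ℂ[X]) (k : ℕ), ‖q.coeff k‖ ≤ Cc * ‖polyB hα0 hn q‖ := by
    intro q k
    have h2 : ((k : ℝ) + 1) ^ (-α) ≤ 1 := by
      apply rpow_le_one_of_one_le_of_nonpos
      · have : (0 : ℝ) ≤ k := Nat.cast_nonneg k
        linarith
      · linarith
    calc _ ≤ _ := hqc q k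
      _ ≤ Cc * 1 * ‖polyB hα0 hn q‖ := by gcongr
      _ = _ := by ring
  have hform : ∀ q : ℂ[X], ‖pairL a (p * q)‖
      ≤ (C₁ * (Cc * Sξ) + Cc * CF * Sη) * ‖polyB hα0 hn q‖ := by
    intro q
    set Q := ‖polyB hα0 hn q‖ with hQ
    have hQ0 : 0 ≤ Q := norm_nonneg _
    have h1 := low_bound φ K p q (B := Cc * Q) (hqc' q)
    have h1' := hpsum (Finset.range K)
    have h2 : ‖J1 a N p q‖ ≤ Cc * CF * Sη * Q := by
      rw [J1_expand_right]
      calc ‖∑ k ∈ q.support, q.coeff k * J1 a N p (X ^ k)‖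
          ≤ ∑ k ∈ q.support, (Cc * CF * Q) * (((k : ℝ) + 1) ^ (-α)
            * ‖η k (polyB hα0 hn p)‖) := by
            refine norm_sum_le_of_le _ fun k _ => ?_
            rw [norm_mul, hηJ k p]
            have := hqc q k
            calc ‖q.coeff k‖ * (CF * ‖η k (polyB hα0 hn p)‖)
                ≤ (Cc * ((k : ℝ) + 1) ^ (-α) * Q) * (CF * ‖η k (polyB hα0 hn p)‖) := by gcongr
              _ = _ := by ring
        _ = (Cc * CF * Q) * ∑ k ∈ q.support, (((k : ℝ) + 1) ^ (-α)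
            * ‖η k (polyB hα0 hn p)‖) := by rw [Finset.mul_sum]
        _ ≤ (Cc * CF * Q) * Sη := by
            refine mul_le_mul_of_nonneg_left ?_ (by positivity)
            exact hsη.sum_le_tsum _ fun k _ => by positivity
        _ = _ := by ring
    have h3 : ‖J1 a N q p‖ ≤ CF * Q * (Cc * Sξ) := by
      rw [J1_expand_right]
      calc ‖∑ k ∈ p.support, p.coeff k * J1 a N q (X ^ k)‖
          ≤ ∑ k ∈ p.support, (CF * Q) * ‖p.coeff k‖ := by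
            refine norm_sum_le_of_le _ fun k _ => ?_
            rw [norm_mul, mul_comm]
            have := hJX k q
            gcongr
        _ = (CF * Q) * ∑ k ∈ p.support, ‖p.coeff k‖ := by rw [Finset.mul_sum]
        _ ≤ _ := by
            have := hpsum p.support
            gcongr
    rw [hankel_split a N p q]
    refine (norm_add_le _ _).trans ((add_le_add (norm_add_le _ _) h3).trans ?_)
    refine (add_le_add (add_le_add h1 h2) le_rfl).trans ?_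
    calc _ ≤ K * (2 ^ α * 2 ^ K) * ‖φ‖ * (Cc * Q) * (Cc * Sξ) + Cc * CF * Sη * Q
          + CF * Q * (Cc * Sξ) := by gcongr
      _ = _ := by
        rw [hC₁]
        ring
  have hB0 : 0 ≤ C₁ * (Cc * Sξ) + Cc * CF * Sη := by positivity
  have hHc : coeff (H (polyB hα0 hn p)).fn
      = fun j => ∑ k ∈ p.support, a (j + k) * p.coeff k := by
    funext j
    exact hH p (polyB hα0 hn p) (fun z hz => polyFn_apply p hz) j
  have hmain := hdual (H (polyB hα0 hn p)) _ hB0 (fun q => by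
    rw [hHc, pairL_hankel]
    exact hform q)
  refine hmain.trans ?_
  have hfin : ∑' k, w k * (‖ξ k (polyB hα0 hn p)‖ + ‖η k (polyB hα0 hn p)‖)
      = (Cd * (C₁ * Cc + Cc * CF)) * (Sξ + Sη) := by
    rw [hSξ, hSη, ← hsξ.tsum_add hsη, ← tsum_mul_left]
    refine tsum_congr fun k => ?_
    simp only [hw]
    ring
  rw [hfin]
  calc Cd * (C₁ * (Cc * Sξ) + Cc * CF * Sη)
      ≤ Cd * ((C₁ * Cc + Cc * CF) * Sξ + (C₁ * Cc + Cc * CF) * Sη) := by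
        have e1 : C₁ * (Cc * Sξ) ≤ (C₁ * Cc + Cc * CF) * Sξ := by
          have : 0 ≤ Cc * CF * Sξ := by positivity
          linarith
        have e2 : Cc * CF * Sη ≤ (C₁ * Cc + Cc * CF) * Sη := by
          have : 0 ≤ C₁ * Cc * Sη := by positivity
          linarith
        gcongr
    _ = _ := by ring

end Pool.Agent.Lib.MP_d3a69a_an
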