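import Mathlib
import Pool.Agent.Lib.MP_d3a69a_an.TwoSum

open MeasureTheory Metric Set Real Polynomial
open scoped ENNReal ComplexConjugate

noncomputable section

namespace Pool.Agent.Lib.MP_d3a69a_an

/-- Coefficients `±1` of the symbol, constant on the blocks `[16^{2m-1}, 16^{2m+1})`. -/
def sgnSeq (j : ℕ) : ℝ := (-1) ^ (Nat.log 256 (16 * j))

lemma abs_sgnSeq (j : ℕ) : |sgnSeq j| = 1 := by
  rw [sgnSeq, abs_pow, abs_neg, abs_one, one_pow]

lemma sgnSeq_eq {m j : ℕ} (h1 : 256 ^ m ≤ 16 * j) (h2 : j < 16 * 256 ^ m) :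
    sgnSeq j = (-1) ^ m := by
  rw [sgnSeq, Nat.log_eq_of_pow_le_of_lt_pow h1]
  rw [pow_succ]
  omega

/-- The radii `1 - 256^{-i}`. -/
def rad (i : ℕ) : ℝ := 1 - (256 ^ i)⁻¹

lemma one_sub_rad (i : ℕ) : 1 - rad i = (256 ^ i)⁻¹ := by
  rw [rad]
  ring

lemma rad_nonneg (i : ℕ) : 0 ≤ rad i := by
  rw [rad]
  have : ((256 : ℝ) ^ i)⁻¹ ≤ 1 := inv_le_one_of_one_le₀ (one_le_pow₀ (by norm_num))
  linarith

lemma rad_lt_one (i : ℕ) : rad i < 1 := by
  rw [rad]
  have : 0 < ((256 : ℝ) ^ i)⁻¹ := by positivity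
  linarith

/-- The geometric weights `(1-ρ_i) ρ_i^j`. -/
def geoW (i j : ℕ) : ℝ := (1 - rad i) * rad i ^ j

lemma geoW_nonneg (i j : ℕ) : 0 ≤ geoW i j := by
  have h1 := rad_nonneg i
  have h2 := rad_lt_one i
  have h3 : 0 ≤ 1 - rad i := by linarith
  unfold geoW
  positivity

lemma geoW_hasSum (i : ℕ) : HasSum (geoW i) 1 := by
  have h := (hasSum_geometric_of_lt_one (rad_nonneg i) (rad_lt_one i)).mul_left (1 - rad i)
  have h2 : (1 - rad i) ≠ 0 := by
    have := rad_lt_one i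
    linarith
  rw [mul_inv_cancel₀ h2] at h
  exact h

lemma geoW_mean (i : ℕ) : Summable (fun j : ℕ => geoW i j * j) ∧
    ∑' j : ℕ, geoW i j * j ≤ 256 ^ i := by
  have hr : ‖rad i‖ < 1 := by
    rw [Real.norm_of_nonneg (rad_nonneg i)]
    exact rad_lt_one i
  have h := (hasSum_coe_mul_geometric_of_norm_lt_one hr).mul_left (1 - rad i)
  have h1 : HasSum (fun j : ℕ => geoW i j * j) ((1 - rad i) * (rad i / (1 - rad i) ^ 2)) := by
    refine h.congr_fun fun j => ?_
    rw [geoW]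
    ring
  refine ⟨h1.summable, ?_⟩
  rw [h1.tsum_eq, one_sub_rad]
  have h2 : (0 : ℝ) < 256 ^ i := by positivity
  have h3 := (rad_lt_one i).le
  have h4 : ((256 : ℝ) ^ i)⁻¹ * (rad i / ((256 ^ i)⁻¹) ^ 2) = rad i * 256 ^ i := by
    field_simp
  rw [h4]
  nlinarith

lemma geoW_range (i A : ℕ) : ∑ j ∈ Finset.range A, geoW i j ≤ A * (256 ^ i)⁻¹ := by
  have h1 : ∀ j ∈ Finset.range A, geoW i j ≤ (256 ^ i)⁻¹ := by
    intro j _
    rw [geoW, one_sub_rad]
    have := pow_le_one₀ (n := j) (rad_nonneg i) (rad_lt_one i).le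
    have h2 : (0 : ℝ) ≤ (256 ^ i)⁻¹ := by positivity
    nlinarith
  refine (Finset.sum_le_sum h1).trans ?_
  rw [Finset.sum_const, Finset.card_range, nsmul_eq_mul]

lemma geoW_tail (i L : ℕ) : 1 - ∑ l ∈ Finset.range L, geoW i l = rad i ^ L := by
  have h := mul_neg_geom_sum (rad i) L
  simp only [geoW]
  rw [← Finset.mul_sum, h]
  ring

lemma geoW_sum_le_one (i : ℕ) (s : Finset ℕ) : ∑ l ∈ s, geoW i l ≤ 1 := by
  have h := (geoW_hasSum i).summable.sum_le_tsum s fun j _ => geoW_nonneg i j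
  rwa [(geoW_hasSum i).tsum_eq] at h

lemma geoW_mean_range (i L : ℕ) : ∑ l ∈ Finset.range L, geoW i l * l ≤ 256 ^ i := by
  obtain ⟨h1, h2⟩ := geoW_mean i
  refine (h1.sum_le_tsum _ fun j _ => ?_).trans h2
  have := geoW_nonneg i j
  positivity

/-- The truncated matrix entries. -/
def matM (k i L : ℕ) : ℝ :=
  ∑' j, geoW k j * ∑ l ∈ Finset.range L, sgnSeq (j + l) * geoW i l

lemma summable_matM (k i L : ℕ) :
    Summable fun j => geoW k j * ∑ l ∈ Finset.range L, sgnSeq (j + l) * geoW i l := by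
  refine Summable.of_norm_bounded ((geoW_hasSum k).summable) fun j => ?_
  rw [norm_mul, Real.norm_of_nonneg (geoW_nonneg k j)]
  have h1 : ‖∑ l ∈ Finset.range L, sgnSeq (j + l) * geoW i l‖ ≤ 1 := by
    refine (norm_sum_le_of_le _ fun l _ => ?_).trans (geoW_sum_le_one i (Finset.range L))
    rw [norm_mul, Real.norm_eq_abs, abs_sgnSeq, one_mul, Real.norm_of_nonneg (geoW_nonneg i l)]
  have h2 := geoW_nonneg k j
  nlinarith

/-- The pointwise estimate of the signs. -/
lemma sgn_sub_le (m j l : ℕ) :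
    |sgnSeq (j + l) - (-1) ^ m|
      ≤ 2 * (((j : ℝ) + l) / (16 * 256 ^ m) + (if 16 * (j + l) < 256 ^ m then 1 else 0)) := by
  have h0 : |sgnSeq (j + l) - (-1) ^ m| ≤ 2 := by
    calc |sgnSeq (j + l) - (-1) ^ m| ≤ |sgnSeq (j + l)| + |(-1 : ℝ) ^ m| := abs_sub _ _
      _ = 2 := by
        rw [abs_sgnSeq, abs_pow, abs_neg, abs_one, one_pow]
        norm_num
  have hB : (0 : ℝ) < 16 * 256 ^ m := by positivity
  have hjl : (0 : ℝ) ≤ ((j : ℝ) + l) / (16 * 256 ^ m) := by positivity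
  by_cases h1 : 16 * (j + l) < 256 ^ m
  · rw [if_pos h1]
    linarith
  · rw [if_neg h1]
    by_cases h2 : j + l < 16 * 256 ^ m
    · rw [sgnSeq_eq (not_lt.mp h1) h2, sub_self, abs_zero]
      positivity
    · have h3 : 1 ≤ ((j : ℝ) + l) / (16 * 256 ^ m) := by
        rw [one_le_div hB]
        have := not_lt.mp h2
        exact_mod_cast this
      linarith

/-- The inner sum estimate. -/
lemma inner_est (m i L j : ℕ) (him : i ≤ m) (hL : rad i ^ L ≤ 1 / 8) (zj : ℝ)
    (hz : ∑ l ∈ Finset.range L, (if 16 * (j + l) < 256 ^ m then 1 else 0) * geoW i l ≤ zj) :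
    |∑ l ∈ Finset.range L, sgnSeq (j + l) * geoW i l - (-1) ^ m|
      ≤ 2 * (j / (16 * 256 ^ m) + 1 / 16 + zj) + 1 / 8 := by
  have h1 : ∑ l ∈ Finset.range L, sgnSeq (j + l) * geoW i l - (-1) ^ m
      = ∑ l ∈ Finset.range L, (sgnSeq (j + l) - (-1) ^ m) * geoW i l
        - (-1) ^ m * rad i ^ L := by
    rw [← geoW_tail i L]
    simp only [sub_mul, Finset.sum_sub_distrib, ← Finset.mul_sum]
    ring
  rw [h1]
  refine (abs_sub _ _).trans ?_
  have h2 : |(-1 : ℝ) ^ m * rad i ^ L| ≤ 1 / 8 := by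
    rw [abs_mul, abs_pow, abs_neg, abs_one, one_pow, one_mul,
      abs_of_nonneg (pow_nonneg (rad_nonneg i) L)]
    exact hL
  have h3 : |∑ l ∈ Finset.range L, (sgnSeq (j + l) - (-1) ^ m) * geoW i l|
      ≤ 2 * (j / (16 * 256 ^ m) + 1 / 16 + zj) := by
    calc |∑ l ∈ Finset.range L, (sgnSeq (j + l) - (-1) ^ m) * geoW i l|
        ≤ ∑ l ∈ Finset.range L, (2 * (((j : ℝ) + l) / (16 * 256 ^ m)
          + (if 16 * (j + l) < 256 ^ m then 1 else 0))) * geoW i l := by
          refine (Finset.abs_sum_le_sum_abs _ _).trans (Finset.sum_le_sum fun l _ => ?_)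
          rw [abs_mul, abs_of_nonneg (geoW_nonneg i l)]
          exact mul_le_mul_of_nonneg_right (sgn_sub_le m j l) (geoW_nonneg i l)
      _ = 2 * ((j / (16 * 256 ^ m)) * ∑ l ∈ Finset.range L, geoW i l
          + (16 * 256 ^ m)⁻¹ * ∑ l ∈ Finset.range L, geoW i l * l
          + ∑ l ∈ Finset.range L, (if 16 * (j + l) < 256 ^ m then 1 else 0) * geoW i l) := by
          rw [Finset.mul_sum, Finset.mul_sum, ← Finset.sum_add_distrib, ← Finset.sum_add_distrib,
            Finset.mul_sum]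
          refine Finset.sum_congr rfl fun l _ => ?_
          ring
      _ ≤ 2 * ((j / (16 * 256 ^ m)) * 1 + (16 * 256 ^ m)⁻¹ * 256 ^ i + zj) := by
          have h4 := geoW_sum_le_one i (Finset.range L)
          have h5 := geoW_mean_range i L
          gcongr
      _ ≤ 2 * (j / (16 * 256 ^ m) + 1 / 16 + zj) := by
          have h6 : (256 : ℝ) ^ i ≤ 256 ^ m := pow_le_pow_right₀ (by norm_num) him
          have h7 : (16 * (256 : ℝ) ^ m)⁻¹ * 256 ^ i ≤ 1 / 16 := by
            rw [inv_mul_le_iff₀ (by positivity)]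
            linarith
          rw [mul_one]
          gcongr
  linarith

/-- The main estimate of the matrix entries. -/
lemma matM_est (k i L m : ℕ) (hm : m + 1 = max k i) (hL : rad i ^ L ≤ 1 / 8) :
    |matM k i L - (-1) ^ (m + 1)| ≤ 1 / 2 := by
  have him : i ≤ m + 1 := by omega
  have hkm : k ≤ m + 1 := by omega
  obtain ⟨hks, hke⟩ := geoW_mean k
  have hiff : ∀ j : ℕ, 16 * j < 256 ^ (m + 1) ↔ j < 16 * 256 ^ m := by
    intro j
    rw [pow_succ]
    omega
  have hrange : ∑ j ∈ Finset.range (16 * 256 ^ m), geoW (m + 1) j ≤ 1 / 16 := by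
    refine (geoW_range (m + 1) (16 * 256 ^ m)).trans (le_of_eq ?_)
    push_cast
    rw [pow_succ]
    field_simp
    norm_num
  -- the bounding sequence
  obtain ⟨z, hz, hzs, hzle⟩ : ∃ z : ℕ → ℝ,
      (∀ j, ∑ l ∈ Finset.range L, (if 16 * (j + l) < 256 ^ (m + 1) then 1 else 0) * geoW i l
        ≤ z j) ∧
      Summable (fun j => geoW k j * z j) ∧ ∑' j, geoW k j * z j ≤ 1 / 16 := by
    rcases le_total i k with hik | hik
    · have hmk : k = m + 1 := by omega
      have hzero : ∀ j ∉ Finset.range (16 * 256 ^ m),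
          geoW k j * (if j < 16 * 256 ^ m then 1 else 0) = 0 := by
        intro j hj
        rw [Finset.mem_range] at hj
        rw [if_neg hj, mul_zero]
      refine ⟨fun j => if j < 16 * 256 ^ m then 1 else 0, fun j => ?_,
        summable_of_ne_finset_zero hzero, ?_⟩
      · simp only
        by_cases h : j < 16 * 256 ^ m
        · rw [if_pos h]
          refine le_trans (Finset.sum_le_sum fun l _ => ?_) (geoW_sum_le_one i (Finset.range L))
          have := geoW_nonneg i l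
          split <;> linarith
        · rw [if_neg h]
          refine le_of_eq (Finset.sum_eq_zero fun l _ => ?_)
          rw [if_neg (by rw [hiff]; omega), zero_mul]
      · rw [tsum_eq_sum hzero]
        refine le_trans (Finset.sum_le_sum (g := geoW k) fun j _ => ?_) (by rw [hmk]; exact hrange)
        have := geoW_nonneg k j
        split <;> linarith
    · have hmi : i = m + 1 := by omega
      have hs := (geoW_hasSum k).mul_right (1 / 16)
      refine ⟨fun _ => 1 / 16, fun j => ?_, hs.summable, ?_⟩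
      · calc ∑ l ∈ Finset.range L, (if 16 * (j + l) < 256 ^ (m + 1) then 1 else 0) * geoW i l
            ≤ ∑ l ∈ Finset.range L, (if l ∈ Finset.range (16 * 256 ^ m) then geoW i l else 0) := by
              refine Finset.sum_le_sum fun l _ => ?_
              have h1 := geoW_nonneg i l
              have h2 := hiff (j + l)
              by_cases h : l ∈ Finset.range (16 * 256 ^ m)
              · rw [if_pos h]
                split <;> linarith
              · rw [if_neg h, if_neg (by rw [h2]; rw [Finset.mem_range] at h; omega), zero_mul]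
          _ ≤ ∑ l ∈ Finset.range (16 * 256 ^ m), geoW i l := by
              rw [Finset.sum_ite_mem]
              exact Finset.sum_le_sum_of_subset_of_nonneg Finset.inter_subset_right
                fun l _ _ => geoW_nonneg i l
          _ ≤ 1 / 16 := by rw [hmi]; exact hrange
      · rw [hs.tsum_eq]
        norm_num
  have hsum1 : Summable fun j : ℕ => geoW k j * (2 * ((j : ℝ) / (16 * 256 ^ (m + 1)) + 1 / 16 + z j)
      + 1 / 8) := by
    have h1 := ((hks.mul_right (2 / (16 * 256 ^ (m + 1)))).add (hzs.mul_right 2)).add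
      ((geoW_hasSum k).summable.mul_right (1 / 4))
    refine h1.congr fun j => ?_
    ring
  have hval : ∑' j : ℕ, geoW k j * (2 * ((j : ℝ) / (16 * 256 ^ (m + 1)) + 1 / 16 + z j) + 1 / 8)
      = (∑' j : ℕ, geoW k j * j) * (2 / (16 * 256 ^ (m + 1))) + (∑' j, geoW k j * z j) * 2
        + 1 / 4 := by
    have h1 := ((hks.hasSum.mul_right (2 / (16 * 256 ^ (m + 1)))).add (hzs.hasSum.mul_right 2)).add
      ((geoW_hasSum k).mul_right (1 / 4))
    rw [one_mul] at h1
    rw [← h1.tsum_eq]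
    refine tsum_congr fun j => ?_
    ring
  have hdiff : matM k i L - (-1) ^ (m + 1)
      = ∑' j, geoW k j * (∑ l ∈ Finset.range L, sgnSeq (j + l) * geoW i l - (-1) ^ (m + 1)) := by
    have h1 := (summable_matM k i L).hasSum.sub ((geoW_hasSum k).mul_right ((-1) ^ (m + 1)))
    rw [one_mul] at h1
    rw [matM, ← h1.tsum_eq]
    refine tsum_congr fun j => ?_
    ring
  rw [hdiff]
  have hb := tsum_of_norm_bounded hsum1.hasSum (f := fun j => geoW k j
    * (∑ l ∈ Finset.range L, sgnSeq (j + l) * geoW i l - (-1) ^ (m + 1))) (fun j => by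
      rw [norm_mul, Real.norm_of_nonneg (geoW_nonneg k j), Real.norm_eq_abs]
      exact mul_le_mul_of_nonneg_left (inner_est (m + 1) i L j him hL (z j) (hz j))
        (geoW_nonneg k j))
  rw [Real.norm_eq_abs] at hb
  refine hb.trans ?_
  rw [hval]
  have h6 : (256 : ℝ) ^ k ≤ 256 ^ (m + 1) := pow_le_pow_right₀ (by norm_num) hkm
  have h7 : (∑' j : ℕ, geoW k j * j) * (2 / (16 * 256 ^ (m + 1))) ≤ 1 / 8 := by
    rw [mul_div_assoc', div_le_iff₀ (by positivity)]
    linarith
  linarith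

/-! ### Dyadic blocks -/

/-- Sum of `u` over the dyadic block `[q 2^l, (q+1) 2^l)`. -/
def blk {V : Type} [AddCommMonoid V] (u : ℕ → V) (l q : ℕ) : V :=
  ∑ a ∈ Finset.range (2 ^ l), u (q * 2 ^ l + a)

lemma blk_succ {V : Type} [AddCommMonoid V] (u : ℕ → V) (l q : ℕ) :
    blk u (l + 1) q = blk u l (2 * q) + blk u l (2 * q + 1) := by
  rw [blk, blk, blk, show 2 ^ (l + 1) = 2 ^ l + 2 ^ l by rw [pow_succ]; ring,
    Finset.sum_range_add]
  congr 1
  · refine Finset.sum_congr rfl fun a _ => ?_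
    congr 1
    ring
  · refine Finset.sum_congr rfl fun a _ => ?_
    congr 1
    ring

/-- The Haar differences. -/
def haar {V : Type} [AddCommGroup V] (u : ℕ → V) (l q : ℕ) : V :=
  blk u l (2 * q) - blk u l (2 * q + 1)

lemma map_haar {V W F : Type} [AddCommGroup V] [AddCommGroup W] [FunLike F V W]
    [AddMonoidHomClass F V W] (f : F) (u : ℕ → V) (l q : ℕ) :
    f (haar u l q) = haar (fun a => f (u a)) l q := by
  simp only [haar, blk, map_sub, map_sum]

lemma sum_range_two_mul {M : Type} [AddCommMonoid M] (f : ℕ → M) (n : ℕ) :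
    ∑ q ∈ Finset.range (2 * n), f q = ∑ q ∈ Finset.range n, (f (2 * q) + f (2 * q + 1)) := by
  induction n with
  | zero => simp
  | succ n ih =>
    rw [show 2 * (n + 1) = 2 * n + 1 + 1 by ring, Finset.sum_range_succ, Finset.sum_range_succ,
      Finset.sum_range_succ, ih, add_assoc]

/-- One step of the Haar decomposition. -/
lemma haar_step (c : ℕ → ℂ) (T l : ℕ) (hl : l < T) :
    ((2 : ℝ) ^ l)⁻¹ * ∑ q ∈ Finset.range (2 ^ (T - l)), ‖blk c l q‖ ^ 2
      = ((2 : ℝ) ^ (l + 1))⁻¹ * ∑ q ∈ Finset.range (2 ^ (T - (l + 1))), ‖blk c (l + 1) q‖ ^ 2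
        + ((2 : ℝ) ^ (l + 1))⁻¹ * ∑ q ∈ Finset.range (2 ^ (T - (l + 1))), ‖haar c l q‖ ^ 2 := by
  have e : T - l = T - (l + 1) + 1 := by omega
  rw [e, pow_succ' 2 (T - (l + 1)), sum_range_two_mul, ← mul_add, ← Finset.sum_add_distrib,
    pow_succ, mul_inv, mul_assoc]
  congr 1
  rw [Finset.mul_sum]
  refine Finset.sum_congr rfl fun q _ => ?_
  rw [blk_succ, haar]
  have h := parallelogram_law_with_norm ℝ (blk c l (2 * q)) (blk c l (2 * q + 1))
  nlinarith [h]

/-- Bessel inequality for the Haar system. -/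
lemma haar_bessel (c : ℕ → ℂ) (T : ℕ) :
    ∑ l ∈ Finset.range T, ((2 : ℝ) ^ (l + 1))⁻¹
      * ∑ q ∈ Finset.range (2 ^ (T - (l + 1))), ‖haar c l q‖ ^ 2
      ≤ ∑ a ∈ Finset.range (2 ^ T), ‖c a‖ ^ 2 := by
  have key : ∀ k ≤ T, ((2 : ℝ) ^ k)⁻¹ * (∑ q ∈ Finset.range (2 ^ (T - k)), ‖blk c k q‖ ^ 2)
      + ∑ l ∈ Finset.range k, ((2 : ℝ) ^ (l + 1))⁻¹
        * ∑ q ∈ Finset.range (2 ^ (T - (l + 1))), ‖haar c l q‖ ^ 2
      = ∑ a ∈ Finset.range (2 ^ T), ‖c a‖ ^ 2 := by
    intro k
    induction k with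
    | zero =>
      intro _
      simp [blk]
    | succ k ih =>
      intro hk
      rw [← ih (by omega), haar_step c T k (by omega), Finset.sum_range_succ]
      ring
  have h := key T le_rfl
  have h2 : 0 ≤ ((2 : ℝ) ^ T)⁻¹
      * (∑ q ∈ Finset.range (2 ^ (T - T)), ‖blk c T q‖ ^ 2) := by positivity
  linarith

end Pool.Agent.Lib.MP_d3a69a_an
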