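import Mathlib
import Pool.Agent.Lib.MP_d3a69a_an.Counter

open MeasureTheory Metric Set Real Polynomial
open scoped ENNReal ComplexConjugate

noncomputable section

namespace Pool.Agent.Lib.MP_d3a69a_an

/-- The symbol with coefficients `±1`. -/
lemma exists_symbol : ∃ φ : Growth 1, ∀ j, coeff φ.fn j = (sgnSeq j : ℂ) := by
  set a : ℕ → ℂ := fun j => (sgnSeq j : ℂ) with ha
  have hn : ∀ j, ‖a j‖ = 1 := by
    intro j
    rw [ha]
    simp only
    rw [Complex.norm_real, Real.norm_eq_abs, abs_sgnSeq]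
  have hs : ∀ r : ℝ, 0 ≤ r → r < 1 → Summable fun k => ‖a k‖ * r ^ k := by
    intro r hr0 hr1
    simp only [hn, one_mul]
    exact summable_geometric_of_lt_one hr0 hr1
  have hbd : ∀ z ∈ ball (0 : ℂ) 1, ‖ofCoeff a z‖ ≤ 1 * (1 - ‖z‖) ^ (-(1 : ℝ)) := by
    intro z hz
    have hz1 := mem_ball_zero_iff.mp hz
    rw [rpow_neg_one, one_mul, ← (ofCoeff_hasSum hs hz).tsum_eq]
    refine tsum_of_norm_bounded (hasSum_geometric_of_lt_one (norm_nonneg z) hz1) fun k => ?_
    rw [norm_mul, hn, one_mul, norm_pow]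
  exact ⟨mkGrowth (ofCoeff a) (ofCoeff_mem hs) 1 zero_le_one hbd, fun j => coeff_ofCoeff hs j⟩

/-- Two-summing operators tested on finsets. -/
lemma IsTwoSumming.finset {X Y : Type} [NormedAddCommGroup X] [NormedSpace ℂ X]
    [NormedAddCommGroup Y] [NormedSpace ℂ Y] {u : X →L[ℂ] Y} (h : IsTwoSumming u) :
    ∃ C : ℝ, ∀ (ι : Type) (s : Finset ι) (x : ι → X) (B : ℝ),
      (∀ ξ : X →L[ℂ] ℂ, ‖ξ‖ ≤ 1 → ∑ i ∈ s, ‖ξ (x i)‖ ^ 2 ≤ B) →
      ∑ i ∈ s, ‖u (x i)‖ ^ 2 ≤ C ^ 2 * B := by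
  obtain ⟨C, hC⟩ := h
  refine ⟨C, fun ι s x B hB => ?_⟩
  have hsum : ∀ f : ι → ℝ, ∑ i ∈ s, f i = ∑ j : Fin s.card, f (s.equivFin.symm j) := by
    intro f
    rw [← Finset.sum_coe_sort s f]
    exact (Equiv.sum_comp s.equivFin.symm (fun i : s => f i)).symm
  have h1 := hC s.card (fun j => x (s.equivFin.symm j))
  rw [hsum fun i => ‖u (x i)‖ ^ 2]
  refine h1.trans ?_
  refine mul_le_mul_of_nonneg_left ?_ (sq_nonneg C)
  have : Nonempty {ξ : X →L[ℂ] ℂ // ‖ξ‖ ≤ 1} := ⟨⟨0, by simp⟩⟩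
  refine ciSup_le fun ξ => ?_
  rw [← hsum fun i => ‖ξ.1 (x i)‖ ^ 2]
  exact hB ξ.1 ξ.2

/-- Lower bound of a Haar difference. -/
lemma haar_lower (c : ℕ → ℝ) (l q : ℕ) (h1 : ∀ a < (2 * q + 1) * 2 ^ l, 1 / 2 ≤ c a)
    (h2 : ∀ a, (2 * q + 1) * 2 ^ l ≤ a → c a ≤ -(1 / 2)) : (2 : ℝ) ^ l ≤ haar c l q := by
  have h3 : (2 : ℝ) ^ l * (1 / 2) ≤ blk c l (2 * q) := by
    have : ∑ a ∈ Finset.range (2 ^ l), (1 / 2 : ℝ) ≤ blk c l (2 * q) := by
      refine Finset.sum_le_sum fun a ha => h1 _ ?_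
      rw [Finset.mem_range] at ha
      nlinarith
    rw [Finset.sum_const, Finset.card_range, nsmul_eq_mul] at this
    push_cast at this
    exact this
  have h4 : blk c l (2 * q + 1) ≤ (2 : ℝ) ^ l * (-(1 / 2)) := by
    have : blk c l (2 * q + 1) ≤ ∑ a ∈ Finset.range (2 ^ l), (-(1 / 2) : ℝ) := by
      refine Finset.sum_le_sum fun a ha => h2 _ ?_
      omega
    rw [Finset.sum_const, Finset.card_range, nsmul_eq_mul] at this
    push_cast at this
    exact this
  rw [haar]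
  linarith

lemma rad_mem (i : ℕ) : (rad i : ℂ) ∈ ball (0 : ℂ) 1 := by
  rw [mem_ball_zero_iff, Complex.norm_real, Real.norm_of_nonneg (rad_nonneg i)]
  exact rad_lt_one i

/-- Weighted point evaluation. -/
def evR (k : ℕ) : Growth 1 →+ ℂ where
  toFun h := ((1 - rad k : ℝ) : ℂ) * h.fn (rad k)
  map_zero' := by simp [Growth.fn_zero]
  map_add' f g := by
    rw [Growth.fn_add, Pi.add_apply, mul_add]

lemma norm_evR_le (k : ℕ) (h : Growth 1) : ‖evR k h‖ ≤ ‖h‖ := by
  have h1 := h.le_norm (rad_mem k)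
  have h2 : 0 < 1 - rad k := by
    have := rad_lt_one k
    linarith
  have h3 : evR k h = ((1 - rad k : ℝ) : ℂ) * h.fn (rad k) := rfl
  rw [h3, norm_mul, Complex.norm_real, Real.norm_of_nonneg h2.le]
  rw [Complex.norm_real, Real.norm_of_nonneg (rad_nonneg k), rpow_neg_one] at h1
  calc (1 - rad k) * ‖h.fn (rad k)‖ ≤ (1 - rad k) * (‖h‖ * (1 - rad k)⁻¹) := by gcongr
    _ = ‖h‖ := by field_simp

/-- The values of the Hankel operator on the atoms. -/
lemma evR_hankel {n : ℕ} (hn : (1 : ℝ) < n) (φ : Growth 1)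
    (hφ : ∀ j, coeff φ.fn j = (sgnSeq j : ℂ)) (H : Besov 1 n →L[ℂ] Growth 1)
    (hH : IsHankel φ H) (k i L : ℕ) :
    evR k (H (polyB one_pos hn (((1 - rad i : ℝ) : ℂ) • geoPoly (rad i) L)))
      = (matM k i L : ℂ) := by
  set p : ℂ[X] := ((1 - rad i : ℝ) : ℂ) • geoPoly (rad i) L with hp
  have hcoef : ∀ j, coeff (H (polyB one_pos hn p)).fn j
      = ((∑ l ∈ Finset.range L, sgnSeq (j + l) * geoW i l : ℝ) : ℂ) := by
    intro j
    rw [hH p (polyB one_pos hn p) (fun z hz => polyFn_apply p hz) j,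
      ← pairL_apply (fun k => coeff φ.fn (j + k)) p, hp, map_smul, pairL_geoPoly, smul_eq_mul,
      Finset.mul_sum]
    push_cast
    refine Finset.sum_congr rfl fun l _ => ?_
    rw [hφ, geoW]
    push_cast
    ring
  have h1 := (hasSum_taylor (H (polyB one_pos hn p)).diff (rad_mem k)).mul_left
    ((1 - rad k : ℝ) : ℂ)
  have h2 : HasSum (fun j => ((geoW k j * ∑ l ∈ Finset.range L, sgnSeq (j + l) * geoW i l : ℝ)
      : ℂ)) (matM k i L : ℂ) := by
    have := (summable_matM k i L).hasSum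
    exact_mod_cast this
  refine h1.unique (h2.congr_fun fun j => ?_)
  rw [hcoef, geoW]
  push_cast
  ring

/-- For `α = 1` there is a Hankel-type operator which is not 2-summing. -/
theorem not_twoSumming_one (n : ℕ) (hn : (1 : ℝ) < n) :
    ∃ (φ : Growth 1) (H : Besov 1 n →L[ℂ] Growth 1), IsHankel φ H ∧ ¬ IsTwoSumming H := by
  obtain ⟨φ, hφ⟩ := exists_symbol
  obtain ⟨H, hH, -⟩ := exists_unique_hankel le_rfl n hn φ
  refine ⟨φ, H, hH, fun h2s => ?_⟩
  obtain ⟨CH, hCH⟩ := h2s.finset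
  obtain ⟨C, hC, hgeo⟩ := geo_norm one_pos hn
  -- truncation orders
  have hLex : ∀ i : ℕ, ∃ L : ℕ, rad i ^ L ≤ 1 / 8 ∧
      ‖polyB one_pos hn (((1 - rad i : ℝ) : ℂ) • geoPoly (rad i) L)‖ ≤ C := by
    intro i
    obtain ⟨L₀, hL₀⟩ := hgeo _ (rad_mem i)
    obtain ⟨L₁, hL₁⟩ := exists_pow_lt_of_lt_one (show (0 : ℝ) < 1 / 8 by norm_num) (rad_lt_one i)
    refine ⟨max L₀ L₁, ?_, ?_⟩
    · exact (pow_le_pow_of_le_one (rad_nonneg i) (rad_lt_one i).le (le_max_right _ _)).trans hL₁.le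
    · have h1 := hL₀ (max L₀ L₁) (le_max_left _ _)
      have h2 : 0 < 1 - rad i := by
        have := rad_lt_one i
        linarith
      rw [Complex.norm_real, Real.norm_of_nonneg (rad_nonneg i), rpow_neg_one] at h1
      rw [map_smul, norm_smul, Complex.norm_real, Real.norm_of_nonneg h2.le]
      calc (1 - rad i) * ‖polyB one_pos hn (geoPoly (rad i) (max L₀ L₁))‖
          ≤ (1 - rad i) * (C * (1 - rad i)⁻¹) := by gcongr
        _ = C := by field_simp
  choose L hL1 hL2 using hLex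
  set u : ℕ → Besov 1 n := fun a => polyB one_pos hn
    (((1 - rad (2 * a + 1) : ℝ) : ℂ) • geoPoly (rad (2 * a + 1)) (L (2 * a + 1))) with hu
  have hub : ∀ a, ‖u a‖ ≤ C := fun a => hL2 (2 * a + 1)
  -- lower bound of the images
  have hlow : ∀ l q, (2 : ℝ) ^ l ≤ ‖H (haar u l q)‖ := by
    intro l q
    set b : ℕ := (2 * q + 1) * 2 ^ l with hb
    have hb1 : 1 ≤ b := Nat.one_le_iff_ne_zero.mpr (by positivity)
    have h1 : evR (2 * b) (H (haar u l q))
        = ((haar (fun a => matM (2 * b) (2 * a + 1) (L (2 * a + 1))) l q : ℝ) : ℂ) := by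
      rw [map_haar H u l q, map_haar (evR (2 * b))]
      have h2 : (fun a => evR (2 * b) (H (u a)))
          = fun a => Complex.ofRealHom (matM (2 * b) (2 * a + 1) (L (2 * a + 1))) := by
        funext a
        exact evR_hankel hn φ hφ H hH (2 * b) (2 * a + 1) (L (2 * a + 1))
      rw [h2, ← map_haar Complex.ofRealHom]
      rfl
    have h3 := haar_lower (fun a => matM (2 * b) (2 * a + 1) (L (2 * a + 1))) l q
      (fun a ha => by
        have h4 := matM_est (2 * b) (2 * a + 1) (L (2 * a + 1)) (2 * b - 1) (by omega)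
          (hL1 (2 * a + 1))
        have e : 2 * b - 1 + 1 = 2 * b := by omega
        rw [e, pow_mul, neg_one_sq, one_pow, abs_le] at h4
        linarith [h4.1])
      (fun a ha => by
        have h4 := matM_est (2 * b) (2 * a + 1) (L (2 * a + 1)) (2 * a) (by omega)
          (hL1 (2 * a + 1))
        rw [pow_succ, pow_mul, neg_one_sq, one_pow, one_mul, abs_le] at h4
        linarith [h4.2])
    calc (2 : ℝ) ^ l ≤ haar (fun a => matM (2 * b) (2 * a + 1) (L (2 * a + 1))) l q := h3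
      _ ≤ |haar (fun a => matM (2 * b) (2 * a + 1) (L (2 * a + 1))) l q| := le_abs_self _
      _ = ‖evR (2 * b) (H (haar u l q))‖ := by
        rw [h1, Complex.norm_real, Real.norm_eq_abs]
      _ ≤ _ := norm_evR_le _ _
  -- the estimate for all `T`
  have hT : ∀ T : ℕ, (T : ℝ) ≤ 4 * (CH ^ 2 * C ^ 2) := by
    intro T
    set s : Finset (Σ _ : ℕ, ℕ) :=
      (Finset.range T).sigma fun l => Finset.range (2 ^ (T - (l + 1))) with hs
    set x : (Σ _ : ℕ, ℕ) → Besov 1 n := fun i =>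
      (((Real.sqrt (2 ^ (i.1 + 1)))⁻¹ : ℝ) : ℂ) • haar u i.1 i.2 with hx
    have hsq : ∀ l : ℕ, ‖(((Real.sqrt (2 ^ (l + 1)))⁻¹ : ℝ) : ℂ)‖ ^ 2
        = ((2 : ℝ) ^ (l + 1))⁻¹ := by
      intro l
      rw [Complex.norm_real, norm_inv, inv_pow, Real.norm_of_nonneg (Real.sqrt_nonneg _),
        Real.sq_sqrt (by positivity)]
    have h1 := hCH _ s x (2 ^ T * C ^ 2) (fun ξ hξ => by
      rw [hs, Finset.sum_sigma]
      have h2 : ∀ l ∈ Finset.range T, ∑ q ∈ Finset.range (2 ^ (T - (l + 1))),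
          ‖ξ (x ⟨l, q⟩)‖ ^ 2 = ((2 : ℝ) ^ (l + 1))⁻¹
            * ∑ q ∈ Finset.range (2 ^ (T - (l + 1))), ‖haar (fun a => ξ (u a)) l q‖ ^ 2 := by
        intro l _
        rw [Finset.mul_sum]
        refine Finset.sum_congr rfl fun q _ => ?_
        simp only [hx]
        rw [map_smul, norm_smul, mul_pow, hsq, map_haar ξ u l q]
      rw [Finset.sum_congr rfl h2]
      refine (haar_bessel _ T).trans ?_
      have h3 : ∀ a ∈ Finset.range (2 ^ T), ‖ξ (u a)‖ ^ 2 ≤ C ^ 2 := by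
        intro a _
        have h4 : ‖ξ (u a)‖ ≤ C := by
          calc ‖ξ (u a)‖ ≤ ‖ξ‖ * ‖u a‖ := ξ.le_opNorm _
            _ ≤ 1 * C := by
              have := hub a
              gcongr
            _ = C := one_mul _
        gcongr
      refine (Finset.sum_le_sum h3).trans (le_of_eq ?_)
      rw [Finset.sum_const, Finset.card_range, nsmul_eq_mul]
      push_cast
      ring)
    have h5 : (T : ℝ) * (2 ^ T / 4) ≤ ∑ i ∈ s, ‖H (x i)‖ ^ 2 := by
      rw [hs, Finset.sum_sigma]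
      have h6 : ∀ l ∈ Finset.range T, (2 : ℝ) ^ T / 4
          ≤ ∑ q ∈ Finset.range (2 ^ (T - (l + 1))), ‖H (x ⟨l, q⟩)‖ ^ 2 := by
        intro l hl
        have hl' := Finset.mem_range.mp hl
        have h7 : ∀ q ∈ Finset.range (2 ^ (T - (l + 1))),
            ((2 : ℝ) ^ (l + 1))⁻¹ * (2 ^ l) ^ 2 ≤ ‖H (x ⟨l, q⟩)‖ ^ 2 := by
          intro q _
          simp only [hx]
          rw [map_smul, norm_smul, mul_pow, hsq]
          have := hlow l q
          gcongr
        refine le_trans (le_of_eq ?_) (Finset.sum_le_sum h7)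
        rw [Finset.sum_const, Finset.card_range, nsmul_eq_mul]
        push_cast
        have e : (2 : ℝ) ^ T = 2 ^ (T - (l + 1)) * 2 ^ (l + 1) := by
          rw [← pow_add]
          congr 1
          omega
        rw [e, pow_succ]
        field_simp
        norm_num
      have h8 := Finset.sum_le_sum h6
      rw [Finset.sum_const, Finset.card_range, nsmul_eq_mul] at h8
      exact h8
    have h9 := h5.trans h1
    have h10 : (0 : ℝ) < 2 ^ T := by positivity
    have h11 : (2 : ℝ) ^ T * (T / 4) ≤ 2 ^ T * (CH ^ 2 * C ^ 2) := by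
      calc (2 : ℝ) ^ T * (T / 4) = (T : ℝ) * (2 ^ T / 4) := by ring
        _ ≤ CH ^ 2 * (2 ^ T * C ^ 2) := h9
        _ = _ := by ring
    have h12 := le_of_mul_le_mul_left h11 h10
    linarith
  obtain ⟨T, hT'⟩ := exists_nat_gt (4 * (CH ^ 2 * C ^ 2))
  have := hT T
  linarith

end Pool.Agent.Lib.MP_d3a69a_an
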